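import Pool.Agent.KWar.Defs
import Pool.Agent.MWg.Chain

/-!
# KWar.ChLet: the letters of a chain

PROOF. Induction on `n` with `mem_chain_succ`, `chain_length` and `List.getD`: a chain of length
`n + 1` at scale `P` is `(u, v) :: w'` with `u ∈ mainI P` and `w' ∈ chain k J0 n (nxt k P)`;
`Fin.sum_univ_succ`, `(x :: w').getD (i+1) = w'.getD i`, `(nxt k)^[i+1] P = (nxt k)^[i] (nxt k P)`
(`Function.iterate_succ_apply`). `lets` is the list of all letters of a tuple.
-/

namespace KWar

open MWg

theorem chain_letter {k n : ℕ} {P : ℝ} {w : List (ℕ × ℕ)} (hw : w ∈ chain k J0 n P) :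
    ∀ i : ℕ, i < n → (w.getD i (0, 0)).1 ∈ mainI ((nxt k)^[i] P) := by
  induction n generalizing P w with
  | zero => intro i hi; omega
  | succ n ih =>
      obtain ⟨u, hu, v, _, w', hw', rfl⟩ := mem_chain_succ.1 hw
      intro i hi
      cases i with
      | zero => simpa using hu
      | succ i =>
          rw [List.getD_cons_succ, Function.iterate_succ_apply]
          exact ih hw' i (by omega)

theorem chain_sum {k n : ℕ} {P : ℝ} {w : List (ℕ × ℕ)} (hw : w ∈ chain k J0 n P) (φ : ℕ → ℝ) :
    (w.map fun p => φ p.1).sum = ∑ i : Fin n, φ (w.getD i (0, 0)).1 := by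
  induction n generalizing P w with
  | zero => rw [mem_chain_zero] at hw; simp [hw]
  | succ n ih =>
      obtain ⟨u, _, v, _, w', hw', rfl⟩ := mem_chain_succ.1 hw
      rw [Fin.sum_univ_succ, List.map_cons, List.sum_cons, ih hw']
      simp

/-- The second components of the letters are `0`, so `val f 0` is the sum of `f` over the letters. -/
theorem chain_val {k n : ℕ} {P : ℝ} {w : List (ℕ × ℕ)} (f : ℕ → ℝ) :
    val f (fun _ => 0) w = (w.map fun p => f p.1).sum := by
  unfold val
  simp only [add_zero]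

/-- The list of all letters. -/
noncomputable def lets {J M : ℕ} (z : Zt) (b : Fin J × Fin M → ℕ) : List ℕ :=
  z.1.1.map Prod.fst ++ (z.1.2.map Prod.fst ++ (z.2 :: (Finset.univ.toList.map b)))

theorem lets_sum {J M : ℕ} (z : Zt) (b : Fin J × Fin M → ℕ) (φ : ℕ → ℝ) :
    ((lets z b).map φ).sum = zsum φ z + bsum φ b := by
  unfold lets zsum bsum
  have h := Finset.sum_map_toList (Finset.univ : Finset (Fin J × Fin M)) (fun p => φ (b p))
  simp only [List.map_append, List.sum_append, List.map_map, List.map_cons, List.sum_cons]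
  have h2 : (List.map (φ ∘ b) (Finset.univ : Finset (Fin J × Fin M)).toList).sum =
      ∑ p, φ (b p) := h
  rw [h2]
  simp only [Function.comp_def]
  ring

theorem lets_length {k n J M r : ℕ} {z : Zt} (hz : z ∈ Zs k n r) (b : Fin J × Fin M → ℕ) :
    (lets z b).length = 2 * n + 1 + J * M := by
  unfold Zs at hz
  obtain ⟨h1, _⟩ := Finset.mem_product.1 hz
  obtain ⟨h2, h3⟩ := Finset.mem_product.1 h1
  unfold lets
  simp only [List.length_append, List.length_map, List.length_cons, Finset.length_toList,
    Finset.card_univ, Fintype.card_prod, Fintype.card_fin, chain_length h2, chain_length h3]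
  ring

theorem lets_pos {k n J M l r : ℕ} {z : Zt} (hz : z ∈ Zs k n r) {b : Fin J × Fin M → ℕ}
    (hb : b ∈ Bk k J M l r) : ∀ x ∈ lets z b, 0 < x := by
  unfold Zs at hz
  obtain ⟨h1, h4⟩ := Finset.mem_product.1 hz
  obtain ⟨h2, h3⟩ := Finset.mem_product.1 h1
  intro x hx
  unfold lets at hx
  rw [List.mem_append, List.mem_append, List.mem_cons, List.mem_map, List.mem_map,
    List.mem_map] at hx
  rcases hx with ⟨p, hp, rfl⟩ | ⟨p, hp, rfl⟩ | rfl | ⟨p, _, rfl⟩
  · exact chain_fst_pos h2 p hp
  · exact chain_fst_pos h3 p hp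
  · unfold J1 at h4
    have := (Finset.mem_Ioc.1 h4).1
    omega
  · unfold Bk at hb
    have h5 := Fintype.mem_piFinset.1 hb p
    unfold blk at h5
    have := (Finset.mem_Ioc.1 h5).1
    omega

end KWar
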