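import Pool.Agent.KWar.Defs
import Pool.Agent.MWg.Chain

/-!
# KWar.ChSize: the scales of the chains compared with powers of `Q`

`P = XX r`, `Q = QQ k r = P^(1/(k-1))`, `P_i = (nxt k)^[i] P`, `N = k - 1`.

PROOF. `QQ_pow`: `Real.rpow_natCast`, `Real.rpow_mul` (`k ≥ 2`). `QQ_tendsto`: `XX r → ∞` and the
exponent `1/(k-1)` is positive (`tendsto_rpow_atTop`).
`nxt k x = (k 16^k x^(k-1))^(1/k)`, so for `x ≥ 1`: `x^(1-1/k) ≤ nxt k x ≤ 16 k x^(1-1/k)`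
(`(k 16^k)^(1/k) = 16 k^(1/k) ≤ 16 k`). By induction `P_i ≥ P^((1-1/k)^i)` and
`P_i ≤ (16k)^i P^((1-1/k)^i)` (`(16k)^(i(1-1/k)) ≤ (16k)^i`; `nxt` is monotone). With Bernoulli
`(1-1/k)^i ≥ 1 - i/k`, and `(1-1/k)^i ≤ 1 - i/k + i²/(2k²)` (induction, or `(1-1/k)^i ≤ exp(-i/k)` and
`exp(-y) ≤ 1 - y + y²/2` for `y ≥ 0`).
So for `i ≤ 4 j0 + 1`, `i ≥ 1`: `P_i ≥ P^(1-i/k) = Q^(N - i + i/k)` (`N i/k = i - i/k`), and
`P_i ≤ (16k)^i Q^(N - N i/k + N i²/(2k²)) ≤ (16k)^i Q^(N - i + 1/2)` since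
`i/k + N i²/(2k²) ≤ (2i + i²)/(2k) ≤ 1/2` (`hst`; `i² + 2i ≤ k`).
* first claim: `P_1 ≤ 16k Q^(N - 1/2)`, `P_i ≤ P_1` (`nxt_le_self`, for large `P`), and
  `Q^(-1/2) → 0`;
* second claim: `Q^(i/k) ≥ 4` and `64 (16k)^i ≤ β Q^(1/2)` for `Q` large (`k - i = N - i + 1`);
* third claim: `P_i ≤ P_(4j0+1) ≤ (16k)^(4j0+1) Q^(N - 4j0 - 1/2)`;
* `1 ≤ P_i` (`nxt_iter_ge_one`), `P_i ≤ P` (`nxt_le_self` for `P` large; the iterates tend to
  infinity, `nxt_iter_tendsto`, so `nxt_le_self` applies to all `P_i`, `i < n`, for `r` large).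
-/

namespace KWar

open Filter Topology MWg

private theorem XX_pos (r : ℕ) : 0 < XX r := by unfold XX; positivity

private theorem XX_one_le (r : ℕ) : 1 ≤ XX r := one_le_pow₀ (by norm_num)

private theorem exp_pos' {k : ℕ} (hk : 2 ≤ k) : (0 : ℝ) < (k : ℝ) - 1 := by
  have h : (2 : ℝ) ≤ (k : ℝ) := by exact_mod_cast hk
  linarith

private theorem QQ_nonneg (k r : ℕ) : 0 ≤ QQ k r := Real.rpow_nonneg (XX_pos r).le _

theorem QQ_pow {k : ℕ} (hk : 2 ≤ k) (r : ℕ) : QQ k r ^ (k - 1) = XX r := by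
  have h1 := exp_pos' hk
  unfold QQ
  rw [← Real.rpow_natCast, ← Real.rpow_mul (XX_pos r).le, Nat.cast_sub (by omega : 1 ≤ k),
    Nat.cast_one, one_div, inv_mul_cancel₀ h1.ne', Real.rpow_one]

theorem QQ_one_le {k : ℕ} (hk : 2 ≤ k) (r : ℕ) : 1 ≤ QQ k r := by
  have h1 := exp_pos' hk
  exact Real.one_le_rpow (XX_one_le r) (by positivity)

theorem QQ_tendsto {k : ℕ} (hk : 2 ≤ k) : Tendsto (QQ k) atTop atTop := by
  have h1 := exp_pos' hk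
  have h2 : Tendsto XX atTop atTop := tendsto_pow_atTop_atTop_of_one_lt (by norm_num)
  exact (tendsto_rpow_atTop (show (0 : ℝ) < 1 / ((k : ℝ) - 1) by positivity)).comp h2

private theorem ChSize_ev {k : ℕ} (hk : 2 ≤ k) {e c : ℝ} (he : 0 < e) (hc : 0 < c) (C : ℝ) :
    ∀ᶠ r : ℕ in atTop, C ≤ c * QQ k r ^ e := by
  have h1 := ((tendsto_rpow_atTop he).comp (QQ_tendsto hk)).const_mul_atTop hc
  exact h1.eventually_ge_atTop C

private theorem ChSize_nxt_ge {k : ℕ} (hk : 2 ≤ k) {x : ℝ} (hx : 1 ≤ x) :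
    x ^ (1 - 1 / (k : ℝ)) ≤ nxt k x := by
  have hk0 : (0 : ℝ) < (k : ℝ) := by
    have : 0 < k := by omega
    exact_mod_cast this
  have h1 : x ^ (1 - 1 / (k : ℝ)) = (x ^ (k - 1)) ^ ((1 : ℝ) / k) := by
    rw [← Real.rpow_natCast x (k - 1), ← Real.rpow_mul (by linarith), Nat.cast_sub (by omega : 1 ≤ k)]
    congr 1
    field_simp
    push_cast
    ring
  rw [h1]
  unfold nxt
  apply Real.rpow_le_rpow (by positivity) _ (by positivity)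
  have h2 := nxt_const_ge_one (n := k) (by omega)
  have h3 : (0 : ℝ) ≤ x ^ (k - 1) := by positivity
  nlinarith

private theorem ChSize_nxt_le {k : ℕ} (hk : 2 ≤ k) {x : ℝ} (hx : 1 ≤ x) :
    nxt k x ≤ 16 * k * x ^ (1 - 1 / (k : ℝ)) := by
  have hk0 : (0 : ℝ) < (k : ℝ) := by
    have : 0 < k := by omega
    exact_mod_cast this
  have hk1 : (1 : ℝ) ≤ (k : ℝ) := by
    have : 1 ≤ k := by omega
    exact_mod_cast this
  have h1 : x ^ (1 - 1 / (k : ℝ)) = (x ^ (k - 1)) ^ ((1 : ℝ) / k) := by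
    rw [← Real.rpow_natCast x (k - 1), ← Real.rpow_mul (by linarith), Nat.cast_sub (by omega : 1 ≤ k)]
    congr 1
    field_simp
    push_cast
    ring
  have h2 : ((k : ℝ) * 16 ^ k * x ^ (k - 1)) ≤ (16 * k) ^ k * x ^ (k - 1) := by
    apply mul_le_mul_of_nonneg_right _ (by positivity)
    rw [mul_pow, mul_comm]
    apply mul_le_mul_of_nonneg_left _ (by positivity)
    calc (k : ℝ) = (k : ℝ) ^ 1 := (pow_one _).symm
      _ ≤ (k : ℝ) ^ k := pow_le_pow_right₀ hk1 (by omega)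
  unfold nxt
  rw [h1]
  refine (Real.rpow_le_rpow (by positivity) h2 (by positivity)).trans (le_of_eq ?_)
  rw [Real.mul_rpow (by positivity) (by positivity)]
  congr 1
  rw [← Real.rpow_natCast (16 * (k : ℝ)) k, ← Real.rpow_mul (by positivity)]
  have : (k : ℝ) * (1 / k) = 1 := by field_simp
  rw [this, Real.rpow_one]

private theorem ChSize_iter {k : ℕ} (hk : 2 ≤ k) {P : ℝ} (hP : 1 ≤ P) (i : ℕ) :
    P ^ ((1 - 1 / (k : ℝ)) ^ i) ≤ (nxt k)^[i] P ∧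
      (nxt k)^[i] P ≤ (16 * k) ^ i * P ^ ((1 - 1 / (k : ℝ)) ^ i) := by
  have hk2 : (2 : ℝ) ≤ (k : ℝ) := by exact_mod_cast hk
  have hr0 : 0 ≤ 1 - 1 / (k : ℝ) := by
    have : 1 / (k : ℝ) ≤ 1 := by
      rw [div_le_one (by linarith)]
      linarith
    linarith
  have hr1 : 1 - 1 / (k : ℝ) ≤ 1 := by
    have : 0 ≤ 1 / (k : ℝ) := by positivity
    linarith
  have hP0 : 0 ≤ P := by linarith
  induction i with
  | zero => simp
  | succ i ih =>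
    obtain ⟨h1, h2⟩ := ih
    have hx : 1 ≤ (nxt k)^[i] P := nxt_iter_ge_one (by omega) i hP
    rw [Function.iterate_succ_apply']
    constructor
    · refine le_trans ?_ (ChSize_nxt_ge hk hx)
      rw [pow_succ, Real.rpow_mul hP0]
      exact Real.rpow_le_rpow (by positivity) h1 hr0
    · refine (ChSize_nxt_le hk hx).trans ?_
      have h3 : ((nxt k)^[i] P) ^ (1 - 1 / (k : ℝ)) ≤
          ((16 * k) ^ i * P ^ ((1 - 1 / (k : ℝ)) ^ i)) ^ (1 - 1 / (k : ℝ)) :=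
        Real.rpow_le_rpow (by linarith) h2 hr0
      have h4 : ((16 * (k : ℝ)) ^ i * P ^ ((1 - 1 / (k : ℝ)) ^ i)) ^ (1 - 1 / (k : ℝ)) ≤
          (16 * k) ^ i * P ^ ((1 - 1 / (k : ℝ)) ^ (i + 1)) := by
        rw [Real.mul_rpow (by positivity) (by positivity), ← Real.rpow_mul hP0, ← pow_succ]
        apply mul_le_mul_of_nonneg_right _ (by positivity)
        have h5 : (1 : ℝ) ≤ (16 * (k : ℝ)) ^ i := one_le_pow₀ (by linarith)
        calc ((16 * (k : ℝ)) ^ i) ^ (1 - 1 / (k : ℝ)) ≤ ((16 * (k : ℝ)) ^ i) ^ (1 : ℝ) :=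
              Real.rpow_le_rpow_of_exponent_le h5 hr1
          _ = (16 * (k : ℝ)) ^ i := Real.rpow_one _
      calc 16 * (k : ℝ) * ((nxt k)^[i] P) ^ (1 - 1 / (k : ℝ))
          ≤ 16 * (k : ℝ) * ((16 * k) ^ i * P ^ ((1 - 1 / (k : ℝ)) ^ (i + 1))) :=
            mul_le_mul_of_nonneg_left (h3.trans h4) (by positivity)
        _ = (16 * k) ^ (i + 1) * P ^ ((1 - 1 / (k : ℝ)) ^ (i + 1)) := by ring

private theorem ChSize_rho {k : ℕ} (hk : 2 ≤ k) (i : ℕ) :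
    1 - i / (k : ℝ) ≤ (1 - 1 / (k : ℝ)) ^ i ∧
      (1 - 1 / (k : ℝ)) ^ i ≤ 1 - i / (k : ℝ) + (i : ℝ) ^ 2 / (2 * (k : ℝ) ^ 2) := by
  have hk2 : (2 : ℝ) ≤ (k : ℝ) := by exact_mod_cast hk
  have hu0 : 0 < 1 / (k : ℝ) := by positivity
  have hu1 : 1 / (k : ℝ) ≤ 1 := by
    rw [div_le_one (by linarith)]
    linarith
  obtain ⟨u, hu⟩ : ∃ u, u = 1 / (k : ℝ) := ⟨_, rfl⟩
  have e1 : ∀ x : ℝ, x / (k : ℝ) = x * u := fun x => by rw [hu]; ring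
  have e2 : ∀ x : ℝ, x / (2 * (k : ℝ) ^ 2) = x * u ^ 2 / 2 := fun x => by rw [hu]; field_simp
  rw [← hu] at hu0 hu1
  rw [e1, e1, e2, one_mul]
  constructor
  · have h1 := one_add_mul_le_pow (a := -u) (by linarith) i
    have e3 : 1 + (i : ℝ) * -u = 1 - i * u := by ring
    have e4 : 1 + -u = 1 - u := by ring
    rw [e3, e4] at h1
    exact h1
  · induction i with
    | zero => simp
    | succ i ih =>
      rw [pow_succ]
      have h1 : (1 - u) ^ i * (1 - u) ≤ (1 - i * u + (i : ℝ) ^ 2 * u ^ 2 / 2) * (1 - u) :=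
        mul_le_mul_of_nonneg_right ih (by linarith)
      refine h1.trans ?_
      push_cast
      have h2 : 0 ≤ (i : ℝ) ^ 2 * u ^ 2 * u := by positivity
      nlinarith [sq_nonneg u]

theorem ch_size {k : ℕ} (hk : 5 ≤ k) (j0 n : ℕ) (hst : (4 * j0 + 1) ^ 2 + 2 * (4 * j0 + 1) ≤ k)
    {δ β : ℝ} (hδ : 0 < δ) (hβ : 0 < β) :
    ∀ᶠ r : ℕ in atTop, ∀ i : ℕ, i < n →
      (1 ≤ (nxt k)^[i] (XX r) ∧ (nxt k)^[i] (XX r) ≤ XX r) ∧
      (1 ≤ i → 16 * (nxt k)^[i] (XX r) ≤ δ * QQ k r ^ (k - 1)) ∧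
      (1 ≤ i → i ≤ 4 * j0 → 4 * QQ k r ^ (k - 1 - i) ≤ (nxt k)^[i] (XX r) ∧
        64 * (nxt k)^[i] (XX r) ≤ β * QQ k r ^ (k - i)) ∧
      (4 * j0 + 1 ≤ i → 16 * (nxt k)^[i] (XX r) ≤ QQ k r ^ (k - 1 - 4 * j0)) := by
  have hk2 : 2 ≤ k := by omega
  have hkR : (5 : ℝ) ≤ (k : ℝ) := by exact_mod_cast hk
  have hk0 : (0 : ℝ) < (k : ℝ) := by linarith
  obtain ⟨ρ, hρ⟩ : ∃ ρ, ρ = 1 - 1 / (k : ℝ) := ⟨_, rfl⟩
  have hρ0 : 0 ≤ ρ := by
    have : 1 / (k : ℝ) ≤ 1 := by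
      rw [div_le_one (by linarith)]
      linarith
    rw [hρ]
    linarith
  have hρ1 : ρ ≤ 1 := by
    have : 0 ≤ 1 / (k : ℝ) := by positivity
    rw [hρ]
    linarith
  filter_upwards [ChSize_ev hk2 (e := 1 / (k : ℝ)) (c := 1) (by positivity) one_pos 4,
    ChSize_ev hk2 (e := 1 / 2) (by norm_num) hδ (16 * (16 * (k : ℝ)) ^ n),
    ChSize_ev hk2 (e := 1 / 2) (by norm_num) hβ (64 * (16 * (k : ℝ)) ^ (4 * j0 + 1)),
    ChSize_ev hk2 (e := 1 / 2) (by norm_num) one_pos (16 * (16 * (k : ℝ)) ^ n)] with r E1 E2 E3 E4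
  intro i hi
  have hQ1 := QQ_one_le hk2 r
  obtain ⟨Q, hQ⟩ : ∃ Q, Q = QQ k r := ⟨_, rfl⟩
  have hPQ : XX r = Q ^ ((k : ℝ) - 1) := by
    rw [← QQ_pow hk2 r, ← hQ, ← Real.rpow_natCast, Nat.cast_sub (by omega : 1 ≤ k), Nat.cast_one]
  rw [← hQ] at E1 E2 E3 E4 hQ1 ⊢
  rw [one_mul] at E1 E4
  have hQ0 : 0 < Q := by linarith
  have hX1 : 1 ≤ (nxt k)^[i] (XX r) := nxt_iter_ge_one (by omega) i (XX_one_le r)
  obtain ⟨h1, h2⟩ := ChSize_iter hk2 (XX_one_le r) i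
  obtain ⟨g1, g2⟩ := ChSize_rho hk2 i
  obtain ⟨x, hx⟩ : ∃ x, x = (nxt k)^[i] (XX r) := ⟨_, rfl⟩
  rw [← hx] at h1 h2 hX1 ⊢
  rw [← hρ] at h1 h2 g1 g2
  rw [hPQ, ← Real.rpow_mul hQ0.le] at h1 h2
  have hN0 : 0 ≤ (k : ℝ) - 1 := by linarith
  -- natural powers
  have hnat : ∀ (a : ℕ) (b : ℝ), (a : ℝ) = b → Q ^ a = Q ^ b := by
    intro a b hab
    rw [← hab, Real.rpow_natCast]
  have hKn : (16 * (k : ℝ)) ^ i ≤ (16 * (k : ℝ)) ^ n :=
    pow_le_pow_right₀ (by linarith) hi.le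
  -- generic upper bound
  have up : ∀ e : ℝ, ((k : ℝ) - 1) * ρ ^ i ≤ e - 1 / 2 → x * Q ^ ((1 : ℝ) / 2) ≤
      (16 * (k : ℝ)) ^ i * Q ^ e := by
    intro e he
    have h3 : Q ^ (((k : ℝ) - 1) * ρ ^ i) ≤ Q ^ (e - 1 / 2) :=
      Real.rpow_le_rpow_of_exponent_le hQ1 he
    have h4 : x ≤ (16 * (k : ℝ)) ^ i * Q ^ (e - 1 / 2) :=
      h2.trans (mul_le_mul_of_nonneg_left h3 (by positivity))
    calc x * Q ^ ((1 : ℝ) / 2) ≤ (16 * (k : ℝ)) ^ i * Q ^ (e - 1 / 2) * Q ^ ((1 : ℝ) / 2) :=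
          mul_le_mul_of_nonneg_right h4 (by positivity)
      _ = (16 * (k : ℝ)) ^ i * Q ^ e := by
          rw [mul_assoc, ← Real.rpow_add hQ0]
          congr 2
          ring
  have hhalf : 0 < Q ^ ((1 : ℝ) / 2) := by positivity
  -- from the generic bound to the claims
  have fin : ∀ (e A c : ℝ), 0 < A → A * (16 * (k : ℝ)) ^ i ≤ c * Q ^ ((1 : ℝ) / 2) →
      ((k : ℝ) - 1) * ρ ^ i ≤ e - 1 / 2 → A * x ≤ c * Q ^ e := by
    intro e A c hA hc he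
    have h3 := up e he
    have h4 : A * x * Q ^ ((1 : ℝ) / 2) ≤ c * Q ^ e * Q ^ ((1 : ℝ) / 2) := by
      calc A * x * Q ^ ((1 : ℝ) / 2) = A * (x * Q ^ ((1 : ℝ) / 2)) := by ring
        _ ≤ A * ((16 * (k : ℝ)) ^ i * Q ^ e) := mul_le_mul_of_nonneg_left h3 hA.le
        _ = (A * (16 * (k : ℝ)) ^ i) * Q ^ e := by ring
        _ ≤ (c * Q ^ ((1 : ℝ) / 2)) * Q ^ e := mul_le_mul_of_nonneg_right hc (by positivity)
        _ = c * Q ^ e * Q ^ ((1 : ℝ) / 2) := by ring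
    exact le_of_mul_le_mul_right h4 hhalf
  -- exponents
  have e1 : 1 ≤ i → ((k : ℝ) - 1) * ρ ^ i ≤ ((k : ℝ) - 1) - 1 / 2 := by
    intro hi1
    have h3 : ρ ^ i ≤ ρ ^ 1 := pow_le_pow_of_le_one hρ0 hρ1 hi1
    rw [pow_one] at h3
    have h4 : ((k : ℝ) - 1) * ρ ^ i ≤ ((k : ℝ) - 1) * ρ := mul_le_mul_of_nonneg_left h3 hN0
    refine h4.trans ?_
    have h5 : ((k : ℝ) - 1) * ρ = (k : ℝ) - 2 + 1 / k := by
      rw [hρ]
      field_simp
      ring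
    have h6 : 1 / (k : ℝ) ≤ 1 / 2 := by
      apply one_div_le_one_div_of_le (by norm_num)
      linarith
    linarith
  have ex : ∀ m : ℕ, m ≤ 4 * j0 + 1 → ((k : ℝ) - 1) * ρ ^ m ≤ (k : ℝ) - 1 - m + 1 / 2 := by
    intro m hm
    have g3 := (ChSize_rho hk2 m).2
    rw [← hρ] at g3
    have g4 : ((k : ℝ) - 1) * ρ ^ m ≤
        ((k : ℝ) - 1) * (1 - m / (k : ℝ) + (m : ℝ) ^ 2 / (2 * (k : ℝ) ^ 2)) :=
      mul_le_mul_of_nonneg_left g3 hN0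
    refine g4.trans ?_
    have g5 : ((m : ℝ) ^ 2 + 2 * m) ≤ (k : ℝ) := by
      have : m ^ 2 + 2 * m ≤ k := by nlinarith
      exact_mod_cast this
    have g6 : ((k : ℝ) - 1) * (1 - m / (k : ℝ) + (m : ℝ) ^ 2 / (2 * (k : ℝ) ^ 2)) =
        (k : ℝ) - 1 - m + (2 * m + (m : ℝ) ^ 2) / (2 * k) - (m : ℝ) ^ 2 / (2 * (k : ℝ) ^ 2) := by
      field_simp
      ring
    have g7 : (2 * m + (m : ℝ) ^ 2) / (2 * k) ≤ 1 / 2 := by
      rw [div_le_div_iff₀ (by positivity) (by norm_num)]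
      linarith
    have g8 : 0 ≤ (m : ℝ) ^ 2 / (2 * (k : ℝ) ^ 2) := by positivity
    rw [g6]
    linarith
  refine ⟨⟨hX1, ?_⟩, ?_, ?_, ?_⟩
  · rcases Nat.eq_zero_or_pos i with h0 | h0
    · subst h0
      rw [hx]
      exact le_rfl
    · rw [hPQ]
      have h3 : 16 * (16 * (k : ℝ)) ^ i ≤ 1 * Q ^ ((1 : ℝ) / 2) := by
        rw [one_mul]
        exact le_trans (by linarith) E4
      have h4 := fin ((k : ℝ) - 1) 16 1 (by norm_num) h3 (e1 h0)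
      linarith
  · intro hi1
    rw [hnat (k - 1) ((k : ℝ) - 1) (by rw [Nat.cast_sub (by omega : 1 ≤ k), Nat.cast_one])]
    exact fin _ 16 δ (by norm_num) (le_trans (by linarith) E2) (e1 hi1)
  · intro hi1 hi2
    have hik : i + 1 ≤ k := by nlinarith
    constructor
    · rw [hnat (k - 1 - i) ((k : ℝ) - 1 - i) (by
        rw [Nat.cast_sub (by omega), Nat.cast_sub (by omega), Nat.cast_one])]
      have h3 : ((k : ℝ) - 1) - i + 1 / k ≤ ((k : ℝ) - 1) * ρ ^ i := by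
        have h4 : ((k : ℝ) - 1) * (1 - i / (k : ℝ)) ≤ ((k : ℝ) - 1) * ρ ^ i :=
          mul_le_mul_of_nonneg_left g1 hN0
        refine le_trans ?_ h4
        have h5 : ((k : ℝ) - 1) * (1 - i / (k : ℝ)) = (k : ℝ) - 1 - i + i / k := by
          field_simp
          ring
        rw [h5]
        have h6 : (1 : ℝ) / k ≤ i / k := by
          apply div_le_div_of_nonneg_right _ hk0.le
          exact_mod_cast hi1
        linarith
      have h7 : Q ^ (((k : ℝ) - 1) - i + 1 / k) ≤ Q ^ (((k : ℝ) - 1) * ρ ^ i) :=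
        Real.rpow_le_rpow_of_exponent_le hQ1 h3
      rw [Real.rpow_add hQ0] at h7
      calc 4 * Q ^ ((k : ℝ) - 1 - i) ≤ Q ^ ((1 : ℝ) / k) * Q ^ ((k : ℝ) - 1 - i) :=
            mul_le_mul_of_nonneg_right E1 (by positivity)
        _ = Q ^ ((k : ℝ) - 1 - i) * Q ^ ((1 : ℝ) / k) := by ring
        _ ≤ x := h7.trans h1
    · rw [hnat (k - i) ((k : ℝ) - i) (by rw [Nat.cast_sub (by omega)])]
      refine fin _ 64 β (by norm_num) (le_trans ?_ E3) ?_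
      · apply mul_le_mul_of_nonneg_left _ (by norm_num)
        exact pow_le_pow_right₀ (by linarith) (by omega)
      · have := ex i (by omega)
        linarith
  · intro hi1
    have hjk : 4 * j0 + 2 ≤ k := by nlinarith
    rw [hnat (k - 1 - 4 * j0) ((k : ℝ) - 1 - 4 * j0) (by
      rw [Nat.cast_sub (by omega), Nat.cast_sub (by omega), Nat.cast_one]
      push_cast
      ring)]
    have h3 : 16 * (16 * (k : ℝ)) ^ i ≤ 1 * Q ^ ((1 : ℝ) / 2) := by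
      rw [one_mul]
      exact le_trans (by linarith) E4
    have h4 : ((k : ℝ) - 1) * ρ ^ i ≤ ((k : ℝ) - 1 - 4 * j0) - 1 / 2 := by
      have h5 : ρ ^ i ≤ ρ ^ (4 * j0 + 1) := pow_le_pow_of_le_one hρ0 hρ1 hi1
      have h6 : ((k : ℝ) - 1) * ρ ^ i ≤ ((k : ℝ) - 1) * ρ ^ (4 * j0 + 1) :=
        mul_le_mul_of_nonneg_left h5 hN0
      have h7 := ex (4 * j0 + 1) le_rfl
      push_cast at h7
      linarith
    have h5 := fin ((k : ℝ) - 1 - 4 * j0) 16 1 (by norm_num) h3 h4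
    linarith

end KWar
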