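import Pool.Agent.KWar.TestPoly

/-!
# KWar.WBd: the differences `τ l - τ' l` are small once the large letters are equal

`a l γ` the chain letters of the family `l`, `b l p`, `b' l p` its bulk letters, `p = (level, index)`;
the letters of the levels `< j` agree. `W l = τ l - τ' l`, `n1 = q M + q #Γ0`.

PROOF. Let `l` be such that `|W l|` is maximal (`Finset.exists_max_image` over `univ`; if the index
type is empty there is nothing to show). Apply `test_target` with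
`ι = (Fin q × Γ) ⊕ ((Fin q × (Fin J × Fin M)) ⊕ (Fin q × (Fin J × Fin M)))`, `s = univ`, weights
* `inl (l', γ) ↦ W l'`, at `a l' γ`;
* `inr (inl (l', p)) ↦ if p.1 < j then W l' else τ l'`, at `b l' p`;
* `inr (inr (l', p)) ↦ if p.1 < j then 0 else - τ' l'`, at `b' l' p`
(by `hbb` the relation `hrel` is the relation for these weights: for `p.1 < j`
`τ b^m - τ' b'^m = W b^m`). Target `t = inr (inl (l, (0, 0)))` (`0 < j`), zeros
`K = {(l', γ) : γ ∈ Γ0} ∪ {(l', (0, i')) : (l', i') ≠ (l, 0)}` (for example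
`κ = (Fin q × Γ) ⊕ (Fin q × Fin M)`, `K = (univ ×ˢ Γ0).disjSum (univ.erase (l, 0))`),
`#K = n1 - 1`, so `m + #K ≤ N` by `hcard`. Every zero `z` satisfies `z ≥ β0 P ≥ 1` and
`|x_t - z| ≥ z/4`. Write `Π = ∏ z_j > 0`.
* left side `≥ |W l| (β0 P)^m 4^(-n1) Π`;
* `E ∏ (1 + z_j) ≤ E 2^n1 Π`;
* an atom which is not the target and not a zero: either `a l' γ`, `γ ∉ Γ0`, or a bulk letter of a
  level `1 ≤ p.1 < j`: it is `≤ δ P ≤ β0 P ≤ z_j`, so
  `|x^m ∏ (x - z_j)| ≤ (δ P)^m 2^n1 Π` (`|x - z_j| ≤ x + z_j ≤ 2 z_j`), weights `|W l'| ≤ |W l|`, at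
  most `q (#Γ + J M)` such atoms (the weight `0` atoms do not count); or a letter of a level `≥ j`:
  it is `≤ ζ ≤ β0 P`, so the value is `≤ ζ^m 2^n1 Π`, weight `≤ D'`, at most `2 q J M` of them.
  Atoms equal to a zero contribute `0` (level `0`, other than the target; `γ ∈ Γ0`).
Divide by `Π P^m`:
`|W l| (β0^m 4^(-n1) - 2^n1 q (#Γ + J M) δ^m) ≤ 2^n1 (E/P^m + 2 q J M D' (ζ/P)^m)`, and by `hsmall`
the bracket is `≥ β0^m 4^(-n1)/2`. (`2 · 4^n1 · 2^n1 = 2 · 8^n1`.)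
-/

namespace KWar

open Finset

private lemma WBd_val {κ : Type*} (K : Finset κ) (z : κ → ℝ) {c y Y : ℝ} {m n : ℕ}
    (hn : K.card ≤ n) (hc : 0 < c) (hz : ∀ j ∈ K, c ≤ z j) (hy : 0 ≤ y) (hyY : y ≤ Y)
    (hYc : Y ≤ c) :
    |y ^ m * ∏ j ∈ K, (y - z j)| ≤ Y ^ m * (2 ^ n * ∏ j ∈ K, z j) := by
  have hP : 0 ≤ ∏ j ∈ K, z j := Finset.prod_nonneg fun j hj => hc.le.trans (hz j hj)
  rw [abs_mul, abs_of_nonneg (pow_nonneg hy m), Finset.abs_prod]
  have h1 : ∏ j ∈ K, |y - z j| ≤ ∏ j ∈ K, (2 * z j) := by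
    refine Finset.prod_le_prod (fun j _ => abs_nonneg _) fun j hj => ?_
    have := hz j hj
    rw [abs_le]
    constructor <;> linarith
  have h2 : ∏ j ∈ K, (2 * z j) = 2 ^ K.card * ∏ j ∈ K, z j := by
    rw [Finset.prod_mul_distrib, Finset.prod_const]
  have h3 : (2 : ℝ) ^ K.card ≤ 2 ^ n := pow_le_pow_right₀ (by norm_num) hn
  refine mul_le_mul (pow_le_pow_left₀ hy hyY m) (h1.trans ?_)
    (Finset.prod_nonneg fun j _ => abs_nonneg _) (pow_nonneg (hy.trans hyY) m)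
  rw [h2]
  exact mul_le_mul_of_nonneg_right h3 hP

private lemma WBd_one {κ : Type*} (K : Finset κ) (z : κ → ℝ) {n : ℕ}
    (hn : K.card ≤ n) (hz : ∀ j ∈ K, 1 ≤ z j) :
    ∏ j ∈ K, (1 + |z j|) ≤ 2 ^ n * ∏ j ∈ K, z j := by
  have hP : 0 ≤ ∏ j ∈ K, z j := Finset.prod_nonneg fun j hj => zero_le_one.trans (hz j hj)
  have h1 : ∏ j ∈ K, (1 + |z j|) ≤ ∏ j ∈ K, (2 * z j) := by
    refine Finset.prod_le_prod (fun j _ => by positivity) fun j hj => ?_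
    have := hz j hj
    rw [abs_of_nonneg (by linarith)]
    linarith
  have h2 : ∏ j ∈ K, (2 * z j) = 2 ^ K.card * ∏ j ∈ K, z j := by
    rw [Finset.prod_mul_distrib, Finset.prod_const]
  have h3 : (2 : ℝ) ^ K.card ≤ 2 ^ n := pow_le_pow_right₀ (by norm_num) hn
  refine h1.trans ?_
  rw [h2]
  exact mul_le_mul_of_nonneg_right h3 hP

private lemma WBd_low {κ : Type*} (K : Finset κ) (z : κ → ℝ) {c y : ℝ} {m n : ℕ}
    (hn : K.card ≤ n) (hc : 0 < c) (hz : ∀ j ∈ K, c ≤ z j) (hy : c ≤ y)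
    (hsep : ∀ j ∈ K, z j / 4 ≤ |y - z j|) :
    c ^ m * ((∏ j ∈ K, z j) / 4 ^ n) ≤ |y ^ m * ∏ j ∈ K, (y - z j)| := by
  have hP : 0 ≤ ∏ j ∈ K, z j := Finset.prod_nonneg fun j hj => hc.le.trans (hz j hj)
  rw [abs_mul, abs_of_nonneg (pow_nonneg (hc.le.trans hy) m), Finset.abs_prod]
  have h1 : ∏ j ∈ K, (z j / 4) ≤ ∏ j ∈ K, |y - z j| := by
    refine Finset.prod_le_prod (fun j hj => ?_) fun j hj => hsep j hj
    have := hz j hj
    linarith
  have h2 : ∏ j ∈ K, (z j / 4) = (∏ j ∈ K, z j) / 4 ^ K.card := by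
    rw [Finset.prod_div_distrib, Finset.prod_const]
  have h3 : (4 : ℝ) ^ K.card ≤ 4 ^ n := pow_le_pow_right₀ (by norm_num) hn
  refine mul_le_mul (pow_le_pow_left₀ hc.le hy m) (le_trans ?_ h1) (by positivity)
    (pow_nonneg (hc.le.trans hy) m)
  rw [h2]
  exact div_le_div_of_nonneg_left hP (by positivity) h3

theorem wbd {Γ : Type} [Fintype Γ] [DecidableEq Γ] {q J M : ℕ} (Γ0 : Finset Γ)
    {m N j : ℕ} {E D' P ζ δ β0 : ℝ} (a : Fin q → Γ → ℕ) (b b' : Fin q → Fin J × Fin M → ℕ)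
    (τ τ' : Fin q → ℝ) (hE : 0 ≤ E) (hD' : 0 ≤ D') (hP : 0 < P) (hβ0 : 0 < β0) (hβP : 1 ≤ β0 * P)
    (hrel : ∀ m', m ≤ m' → m' ≤ N → |∑ l, ((τ l - τ' l) * (∑ γ, (a l γ : ℝ) ^ m') +
      (τ l * (∑ p, (b l p : ℝ) ^ m') - τ' l * (∑ p, (b' l p : ℝ) ^ m')))| ≤ E)
    (hcard : m + (q * M + q * Γ0.card) ≤ N + 1)
    (hj : 1 ≤ j) (hJ : 1 ≤ J) (hM : 1 ≤ M)
    (hbb : ∀ l p, (p.1 : ℕ) < j → b l p = b' l p)
    (hb0 : ∀ l p, (p.1 : ℕ) = 0 → β0 * P ≤ (b l p : ℝ))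
    (ha0 : ∀ l, ∀ γ ∈ Γ0, β0 * P ≤ (a l γ : ℝ))
    (hsb : ∀ l p l' p', (p.1 : ℕ) = 0 → (p'.1 : ℕ) = 0 → (l, p) ≠ (l', p') →
      (b l' p' : ℝ) / 4 ≤ |(b l p : ℝ) - (b l' p' : ℝ)|)
    (hsa : ∀ l p l', (p.1 : ℕ) = 0 → ∀ γ ∈ Γ0, (a l' γ : ℝ) / 4 ≤ |(b l p : ℝ) - (a l' γ : ℝ)|)
    (hδ0 : 0 ≤ δ) (hδβ : δ ≤ β0) (hζ0 : 0 ≤ ζ) (hζβ : ζ ≤ β0 * P)
    (haδ : ∀ l γ, γ ∉ Γ0 → (a l γ : ℝ) ≤ δ * P)
    (hbδ : ∀ l p, 1 ≤ (p.1 : ℕ) → (p.1 : ℕ) < j → (b l p : ℝ) ≤ δ * P)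
    (hbζ : ∀ l p, j ≤ (p.1 : ℕ) → (b l p : ℝ) ≤ ζ ∧ (b' l p : ℝ) ≤ ζ)
    (hτ : ∀ l, |τ l| ≤ D' ∧ |τ' l| ≤ D')
    (hsmall : 2 * 8 ^ (q * M + q * Γ0.card) * ((q * (Fintype.card Γ + J * M) : ℕ) : ℝ) * δ ^ m ≤
      β0 ^ m) :
    ∀ l, |τ l - τ' l| ≤ 2 * 8 ^ (q * M + q * Γ0.card) / β0 ^ m *
      (E / P ^ m + ((2 * q * J * M : ℕ) : ℝ) * D' * (ζ / P) ^ m) := by
  classical
  intro l0
  obtain ⟨l, -, hl⟩ := Finset.exists_max_image (Finset.univ : Finset (Fin q))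
    (fun l => |τ l - τ' l|) ⟨l0, Finset.mem_univ _⟩
  refine (hl l0 (Finset.mem_univ _)).trans ?_
  have hq : 0 < q := lt_of_le_of_lt (Nat.zero_le _) l.2
  set w : ℝ := |τ l - τ' l| with hw
  have hw0 : 0 ≤ w := abs_nonneg _
  set n1 : ℕ := q * M + q * Γ0.card with hn1
  let p0 : Fin J × Fin M := (⟨0, hJ⟩, ⟨0, hM⟩)
  have hc : 0 < β0 * P := mul_pos hβ0 hP
  -- atoms, weights, zeros
  let x : (Fin q × Γ) ⊕ ((Fin q × (Fin J × Fin M)) ⊕ (Fin q × (Fin J × Fin M))) → ℝ :=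
    Sum.elim (fun c => (a c.1 c.2 : ℝ)) (Sum.elim (fun c => (b c.1 c.2 : ℝ))
      (fun c => (b' c.1 c.2 : ℝ)))
  let ω : (Fin q × Γ) ⊕ ((Fin q × (Fin J × Fin M)) ⊕ (Fin q × (Fin J × Fin M))) → ℝ :=
    Sum.elim (fun c => τ c.1 - τ' c.1)
      (Sum.elim (fun c => if (c.2.1 : ℕ) < j then τ c.1 - τ' c.1 else τ c.1)
        (fun c => if (c.2.1 : ℕ) < j then 0 else - τ' c.1))
  let z : (Fin q × Γ) ⊕ (Fin q × Fin M) → ℝ :=
    Sum.elim (fun c => (a c.1 c.2 : ℝ)) (fun c => (b c.1 (⟨0, hJ⟩, c.2) : ℝ))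
  let K : Finset ((Fin q × Γ) ⊕ (Fin q × Fin M)) :=
    ((Finset.univ : Finset (Fin q)) ×ˢ Γ0).disjSum
      ((Finset.univ : Finset (Fin q × Fin M)).erase (l, ⟨0, hM⟩))
  let t : (Fin q × Γ) ⊕ ((Fin q × (Fin J × Fin M)) ⊕ (Fin q × (Fin J × Fin M))) :=
    Sum.inr (Sum.inl (l, p0))
  have hKc : K.card + 1 = n1 := by
    rw [Finset.card_disjSum, Finset.card_product, Finset.card_erase_of_mem (Finset.mem_univ _),
      Finset.card_univ, Finset.card_univ, Fintype.card_prod, Fintype.card_fin, Fintype.card_fin, hn1]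
    have : 1 ≤ q * M := Nat.mul_pos hq hM
    omega
  have hKn : K.card ≤ n1 := by omega
  have hz : ∀ i ∈ K, β0 * P ≤ z i := by
    rintro (⟨l', γ⟩ | ⟨l', i'⟩) hi
    · rw [Finset.inl_mem_disjSum] at hi
      exact ha0 l' γ (Finset.mem_product.1 hi).2
    · exact hb0 l' _ rfl
  have hrel' : ∀ m', m ≤ m' → m' ≤ N → |∑ i ∈ Finset.univ, ω i * x i ^ m'| ≤ E := by
    intro m' h1 h2
    refine le_of_eq_of_le (congrArg _ ?_) (hrel m' h1 h2)
    rw [Fintype.sum_sum_type, Fintype.sum_sum_type, Fintype.sum_prod_type, Fintype.sum_prod_type,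
      Fintype.sum_prod_type, ← Finset.sum_add_distrib, ← Finset.sum_add_distrib]
    refine Finset.sum_congr rfl fun l' _ => ?_
    congr 1
    · rw [Finset.mul_sum]
      rfl
    · rw [Finset.mul_sum, Finset.mul_sum, ← Finset.sum_add_distrib, ← Finset.sum_sub_distrib]
      refine Finset.sum_congr rfl fun p _ => ?_
      simp only [ω, x, Sum.elim_inr, Sum.elim_inl]
      by_cases hp : (p.1 : ℕ) < j
      · rw [if_pos hp, if_pos hp, ← hbb l' p hp]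
        ring
      · rw [if_neg hp, if_neg hp]
        ring
  have key := test_target Finset.univ ω x z K (by omega) hrel' (Finset.mem_univ t)
  have hωt : ω t = τ l - τ' l := by
    simp only [ω, t, Sum.elim_inr, Sum.elim_inl, p0]
    rw [if_pos (by exact hj)]
  have hxt : x t = (b l p0 : ℝ) := rfl
  rw [hωt, ← hw] at key
  set Q : ℝ := ∏ i ∈ K, z i with hQ
  have hQ0 : 0 < Q := Finset.prod_pos fun i hi => hc.trans_le (hz i hi)
  -- left side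
  have hL : (β0 * P) ^ m * (Q / 4 ^ n1) ≤ |x t ^ m * ∏ i ∈ K, (x t - z i)| := by
    refine WBd_low K z hKn hc hz (hb0 l p0 rfl) ?_
    rintro (⟨l', γ⟩ | ⟨l', i'⟩) hi
    · rw [Finset.inl_mem_disjSum] at hi
      exact hsa l p0 l' rfl γ (Finset.mem_product.1 hi).2
    · rw [Finset.inr_mem_disjSum, Finset.mem_erase] at hi
      refine hsb l p0 l' (⟨0, hJ⟩, i') rfl rfl fun h => hi.1 ?_
      rw [Prod.mk.injEq] at h
      rw [h.1.symm, (Prod.mk.inj h.2).2.symm]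
  have hR := WBd_one K z hKn (fun i hi => hβP.trans (hz i hi))
  -- the other atoms
  set A : ℝ := w * ((δ * P) ^ m * (2 ^ n1 * Q)) with hA
  set B : ℝ := D' * (ζ ^ m * (2 ^ n1 * Q)) with hB
  have hA0 : 0 ≤ A := by positivity
  have hB0 : 0 ≤ B := by positivity
  have hδP : 0 ≤ δ * P := by positivity
  have hδc : δ * P ≤ β0 * P := mul_le_mul_of_nonneg_right hδβ hP.le
  have hzero : ∀ (u : ℝ) (y : ℝ), (∃ i ∈ K, y = z i) → |u| * |y ^ m * ∏ i ∈ K, (y - z i)| = 0 := by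
    rintro u y ⟨i, hi, rfl⟩
    rw [Finset.prod_eq_zero hi (sub_self _), mul_zero, abs_zero, mul_zero]
  let G : (Fin q × Γ) ⊕ ((Fin q × (Fin J × Fin M)) ⊕ (Fin q × (Fin J × Fin M))) → ℝ :=
    Sum.elim (fun _ => A) (Sum.elim (fun _ => A + B) (fun _ => B))
  have hG0 : ∀ i, 0 ≤ G i := by
    rintro (c | c | c)
    · exact hA0
    · exact add_nonneg hA0 hB0
    · exact hB0
  have hG : ∀ i ∈ Finset.univ.erase t, |ω i| * |x i ^ m * ∏ k ∈ K, (x i - z k)| ≤ G i := by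
    rintro (⟨l', γ⟩ | ⟨l', p⟩ | ⟨l', p⟩) hi
    · by_cases hγ : γ ∈ Γ0
      · rw [hzero (ω (Sum.inl (l', γ))) (x (Sum.inl (l', γ))) ⟨Sum.inl (l', γ), by
          rw [Finset.inl_mem_disjSum]; exact Finset.mk_mem_product (Finset.mem_univ _) hγ, rfl⟩]
        exact hA0
      · exact mul_le_mul (hl l' (Finset.mem_univ _))
          (WBd_val K z hKn hc hz (Nat.cast_nonneg _) (haδ l' γ hγ) hδc) (abs_nonneg _) hw0
    · by_cases hp0 : (p.1 : ℕ) = 0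
      · have hp1 : p = (⟨0, hJ⟩, p.2) := Prod.ext (Fin.ext hp0) rfl
        rw [hzero (ω (Sum.inr (Sum.inl (l', p)))) (x (Sum.inr (Sum.inl (l', p)))) ⟨Sum.inr (l', p.2), by
          rw [Finset.inr_mem_disjSum, Finset.mem_erase]
          refine ⟨fun h => (Finset.mem_erase.1 hi).1 ?_, Finset.mem_univ _⟩
          rw [Prod.mk.injEq] at h
          rw [hp1, h.1, h.2], by
          change (b l' p : ℝ) = (b l' (⟨0, hJ⟩, p.2) : ℝ)
          rw [← hp1]⟩]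
        exact add_nonneg hA0 hB0
      · by_cases hpj : (p.1 : ℕ) < j
        · have e : ω (Sum.inr (Sum.inl (l', p))) = τ l' - τ' l' := by
            simp only [ω, Sum.elim_inr, Sum.elim_inl]
            rw [if_pos hpj]
          rw [e]
          refine (mul_le_mul (hl l' (Finset.mem_univ _))
            (WBd_val K z hKn hc hz (Nat.cast_nonneg _) (hbδ l' p (by omega) hpj) hδc)
            (abs_nonneg _) hw0).trans ?_
          exact le_add_of_nonneg_right hB0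
        · have e : ω (Sum.inr (Sum.inl (l', p))) = τ l' := by
            simp only [ω, Sum.elim_inr, Sum.elim_inl]
            rw [if_neg hpj]
          rw [e]
          refine (mul_le_mul (hτ l').1
            (WBd_val K z hKn hc hz (Nat.cast_nonneg _) (hbζ l' p (by omega)).1 hζβ)
            (abs_nonneg _) hD').trans ?_
          exact le_add_of_nonneg_left hA0
    · by_cases hpj : (p.1 : ℕ) < j
      · have e : ω (Sum.inr (Sum.inr (l', p))) = 0 := by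
          simp only [ω, Sum.elim_inr]
          rw [if_pos hpj]
        rw [e, abs_zero, zero_mul]
        exact hB0
      · have e : ω (Sum.inr (Sum.inr (l', p))) = - τ' l' := by
          simp only [ω, Sum.elim_inr]
          rw [if_neg hpj]
        rw [e, abs_neg]
        exact mul_le_mul (hτ l').2
          (WBd_val K z hKn hc hz (Nat.cast_nonneg _) (hbζ l' p (by omega)).2 hζβ)
          (abs_nonneg _) hD'
  have hsum : ∑ i ∈ Finset.univ.erase t, |ω i| * |x i ^ m * ∏ k ∈ K, (x i - z k)| ≤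
      ((q * (Fintype.card Γ + J * M) : ℕ) : ℝ) * A + ((2 * q * J * M : ℕ) : ℝ) * B := by
    refine (Finset.sum_le_sum hG).trans ?_
    refine (Finset.sum_le_sum_of_subset_of_nonneg (Finset.subset_univ _)
      fun i _ _ => hG0 i).trans (le_of_eq ?_)
    rw [Fintype.sum_sum_type, Fintype.sum_sum_type]
    simp only [G, Sum.elim_inl, Sum.elim_inr, Finset.sum_const, Finset.card_univ,
      Fintype.card_prod, Fintype.card_fin, nsmul_eq_mul]
    push_cast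
    ring
  -- conclusion
  have h1 : w * ((β0 * P) ^ m * (Q / 4 ^ n1)) ≤ E * (2 ^ n1 * Q) +
      (((q * (Fintype.card Γ + J * M) : ℕ) : ℝ) * A + ((2 * q * J * M : ℕ) : ℝ) * B) :=
    (mul_le_mul_of_nonneg_left hL hw0).trans (key.trans (add_le_add
      (mul_le_mul_of_nonneg_left hR hE) hsum))
  set C : ℝ := ((q * (Fintype.card Γ + J * M) : ℕ) : ℝ) with hC
  set D : ℝ := ((2 * q * J * M : ℕ) : ℝ) with hD
  have h2 : w * β0 ^ m * P ^ m ≤ 8 ^ n1 * (E + C * w * δ ^ m * P ^ m + D * D' * ζ ^ m) := by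
    have e1 : w * ((β0 * P) ^ m * (Q / 4 ^ n1)) * (4 ^ n1 / Q) = w * β0 ^ m * P ^ m := by
      rw [mul_pow]
      field_simp
    have e2 : (E * (2 ^ n1 * Q) + (C * A + D * B)) * (4 ^ n1 / Q) =
        8 ^ n1 * (E + C * w * δ ^ m * P ^ m + D * D' * ζ ^ m) := by
      rw [hA, hB, mul_pow, show (8 : ℝ) = 2 * 4 by norm_num, mul_pow]
      field_simp
      ring
    rw [← e1, ← e2]
    exact mul_le_mul_of_nonneg_right h1 (by positivity)
  have hPm : 0 < P ^ m := pow_pos hP m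
  have hβm : 0 < β0 ^ m := pow_pos hβ0 m
  have h3 : 8 ^ n1 * (C * w * δ ^ m * P ^ m) ≤ w * β0 ^ m * P ^ m / 2 := by
    have := mul_le_mul_of_nonneg_left hsmall (mul_nonneg hw0 hPm.le)
    nlinarith [this]
  have h4 : w * β0 ^ m * P ^ m ≤ 2 * 8 ^ n1 * (E + D * D' * ζ ^ m) := by
    have : 8 ^ n1 * (E + C * w * δ ^ m * P ^ m + D * D' * ζ ^ m) =
      8 ^ n1 * (C * w * δ ^ m * P ^ m) + 8 ^ n1 * (E + D * D' * ζ ^ m) := by ring
    rw [this] at h2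
    linarith
  have e3 : 2 * 8 ^ n1 / β0 ^ m * (E / P ^ m + D * D' * (ζ / P) ^ m) =
      2 * 8 ^ n1 * (E + D * D' * ζ ^ m) / (β0 ^ m * P ^ m) := by
    rw [div_pow]
    field_simp
  rw [e3, le_div_iff₀ (mul_pos hβm hPm)]
  linarith [h4, mul_assoc w (β0 ^ m) (P ^ m)]

end KWar
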