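import Pool.Agent.KWar.LowAsm
import Pool.Agent.KWar.AeGood
import Pool.Agent.MWg.FinalD
import Pool.Agent.FWar.Dioph

/-!
# KWar.Fin: almost all coefficients are good

PROOF of `apx_ae`. `d ≥ 1` (`c1`, `c2`). For `g` and `t` let `g_t = g + ∑_i t_i X^(k-1-i)` (a polynomial of
degree `< k`), `x^k + g_t(x) = ff k d g t x`; its coefficient of `X^(k-1)` is `g.coeff (k-1) + t_0`, so
it is `FWar.Dioph` for almost all `t` (`FWar.ae_dioph_affine`, and the evaluation map `t ↦ t 0` is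
quasi-measure-preserving: `MeasureTheory.Measure.quasiMeasurePreserving_eval`). For `ε_m = 1/(m+1)` let
`K_m` be the kernels of `low_asm`; `ae_good` holds for almost all `t` for all `m`. Let `t` be such. Let
`ε > 0` and suppose that there are arbitrarily large `y` without an approximation by `p.s` values
with error `< ε`. Let `1/(m+1) ≤ ε/2`, `ε1 = 1/(m+1)`. For large `y` choose `r` with
`4^k P^k ≤ y ≤ 8^k P^k` (`finalD_scale`; `r → ∞` with `y`). For `Y ∈ [y - ε1, y + ε1]` no tuple is within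
`ε1` of `Y` (`lets`, `lets_sum`, `lets_length`, `lets_pos`, `MWg.list_fin` turn a tuple into
`x : Fin p.s → ℕ`), so by `low_asm` for all `l < L` `∑_{h ≤ u} ‖M2_h‖/sz ≥ c`, so some `h = h(l) ≤ u` has
`‖M2_h‖/sz ≥ c/(u+1)`. Since `L > (u+1)(q-1)` some `h` occurs for at least `q` values of `l`
(`Finset.exists_lt_card_fiber_of_mul_lt_card_of_maps_to`), which gives an injective
`φ : Fin q → ℕ`, `φ l < L` (`Finset.orderEmbOfFin` or `Finset.exists_subset_card_eq` and
`Finset.equivFin`) with `∏_l (‖M2_h‖/sz)² ≥ (c/(u+1))^(2q) =: c1`. So the sum over the (finitely many)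
injective `φ : Fin q → Fin L` and `h ≤ u` of the products is `≥ c1` at every `Y ∈ [y - ε1, y + ε1]`, and
the sum of the integrals over `[4^k P^k - 1, 8^k P^k + 1]` is `≥ 2 ε1 c1`. As `r → ∞` (for a sequence of
such `y`) this contradicts `ae_good` (the finite sum tends to `0`).

`apx_mono`: apply `Apx f s` to `y - (s'-s) f(1)` and add `s' - s` ones (`Fin.append` and
`Fin.sum_univ_add`, after `s' = s + j`). `every_of_apx`: `y = N + 1/2`, `ε = 1/2`.
-/

namespace KWar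

open Filter Topology MeasureTheory MWg

theorem apx_mono {f : ℕ → ℝ} {s s' : ℕ} (hs : s ≤ s') (h : Apx f s) : Apx f s' := by
  obtain ⟨j, rfl⟩ := Nat.exists_eq_add_of_le hs
  intro ε hε
  obtain ⟨Y, hY⟩ := h ε hε
  refine ⟨Y + j * f 1, fun y hy => ?_⟩
  obtain ⟨x, hx, hxy⟩ := hY (y - j * f 1) (by linarith)
  refine ⟨Fin.append x (fun _ => 1), ?_, ?_⟩
  · intro i
    refine Fin.addCases (fun i => ?_) (fun i => ?_) i
    · rw [Fin.append_left]
      exact hx i
    · rw [Fin.append_right]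
      exact one_pos
  · have e : ∑ i : Fin (s + j), f (Fin.append x (fun _ : Fin j => 1) i) =
        ∑ i, f (x i) + j * f 1 := by
      rw [Fin.sum_univ_add]
      simp only [Fin.append_left, Fin.append_right, Finset.sum_const, Finset.card_univ,
        Fintype.card_fin, nsmul_eq_mul]
    rw [e]
    have e2 : ∑ i, f (x i) + j * f 1 - y = ∑ i, f (x i) - (y - j * f 1) := by ring
    rw [e2]
    exact hxy

theorem every_of_apx {f : ℕ → ℝ} {s : ℕ} (h : Apx f s) : EveryLarge f s := by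
  refine ⟨h, ?_⟩
  obtain ⟨Y, hY⟩ := h (1 / 2) (by norm_num)
  refine ⟨⌈Y⌉, fun N hN => ?_⟩
  have h1 : Y ≤ (N : ℝ) := Int.ceil_le.1 hN
  obtain ⟨x, hx, hxy⟩ := hY ((N : ℝ) + 1 / 2) (by linarith)
  refine ⟨x, hx, ?_⟩
  rw [abs_lt] at hxy
  rw [Int.floor_eq_iff]
  constructor
  · linarith [hxy.1]
  · linarith [hxy.2]

private theorem Fin_pigeon {q L u : ℕ} (hq : 1 ≤ q) (hL : (u + 1) * (q - 1) < L)
    (H : Fin L → ℕ) (hH : ∀ l, H l ≤ u) :
    ∃ h, h ≤ u ∧ ∃ ψ : Fin q → Fin L, Function.Injective ψ ∧ ∀ i, H (ψ i) = h := by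
  classical
  obtain ⟨h, hh, hcard⟩ := Finset.exists_lt_card_fiber_of_mul_lt_card_of_maps_to
    (s := (Finset.univ : Finset (Fin L))) (t := Finset.range (u + 1)) (f := H) (n := q - 1)
    (fun a _ => Finset.mem_range.2 (by have := hH a; omega))
    (by rw [Finset.card_range, Finset.card_univ, Fintype.card_fin]; exact hL)
  have hq2 : q ≤ (Finset.univ.filter fun l : Fin L => H l = h).card := by
    have := hcard
    omega
  obtain ⟨T, hT, hTc⟩ := Finset.exists_subset_card_eq hq2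
  refine ⟨h, by have := Finset.mem_range.1 hh; omega, fun i => T.orderEmbOfFin hTc i, ?_, ?_⟩
  · exact (T.orderEmbOfFin hTc).injective
  · intro i
    have h1 := hT (T.orderEmbOfFin_mem hTc i)
    exact (Finset.mem_filter.1 h1).2

private theorem Fin_core {k d : ℕ} (p : Par k d) {g : ℕ → ℝ} (t : Fin d → ℝ) {K : ℕ → ℝ → ℂ}
    (hK : ∀ r, Continuous (K r)) {CK : ℝ} (hCK : ∀ r θ, ‖K r θ‖ ≤ CK) {ε1 : ℝ} (h0 : 0 < ε1)
    (h1 : ε1 ≤ 1) {c : ℝ} (hc : 0 < c)
    (hlow : ∀ᶠ r : ℕ in atTop, ∀ l : ℕ, l < p.L → ∀ Y : ℝ,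
        4 ^ k * (XX r) ^ k - 1 ≤ Y → Y ≤ 8 ^ k * (XX r) ^ k + 1 →
        (∀ z ∈ Zs k p.n r, ∀ b ∈ Bk k p.J p.M l r,
          ε1 ≤ |zsum (ff k d g t) z + bsum (ff k d g t) b - Y|) →
        c ≤ ∑ h ∈ Finset.range (p.u + 1), ‖M2 (K r) k p.n p.J p.M l r h (ff k d g t) Y‖ /
          sz k p.n p.J p.M l r)
    (hgood : ∀ φ : Fin p.q → ℕ, Function.Injective φ → (∀ l, φ l < p.L) →
      ∀ h : ℕ, h ≤ p.u → Tendsto (fun r : ℕ =>
        ∫⁻ Y in Set.Icc (4 ^ k * (XX r) ^ k - 1) (8 ^ k * (XX r) ^ k + 1), ENNReal.ofReal (∏ l,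
          (‖M2 (K r) k p.n p.J p.M (φ l) r h (ff k d g t) Y‖ / sz k p.n p.J p.M (φ l) r) ^ 2))
        atTop (𝓝 0)) :
    ∃ Y : ℝ, ∀ y : ℝ, Y ≤ y → ∃ x : Fin p.s → ℕ, (∀ i, 0 < x i) ∧
      |∑ i, ff k d g t (x i) - y| < 2 * ε1 := by
  classical
  set f := ff k d g t with hf
  set G : (Fin p.q → Fin p.L) × ℕ → ℕ → ℝ → ENNReal := fun a r Y => ENNReal.ofReal (∏ l,
    (‖M2 (K r) k p.n p.J p.M (a.1 l : ℕ) r a.2 f Y‖ / sz k p.n p.J p.M (a.1 l : ℕ) r) ^ 2) with hG
  set I : ℕ → Set ℝ := fun r => Set.Icc (4 ^ k * (XX r) ^ k - 1) (8 ^ k * (XX r) ^ k + 1) with hI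
  set S : Finset ((Fin p.q → Fin p.L) × ℕ) :=
    (Finset.univ.filter fun ψ : Fin p.q → Fin p.L => Function.Injective ψ) ×ˢ
      Finset.range (p.u + 1) with hS
  have hGm : ∀ a r, Measurable (G a r) := by
    intro a r
    rw [hG]
    have hcont : Continuous (fun Y : ℝ => ∏ l,
        (‖M2 (K r) k p.n p.J p.M (a.1 l : ℕ) r a.2 f Y‖ /
          sz k p.n p.J p.M (a.1 l : ℕ) r) ^ 2) := by
      refine continuous_finsetProd _ fun l _ => ?_
      have h2 := (m2_cont (hK r) (hCK r) k d p.n p.J p.M (a.1 l : ℕ) r a.2 g).comp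
        (Continuous.prodMk_right t)
      exact (h2.norm.div_const _).pow 2
    exact hcont.measurable.ennreal_ofReal
  have hlim : Tendsto (fun r : ℕ => ∑ a ∈ S, ∫⁻ Y in I r, G a r Y) atTop (𝓝 0) := by
    have h2 : Tendsto (fun r : ℕ => ∑ a ∈ S, ∫⁻ Y in I r, G a r Y) atTop
        (𝓝 (∑ _a ∈ S, (0 : ENNReal))) := by
      refine tendsto_finsetSum _ fun a ha => ?_
      obtain ⟨ha1, ha2⟩ := Finset.mem_product.1 ha
      have hinj := (Finset.mem_filter.1 ha1).2
      refine hgood (fun l => (a.1 l : ℕ)) ?_ (fun l => (a.1 l).isLt) a.2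
        (by have := Finset.mem_range.1 ha2; omega)
      intro i j hij
      exact hinj (Fin.ext hij)
    simpa using h2
  set c0 : ℝ := c / (p.u + 1) with hc0
  have hu0 : (0 : ℝ) < p.u + 1 := by positivity
  have hc0' : 0 < c0 := div_pos hc hu0
  set c1 : ℝ := (c0 ^ 2) ^ p.q with hc1
  have hc1' : 0 < c1 := by positivity
  have hev : ∀ᶠ r : ℕ in atTop, ∑ a ∈ S, ∫⁻ Y in I r, G a r Y < ENNReal.ofReal (c1 * (2 * ε1)) := by
    refine hlim.eventually (gt_mem_nhds ?_)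
    rw [ENNReal.ofReal_pos]
    positivity
  obtain ⟨r0, hr0⟩ := eventually_atTop.1 (hev.and hlow)
  have hk1 : 1 ≤ k := by have := p.hk; omega
  refine ⟨4 ^ k * XX r0 ^ k, fun y hy => ?_⟩
  obtain ⟨r, hr, hy1, hy2⟩ := finalD_scale hk1 r0 hy
  obtain ⟨hlt, hlowr⟩ := hr0 r hr
  by_contra hcon
  push Not at hcon
  have hfar : ∀ l : ℕ, ∀ z ∈ Zs k p.n r, ∀ b ∈ Bk k p.J p.M l r, 2 * ε1 ≤
      |zsum f z + bsum f b - y| := by
    intro l z hz b hb
    obtain ⟨x, hx, hxs⟩ := list_fin (lets z b) (lets_length hz b)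
    have h2 := hcon x (fun i => lets_pos hz hb _ (hx i))
    have h3 : ∑ i, f (x i) = zsum f z + bsum f b := by
      rw [hxs f, lets_sum]
    have h4 : (∑ i : Fin p.s, f (x i)) = zsum f z + bsum f b := h3
    rw [h4] at h2
    exact h2
  have hpt : ∀ Y ∈ Set.Icc (y - ε1) (y + ε1), ENNReal.ofReal c1 ≤ ∑ a ∈ S, G a r Y := by
    intro Y hY
    have hYI1 : 4 ^ k * (XX r) ^ k - 1 ≤ Y := by linarith [hY.1]
    have hYI2 : Y ≤ 8 ^ k * (XX r) ^ k + 1 := by linarith [hY.2]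
    have hmid : ∀ l : ℕ, l < p.L → ∃ h, h ≤ p.u ∧
        c0 ≤ ‖M2 (K r) k p.n p.J p.M l r h f Y‖ / sz k p.n p.J p.M l r := by
      intro l hl
      have h2 := hlowr l hl Y hYI1 hYI2 (fun z hz b hb => by
        have h3 := hfar l z hz b hb
        have h4 : |Y - y| ≤ ε1 := by
          rw [abs_le]
          constructor
          · linarith [hY.1]
          · linarith [hY.2]
        have h5 : |zsum f z + bsum f b - y| ≤ |zsum f z + bsum f b - Y| + |Y - y| := by
          have h6 : zsum f z + bsum f b - y = (zsum f z + bsum f b - Y) + (Y - y) := by ring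
          rw [h6]
          exact abs_add_le _ _
        linarith)
      by_contra hno
      push Not at hno
      have h3 : ∑ h ∈ Finset.range (p.u + 1), ‖M2 (K r) k p.n p.J p.M l r h f Y‖ /
          sz k p.n p.J p.M l r < ∑ _h ∈ Finset.range (p.u + 1), c0 := by
        refine Finset.sum_lt_sum_of_nonempty ⟨0, Finset.mem_range.2 (by omega)⟩ fun h hh => ?_
        exact hno h (by have := Finset.mem_range.1 hh; omega)
      rw [Finset.sum_const, Finset.card_range, nsmul_eq_mul] at h3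
      have h4 : ((p.u + 1 : ℕ) : ℝ) * c0 = c := by
        rw [hc0]
        push_cast
        field_simp
      rw [h4] at h3
      exact absurd h2 (not_le.2 h3)
    choose H hH1 hH2 using hmid
    obtain ⟨h, hh, ψ, hψ, hψh⟩ := Fin_pigeon p.hq p.hL (fun l : Fin p.L => H l l.isLt)
      (fun l => hH1 l l.isLt)
    have hmem : (ψ, h) ∈ S := by
      rw [hS, Finset.mem_product]
      exact ⟨Finset.mem_filter.2 ⟨Finset.mem_univ _, hψ⟩, Finset.mem_range.2 (by omega)⟩
    have hle : ENNReal.ofReal c1 ≤ G (ψ, h) r Y := by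
      rw [hG]
      refine ENNReal.ofReal_le_ofReal ?_
      have h2 : c1 = ∏ _l : Fin p.q, c0 ^ 2 := by
        rw [Finset.prod_const, Finset.card_univ, Fintype.card_fin]
      rw [h2]
      refine Finset.prod_le_prod (fun l _ => by positivity) fun l _ => ?_
      have h3 := hH2 (ψ l : ℕ) (ψ l).isLt
      have h4 : H (ψ l : ℕ) (ψ l).isLt = h := hψh l
      rw [h4] at h3
      exact pow_le_pow_left₀ hc0'.le h3 2
    exact hle.trans (Finset.single_le_sum (f := fun a => G a r Y) (fun _ _ => zero_le) hmem)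
  have hsub : Set.Icc (y - ε1) (y + ε1) ⊆ I r := by
    refine Set.Icc_subset_Icc ?_ ?_
    · linarith
    · linarith
  have hfin : ENNReal.ofReal (c1 * (2 * ε1)) ≤ ∑ a ∈ S, ∫⁻ Y in I r, G a r Y := by
    calc ENNReal.ofReal (c1 * (2 * ε1))
        = ∫⁻ _Y in Set.Icc (y - ε1) (y + ε1), ENNReal.ofReal c1 := by
          rw [setLIntegral_const, Real.volume_Icc, ENNReal.ofReal_mul hc1'.le]
          congr 2
          ring
      _ ≤ ∫⁻ Y in Set.Icc (y - ε1) (y + ε1), ∑ a ∈ S, G a r Y :=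
          setLIntegral_mono' measurableSet_Icc hpt
      _ ≤ ∫⁻ Y in I r, ∑ a ∈ S, G a r Y := lintegral_mono_set hsub
      _ = ∑ a ∈ S, ∫⁻ Y in I r, G a r Y :=
          lintegral_finsetSum _ fun a _ => hGm a r
  exact absurd hfin (not_le.2 hlt)

private theorem Fin_ae_eval {m : ℕ} {P : ℝ → Prop} (j : Fin m)
    (h : ∀ᵐ s : ℝ, P s) : ∀ᵐ t : Fin m → ℝ, P (t j) := by
  have h1 : Measure.QuasiMeasurePreserving (Function.eval j) (volume : Measure (Fin m → ℝ))
      (volume : Measure ℝ) := Measure.quasiMeasurePreserving_eval (fun _ => volume) j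
  exact h1.ae h

private theorem Fin_d {k d : ℕ} (p : Par k d) : 1 ≤ d := by
  have h1 := p.c1
  have h2 := p.c2
  have h3 := p.hq
  omega

/-- The polynomial with the coefficients `t` added. -/
private noncomputable def Fin_g (k d : ℕ) (g : Polynomial ℝ) (t : Fin d → ℝ) : Polynomial ℝ :=
  g + ∑ i : Fin d, Polynomial.C (t i) * Polynomial.X ^ (k - 1 - (i : ℕ))

private theorem Fin_g_deg {k d : ℕ} (hk : 1 ≤ k) {g : Polynomial ℝ} (hg : g.natDegree < k)
    (t : Fin d → ℝ) : (Fin_g k d g t).natDegree < k := by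
  unfold Fin_g
  have h1 : (∑ i : Fin d, Polynomial.C (t i) * Polynomial.X ^ (k - 1 - (i : ℕ)) :
      Polynomial ℝ).natDegree ≤ k - 1 := by
    refine Polynomial.natDegree_sum_le_of_forall_le _ _ fun i _ => ?_
    exact (Polynomial.natDegree_C_mul_X_pow_le _ _).trans (by omega)
  have h2 := Polynomial.natDegree_add_le g
    (∑ i : Fin d, Polynomial.C (t i) * Polynomial.X ^ (k - 1 - (i : ℕ)))
  have h3 : max g.natDegree (∑ i : Fin d, Polynomial.C (t i) *
      Polynomial.X ^ (k - 1 - (i : ℕ)) : Polynomial ℝ).natDegree < k :=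
    max_lt hg (by omega)
  exact h2.trans_lt h3

private theorem Fin_g_coeff {k d : ℕ} (hk : 2 ≤ k) (hd : 0 < d) (hdk : d ≤ k) (g : Polynomial ℝ)
    (t : Fin d → ℝ) : (Fin_g k d g t).coeff (k - 1) = g.coeff (k - 1) + t ⟨0, hd⟩ := by
  unfold Fin_g
  rw [Polynomial.coeff_add, Polynomial.finsetSum_coeff]
  congr 1
  rw [Finset.sum_eq_single (⟨0, hd⟩ : Fin d)]
  · rw [Polynomial.coeff_C_mul_X_pow]
    simp
  · intro i _ hi
    rw [Polynomial.coeff_C_mul_X_pow, if_neg]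
    intro h1
    apply hi
    have h2 := i.isLt
    apply Fin.ext
    show (i : ℕ) = 0
    omega
  · intro h1
    exact absurd (Finset.mem_univ _) h1

private theorem Fin_g_eval {k d : ℕ} (g : Polynomial ℝ) (t : Fin d → ℝ) :
    (fun x : ℕ => (x : ℝ) ^ k + (Fin_g k d g t).eval (x : ℝ)) =
      ff k d (fun x => g.eval (x : ℝ)) t := by
  funext x
  unfold Fin_g ff
  rw [Polynomial.eval_add, Polynomial.eval_finsetSum]
  simp only [Polynomial.eval_mul, Polynomial.eval_C, Polynomial.eval_pow, Polynomial.eval_X]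
  ring

theorem apx_ae {k d : ℕ} (p : Par k d) {g : Polynomial ℝ} (hg : g.natDegree < k) :
    ∀ᵐ t : Fin d → ℝ, Apx (ff k d (fun x => g.eval (x : ℝ)) t) p.s := by
  have hk := p.hk
  have hd := Fin_d p
  have hε : ∀ m : ℕ, (0 : ℝ) < 1 / ((m : ℝ) + 1) := fun m => by positivity
  have hε1 : ∀ m : ℕ, (1 : ℝ) / ((m : ℝ) + 1) ≤ 1 := fun m => by
    rw [div_le_one (by positivity)]
    have : (0 : ℝ) ≤ m := Nat.cast_nonneg m
    linarith
  choose C K hC hKc hKb hlow using fun m : ℕ => low_asm p (hε m) (hε1 m)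
  have hgood : ∀ᵐ t : Fin d → ℝ, ∀ m : ℕ, ∀ φ : Fin p.q → ℕ, Function.Injective φ →
      (∀ l, φ l < p.L) → ∀ h : ℕ, h ≤ p.u → Tendsto (fun r : ℕ =>
        ∫⁻ Y in Set.Icc (4 ^ k * (XX r) ^ k - 1) (8 ^ k * (XX r) ^ k + 1), ENNReal.ofReal (∏ l,
          (‖M2 (K m r) k p.n p.J p.M (φ l) r h (ff k d (fun x => g.eval (x : ℝ)) t) Y‖ /
            sz k p.n p.J p.M (φ l) r) ^ 2)) atTop (𝓝 0) := by
    rw [ae_all_iff]
    intro m
    exact ae_good p _ (K m) (hKc m) (hKb m)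
  have hdio := Fin_ae_eval (⟨0, hd⟩ : Fin d)
    (FWar.ae_dioph_affine (b := g.coeff (k - 1)) (one_ne_zero (α := ℝ)))
  filter_upwards [hgood, hdio] with t ht1 ht2
  have hD : FWar.Dioph ((Fin_g k d g t).coeff (k - 1)) := by
    rw [Fin_g_coeff (by omega) hd p.hd, ← div_one (g.coeff (k - 1) + t ⟨0, hd⟩)]
    exact ht2
  intro ε hεp
  obtain ⟨m, hm⟩ := exists_nat_one_div_lt (half_pos hεp)
  obtain ⟨c, hc, hev⟩ := hlow m (Fin_g k d g t) (Fin_g_deg (by omega) hg t) hD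
  rw [Fin_g_eval] at hev
  obtain ⟨Y, hY⟩ := Fin_core p t (hKc m) (hKb m) (hε m) (hε1 m) hc hev (ht1 m)
  refine ⟨Y, fun y hy => ?_⟩
  obtain ⟨x, hx, hxy⟩ := hY y hy
  refine ⟨x, hx, hxy.trans ?_⟩
  linarith

end KWar
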