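import Pool.Agent.MWg.Defs

/-!
# KWar.GaussQ: Gaussian mean square over the coefficients

PROOF. Let `γ t = exp (-π ∑ t_i²)`. For every `t`, `‖z‖² = re (z * conj z)` and with
`z = ∫ ψ ω ee (∑ t_i v_i ω) dρ`
`z * conj z = ∫∫ ψ ω conj (ψ ω') ee (∑ t_i (v_i ω - v_i ω')) dρ dρ'`
(`integral_prod_mul` on `ρ.prod ρ`, `integral_conj`). The function
`(t, (ω, ω')) ↦ γ t * ψ ω * conj (ψ ω') * ee (∑ t_i (v_i ω - v_i ω'))` is measurable and bounded by
`C² γ t`, `γ` is integrable on `Fin d → ℝ` and `ρ.prod ρ` is finite, so by Fubini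
(`integral_integral_swap`) the left side is
`re ∫∫ ψ ω conj (ψ ω') (∫ γ t ee (∑ t_i (v_i ω - v_i ω')) dt) dρ dρ'`.
The inner integral is `∏_i exp (-π (v_i ω - v_i ω')²)`: `γ t ee(..) = ∏_i exp(-π t_i²) ee(t_i y_i)`,
`MeasureTheory.integral_fintype_prod_volume_eq_prod` (or `integral_fintype_prod_eq_prod`) and
`∫ exp(-π x²) ee(x y) dx = exp(-π y²)` (`fourierIntegral_gaussian` in
`Mathlib/Analysis/SpecialFunctions/Gaussian/FourierTransform.lean`; compare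
`Pool/Agent/MWg/Gauss.lean`). Take norms: `‖ψ ω conj (ψ ω')‖ ≤ C²`.
`gaussQ_l` follows with `ofReal_integral_eq_lintegral_ofReal` (the integrand is nonnegative, bounded
by `C² ρ(Ω)² γ t`, measurable).
-/

namespace KWar

open MeasureTheory MWg

/-- The Gaussian weight. -/
noncomputable def gw {d : ℕ} (t : Fin d → ℝ) : ℝ := Real.exp (-Real.pi * ∑ i, t i ^ 2)

private theorem GaussQ_gw_ofReal {d : ℕ} (t : Fin d → ℝ) :
    ((gw t : ℝ) : ℂ) = Complex.exp (-(Real.pi : ℂ) * ∑ i, ((t i : ℝ) : ℂ) ^ 2) := by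
  unfold gw
  push_cast
  rfl

private theorem GaussQ_gw_ee {d : ℕ} (t y : Fin d → ℝ) :
    (gw t : ℂ) * ee (∑ i, t i * y i) =
      Complex.exp (-(Real.pi : ℂ) * ∑ i, ((t i : ℝ) : ℂ) ^ 2 +
        ∑ i, (2 * Real.pi * y i * Complex.I) * ((t i : ℝ) : ℂ)) := by
  rw [GaussQ_gw_ofReal, Complex.exp_add]
  congr 1
  unfold ee
  congr 1
  push_cast
  rw [Finset.mul_sum, Finset.sum_mul]
  refine Finset.sum_congr rfl fun i _ => ?_
  ring

private theorem GaussQ_pi_re : 0 < ((Real.pi : ℂ)).re := by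
  rw [Complex.ofReal_re]
  exact Real.pi_pos

private theorem GaussQ_cint {d : ℕ} (y : Fin d → ℝ) :
    Integrable (fun t : Fin d → ℝ => (gw t : ℂ) * ee (∑ i, t i * y i)) := by
  have h := GaussianFourier.integrable_cexp_neg_mul_sum_add (ι := Fin d) GaussQ_pi_re
    (fun i => 2 * Real.pi * y i * Complex.I)
  refine h.congr (Filter.Eventually.of_forall fun t => ?_)
  simp only
  rw [GaussQ_gw_ee]

private theorem GaussQ_ee_zero : ee 0 = 1 := by
  unfold ee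
  simp

private theorem GaussQ_norm_ee (x : ℝ) : ‖ee x‖ = 1 := by
  unfold ee
  rw [show (2 * (Real.pi : ℂ) * (x : ℂ) * Complex.I) = ((2 * Real.pi * x : ℝ) : ℂ) * Complex.I by
    push_cast; ring]
  exact Complex.norm_exp_ofReal_mul_I _

private theorem GaussQ_conj_ee (x : ℝ) : (starRingEnd ℂ) (ee x) = ee (-x) := by
  unfold ee
  rw [← Complex.exp_conj]
  congr 1
  rw [show (2 * (Real.pi : ℂ) * (x : ℂ) * Complex.I) = ((2 * Real.pi * x : ℝ) : ℂ) * Complex.I by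
    push_cast; ring, map_mul, Complex.conj_ofReal, Complex.conj_I]
  push_cast
  ring

private theorem GaussQ_ee_add (x y : ℝ) : ee x * ee y = ee (x + y) := by
  unfold ee
  rw [← Complex.exp_add]
  congr 1
  push_cast
  ring

private theorem GaussQ_gw_nonneg {d : ℕ} (t : Fin d → ℝ) : 0 ≤ gw t := (Real.exp_pos _).le

private theorem GaussQ_gw_cont {d : ℕ} : Continuous (gw : (Fin d → ℝ) → ℝ) := by
  unfold gw
  fun_prop

private theorem GaussQ_ee_cont : Continuous ee := by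
  unfold ee
  fun_prop

theorem gw_integrable (d : ℕ) : Integrable (gw : (Fin d → ℝ) → ℝ) := by

  have h := (GaussQ_cint (d := d) 0).re
  refine h.congr (Filter.Eventually.of_forall fun t => ?_)
  simp [GaussQ_ee_zero]

theorem gw_fourier {d : ℕ} (y : Fin d → ℝ) :
    ∫ t : Fin d → ℝ, (gw t : ℂ) * ee (∑ i, t i * y i) = (gw y : ℂ) := by

  simp_rw [GaussQ_gw_ee]
  rw [GaussianFourier.integral_cexp_neg_mul_sum_add GaussQ_pi_re, GaussQ_gw_ofReal]
  have hpi : (Real.pi : ℂ) ≠ 0 := by exact_mod_cast Real.pi_ne_zero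
  rw [div_self hpi, Complex.one_cpow, one_mul]
  congr 1
  rw [Finset.sum_div, Finset.mul_sum]
  refine Finset.sum_congr rfl fun i _ => ?_
  rw [mul_pow, Complex.I_sq]
  field_simp
  ring

/-- The integrand on the product space. -/
private noncomputable def GaussQ_F {Ω : Type*} {d : ℕ} (ψ : Ω → ℂ) (v : Ω → Fin d → ℝ)
    (t : Fin d → ℝ) (p : Ω × Ω) : ℂ :=
  (gw t : ℂ) * ((ψ p.1 * ee (∑ i, t i * v p.1 i)) *
    (starRingEnd ℂ) (ψ p.2 * ee (∑ i, t i * v p.2 i)))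

private theorem GaussQ_F_eq {Ω : Type*} {d : ℕ} (ψ : Ω → ℂ) (v : Ω → Fin d → ℝ)
    (t : Fin d → ℝ) (p : Ω × Ω) :
    GaussQ_F ψ v t p = (ψ p.1 * (starRingEnd ℂ) (ψ p.2)) *
      ((gw t : ℂ) * ee (∑ i, t i * (v p.1 - v p.2) i)) := by
  unfold GaussQ_F
  rw [map_mul, GaussQ_conj_ee]
  have h : ee (∑ i, t i * (v p.1 - v p.2) i) =
      ee (∑ i, t i * v p.1 i) * ee (-∑ i, t i * v p.2 i) := by
    rw [GaussQ_ee_add]
    congr 1
    rw [← sub_eq_add_neg, ← Finset.sum_sub_distrib]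
    refine Finset.sum_congr rfl fun i _ => ?_
    rw [Pi.sub_apply]
    ring
  rw [h]
  ring

private theorem GaussQ_F_norm {Ω : Type*} {d : ℕ} (ψ : Ω → ℂ) {C : ℝ} (hC : ∀ ω, ‖ψ ω‖ ≤ C)
    (v : Ω → Fin d → ℝ) (t : Fin d → ℝ) (p : Ω × Ω) :
    ‖GaussQ_F ψ v t p‖ ≤ C ^ 2 * gw t := by
  rw [GaussQ_F_eq, norm_mul, norm_mul, norm_mul, GaussQ_norm_ee, RCLike.norm_conj, mul_one,
    Complex.norm_real, Real.norm_of_nonneg (GaussQ_gw_nonneg t), sq]
  exact mul_le_mul_of_nonneg_right (mul_le_mul (hC _) (hC _) (norm_nonneg _)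
    ((norm_nonneg _).trans (hC p.1))) (GaussQ_gw_nonneg t)

private theorem GaussQ_F_integrable {Ω : Type*} [MeasurableSpace Ω] (ρ : Measure Ω)
    [IsFiniteMeasure ρ] {d : ℕ} (ψ : Ω → ℂ) (hψ : Measurable ψ) {C : ℝ} (hC : ∀ ω, ‖ψ ω‖ ≤ C)
    (v : Ω → Fin d → ℝ) (hv : Measurable v) :
    Integrable (Function.uncurry (GaussQ_F ψ v))
      ((volume : Measure (Fin d → ℝ)).prod (ρ.prod ρ)) := by
  have hg : Integrable (fun q : (Fin d → ℝ) × (Ω × Ω) => C ^ 2 * gw q.1)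
      ((volume : Measure (Fin d → ℝ)).prod (ρ.prod ρ)) :=
    ((gw_integrable d).comp_fst (ρ.prod ρ)).const_mul (C ^ 2)
  refine hg.mono' ?_ (Filter.Eventually.of_forall fun q => GaussQ_F_norm ψ hC v q.1 q.2)
  apply Measurable.aestronglyMeasurable
  have hvi : ∀ i, Measurable fun ω => v ω i := fun i => (measurable_pi_apply i).comp hv
  have h1 : Measurable fun q : (Fin d → ℝ) × (Ω × Ω) => ((gw q.1 : ℝ) : ℂ) :=
    Complex.measurable_ofReal.comp (GaussQ_gw_cont.measurable.comp measurable_fst)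
  have h2 : Measurable fun q : (Fin d → ℝ) × (Ω × Ω) =>
      ψ q.2.1 * ee (∑ i, q.1 i * v q.2.1 i) := by
    refine (hψ.comp (measurable_fst.comp measurable_snd)).mul (GaussQ_ee_cont.measurable.comp ?_)
    refine Finset.measurable_sum _ fun i _ => ?_
    exact ((measurable_pi_apply i).comp measurable_fst).mul
      ((hvi i).comp (measurable_fst.comp measurable_snd))
  have h3 : Measurable fun q : (Fin d → ℝ) × (Ω × Ω) =>
      ψ q.2.2 * ee (∑ i, q.1 i * v q.2.2 i) := by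
    refine (hψ.comp (measurable_snd.comp measurable_snd)).mul (GaussQ_ee_cont.measurable.comp ?_)
    refine Finset.measurable_sum _ fun i _ => ?_
    exact ((measurable_pi_apply i).comp measurable_fst).mul
      ((hvi i).comp (measurable_snd.comp measurable_snd))
  have h4 : Measurable fun q : (Fin d → ℝ) × (Ω × Ω) =>
      (starRingEnd ℂ) (ψ q.2.2 * ee (∑ i, q.1 i * v q.2.2 i)) :=
    Complex.continuous_conj.measurable.comp h3
  exact h1.mul (h2.mul h4)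

private theorem GaussQ_z {Ω : Type*} [MeasurableSpace Ω] (ρ : Measure Ω) [IsFiniteMeasure ρ]
    {d : ℕ} (ψ : Ω → ℂ) (v : Ω → Fin d → ℝ) (t : Fin d → ℝ) :
    ∫ p, GaussQ_F ψ v t p ∂(ρ.prod ρ) =
      ((gw t * ‖∫ ω, ψ ω * ee (∑ i, t i * v ω i) ∂ρ‖ ^ 2 : ℝ) : ℂ) := by
  unfold GaussQ_F
  rw [integral_const_mul]
  have h := integral_prod_mul (μ := ρ) (ν := ρ) (fun ω => ψ ω * ee (∑ i, t i * v ω i))
    (fun ω => (starRingEnd ℂ) (ψ ω * ee (∑ i, t i * v ω i)))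
  rw [h, integral_conj, Complex.mul_conj']
  push_cast
  rfl

private theorem GaussQ_integrable {Ω : Type*} [MeasurableSpace Ω] (ρ : Measure Ω)
    [IsFiniteMeasure ρ] {d : ℕ} (ψ : Ω → ℂ) (hψ : Measurable ψ) {C : ℝ} (hC : ∀ ω, ‖ψ ω‖ ≤ C)
    (v : Ω → Fin d → ℝ) (hv : Measurable v) :
    Integrable (fun t : Fin d → ℝ => gw t * ‖∫ ω, ψ ω * ee (∑ i, t i * v ω i) ∂ρ‖ ^ 2) := by
  have h := (GaussQ_F_integrable ρ ψ hψ hC v hv).integral_prod_left.re
  refine h.congr (Filter.Eventually.of_forall fun t => ?_)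
  simp only [Function.uncurry_apply_pair, RCLike.re_eq_complex_re]
  rw [GaussQ_z, Complex.ofReal_re]

theorem gaussQ {Ω : Type*} [MeasurableSpace Ω] (ρ : Measure Ω) [IsFiniteMeasure ρ] {d : ℕ}
    (ψ : Ω → ℂ) (hψ : Measurable ψ) {C : ℝ} (hC : ∀ ω, ‖ψ ω‖ ≤ C) (v : Ω → Fin d → ℝ)
    (hv : Measurable v) :
    ∫ t : Fin d → ℝ, gw t * ‖∫ ω, ψ ω * ee (∑ i, t i * v ω i) ∂ρ‖ ^ 2 ≤
      C ^ 2 * ∫ ω, ∫ ω', gw (v ω - v ω') ∂ρ ∂ρ := by

  have hF := GaussQ_F_integrable ρ ψ hψ hC v hv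
  have e1 : ((∫ t : Fin d → ℝ, gw t * ‖∫ ω, ψ ω * ee (∑ i, t i * v ω i) ∂ρ‖ ^ 2 : ℝ) : ℂ) =
      ∫ p : Ω × Ω, (ψ p.1 * (starRingEnd ℂ) (ψ p.2)) * (gw (v p.1 - v p.2) : ℂ)
        ∂(ρ.prod ρ) := by
    rw [← integral_complex_ofReal]
    calc ∫ t : Fin d → ℝ, ((gw t * ‖∫ ω, ψ ω * ee (∑ i, t i * v ω i) ∂ρ‖ ^ 2 : ℝ) : ℂ)
        = ∫ t : Fin d → ℝ, ∫ p, GaussQ_F ψ v t p ∂(ρ.prod ρ) := by
          refine integral_congr_ae (Filter.Eventually.of_forall fun t => ?_)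
          simp only
          rw [GaussQ_z]
      _ = ∫ p, (∫ t : Fin d → ℝ, GaussQ_F ψ v t p) ∂(ρ.prod ρ) := integral_integral_swap hF
      _ = _ := by
          refine integral_congr_ae (Filter.Eventually.of_forall fun p => ?_)
          simp only
          simp_rw [GaussQ_F_eq]
          rw [integral_const_mul, gw_fourier]
  have hprodint : Integrable (fun p : Ω × Ω => C ^ 2 * gw (v p.1 - v p.2)) (ρ.prod ρ) := by
    refine (integrable_const (C ^ 2)).mono' ?_ (Filter.Eventually.of_forall fun p => ?_)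
    · apply Measurable.aestronglyMeasurable
      exact (GaussQ_gw_cont.measurable.comp
        ((hv.comp measurable_fst).sub (hv.comp measurable_snd))).const_mul _
    · rw [Real.norm_of_nonneg (mul_nonneg (sq_nonneg _) (GaussQ_gw_nonneg _))]
      have h1 : gw (v p.1 - v p.2) ≤ 1 := by
        unfold gw
        rw [Real.exp_le_one_iff]
        have h2 : 0 ≤ ∑ i, (v p.1 - v p.2) i ^ 2 := Finset.sum_nonneg fun i _ => sq_nonneg _
        have := Real.pi_pos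
        nlinarith
      nlinarith [sq_nonneg C]
  have e2 : ∫ t : Fin d → ℝ, gw t * ‖∫ ω, ψ ω * ee (∑ i, t i * v ω i) ∂ρ‖ ^ 2 ≤
      ∫ p : Ω × Ω, C ^ 2 * gw (v p.1 - v p.2) ∂(ρ.prod ρ) := by
    have h0 : 0 ≤ ∫ t : Fin d → ℝ, gw t * ‖∫ ω, ψ ω * ee (∑ i, t i * v ω i) ∂ρ‖ ^ 2 :=
      integral_nonneg fun t => mul_nonneg (GaussQ_gw_nonneg t) (sq_nonneg _)
    have h1 : ∫ t : Fin d → ℝ, gw t * ‖∫ ω, ψ ω * ee (∑ i, t i * v ω i) ∂ρ‖ ^ 2 =
        ‖((∫ t : Fin d → ℝ, gw t * ‖∫ ω, ψ ω * ee (∑ i, t i * v ω i) ∂ρ‖ ^ 2 : ℝ) : ℂ)‖ := by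
      rw [Complex.norm_real, Real.norm_of_nonneg h0]
    rw [h1, e1]
    refine norm_integral_le_of_norm_le hprodint (Filter.Eventually.of_forall fun p => ?_)
    rw [norm_mul, norm_mul, RCLike.norm_conj, Complex.norm_real,
      Real.norm_of_nonneg (GaussQ_gw_nonneg _), sq]
    exact mul_le_mul_of_nonneg_right (mul_le_mul (hC _) (hC _) (norm_nonneg _)
      ((norm_nonneg _).trans (hC p.1))) (GaussQ_gw_nonneg _)
  refine e2.trans (le_of_eq ?_)
  rw [integral_prod _ hprodint]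
  simp_rw [integral_const_mul]

theorem gaussQ_l {Ω : Type*} [MeasurableSpace Ω] (ρ : Measure Ω) [IsFiniteMeasure ρ] {d : ℕ}
    (ψ : Ω → ℂ) (hψ : Measurable ψ) {C : ℝ} (hC : ∀ ω, ‖ψ ω‖ ≤ C) (v : Ω → Fin d → ℝ)
    (hv : Measurable v) :
    ∫⁻ t : Fin d → ℝ, ENNReal.ofReal (gw t * ‖∫ ω, ψ ω * ee (∑ i, t i * v ω i) ∂ρ‖ ^ 2) ≤
      ENNReal.ofReal (C ^ 2 * ∫ ω, ∫ ω', gw (v ω - v ω') ∂ρ ∂ρ) := by

  rw [← ofReal_integral_eq_lintegral_ofReal (GaussQ_integrable ρ ψ hψ hC v hv)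
    (Filter.Eventually.of_forall fun t => mul_nonneg (GaussQ_gw_nonneg t) (sq_nonneg _))]
  exact ENNReal.ofReal_le_ofReal (gaussQ ρ ψ hψ hC v hv)

end KWar
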