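import Pool.Agent.KWar.HighM
import Pool.Agent.KWar.DecApp
import Pool.Agent.KWar.BkSize
import Pool.Agent.KWar.M2Cont

/-!
# KWar.High: the mean of the products of `q` families over the coefficients

PROOF. Let `F0 x = x^k + g x`, so `zsum (ff k d g t) z = zsum F0 z + ∑_i t_i zsum (x^(k-1-i)) z`, and the
same for `bsum`. For `z ∈ Zs` put
`R_z = ∑_{b ∈ Bk} ∫_{TT r h} K θ ee (θ (A z b + ∑_i t_i V z b i))`,
`A z b = zsum F0 z + bsum F0 b - Y`, `V z b i = zsum (x^(k-1-i)) z + bsum (x^(k-1-i)) b`. Then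
`M2 = ∑_z R_z` (`ee_add`, finite sums and the integral commute, everything is continuous and bounded on
the bounded set `TT r h`) and by Cauchy-Schwarz (`sq_sum_le_card_mul_sum_sq`) `‖M2‖² ≤ #Zs ∑_z ‖R_z‖²`.
For the product over `l : Fin q` (families `φ l`): `∏_l ‖M2_l‖² ≤ #Zs^q ∑_{z ∈ Zs^q} ∏_l ‖R^l_{z l}‖²`
(`Finset.prod_univ_sum`, `Fintype.piFinset`). For every `z ∈ Zs^q` apply `highM` with `𝓑 l = Bk (φ l)`,
`T = TT r h` (`TT_meas`), `R = P = XX r` (`TT_le`), `E = P`, `ν = C0 P/P^m1` (`C0` from `dec_app`; `hdec` is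
`dec_app`, after `V (z l) (b l) i = zsum .. + bsum ..` and `mul`-rearrangement). So the left side is at
most (with `∏ sz² = ∏ (#Zs #Bk/P^k)²`, `sz > 0` by `sz_pos`; the factor `#Zs^(2q)` cancels)
`CK^(2q) P^(2kq) ( (2P)^(2q) exp(-π P²) + (4 C0 P² / P^m1)^q / ∏_l #Bk_l )`.
With `#Bk ≥ c Q^(M (N J - 2 J (J-1)))` (`card_Bk`), `N = k - 1`, `P = Q^N` (`QQ_pow`), the second term
is `≤ C Q^(N (2kq + 2q - m1 q)) / Q^(q M (N J - 2J(J-1)))` and by `c8` this is `≤ C/P^(k+1)`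
(`m1 ≤ k` by `c7`, `2 J (J-1) ≤ N J` as `4J < k`). The first term is `≤ 1/P^(k+1)` for large `r`.
`lintegral` of a finite sum: `lintegral_finset_sum'` (measurability from `m2_cont` or from the finite
sums of continuous functions), `ENNReal.ofReal_sum_of_nonneg`.
-/

namespace KWar

open Filter Topology MeasureTheory MWg

/-- The constant part of the phase. -/
private noncomputable def High_A (k : ℕ) (g : ℕ → ℝ) (Y : ℝ) {J M : ℕ} (z : Zt)
    (b : Fin J × Fin M → ℕ) : ℝ :=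
  zsum (fun x => (x : ℝ) ^ k + g x) z + bsum (fun x => (x : ℝ) ^ k + g x) b - Y

/-- The coefficients of the phase. -/
private noncomputable def High_V (k d : ℕ) {J M : ℕ} (z : Zt) (b : Fin J × Fin M → ℕ)
    (i : Fin d) : ℝ :=
  zsum (fun x => (x : ℝ) ^ (k - 1 - (i : ℕ))) z + bsum (fun x => (x : ℝ) ^ (k - 1 - (i : ℕ))) b

/-- The sum over the bulk parts for a fixed chain part. -/
private noncomputable def High_R (K : ℝ → ℂ) (k d J M l r h : ℕ) (g : ℕ → ℝ) (Y : ℝ) (z : Zt)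
    (t : Fin d → ℝ) : ℂ :=
  ∑ b ∈ Bk k J M l r, ∫ θ in TT r h, K θ * ee (θ * (High_A k g Y z b +
    ∑ i, t i * High_V k d z b i))

private theorem High_int {K : ℝ → ℂ} (hK : Continuous K) (r h : ℕ) (c : ℝ) :
    IntegrableOn (fun θ => K θ * ee (θ * c)) (TT r h) := by
  have h1 : Continuous fun θ : ℝ => K θ * ee (θ * c) :=
    hK.mul (ee_cont.comp (continuous_id.mul continuous_const))
  exact (h1.integrableOn_Icc).mono_set (TT_sub_Icc r h)

private theorem High_M2 {K : ℝ → ℂ} (hK : Continuous K) (k d n J M l r h : ℕ) (g : ℕ → ℝ) (Y : ℝ)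
    (t : Fin d → ℝ) :
    M2 K k n J M l r h (ff k d g t) Y = ∑ z ∈ Zs k n r, High_R K k d J M l r h g Y z t := by
  unfold M2 High_R
  have e : ∀ θ : ℝ, K θ * ee (-(θ * Y)) * FZ k n r (ff k d g t) θ * FB k J M l r (ff k d g t) θ =
      ∑ z ∈ Zs k n r, ∑ b ∈ Bk k J M l r, K θ * ee (θ * (High_A k g Y z b +
        ∑ i, t i * High_V k d z b i)) := by
    intro θ
    unfold FZ FB
    rw [Finset.mul_sum, Finset.sum_comm]
    refine Finset.sum_congr rfl fun b _ => ?_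
    rw [Finset.mul_sum, Finset.sum_mul]
    refine Finset.sum_congr rfl fun z _ => ?_
    have e1 : θ * (High_A k g Y z b + ∑ i, t i * High_V k d z b i) =
        -(θ * Y) + (θ * zsum (ff k d g t) z + θ * bsum (ff k d g t) b) := by
      rw [zsum_ff, bsum_ff]
      unfold High_A High_V
      simp only [mul_add, Finset.sum_add_distrib]
      ring
    rw [e1, ee_add, ee_add]
    ring
  simp only [e]
  rw [integral_finset_sum]
  · refine Finset.sum_congr rfl fun z _ => ?_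
    rw [integral_finset_sum]
    intro b _
    exact High_int hK r h _
  · intro z _
    exact integrable_finset_sum _ fun b _ => High_int hK r h _

private theorem High_Rcont {K : ℝ → ℂ} (hK : Continuous K) {CK : ℝ} (hCK : ∀ θ, ‖K θ‖ ≤ CK)
    (k d J M l r h : ℕ) (g : ℕ → ℝ) (Y : ℝ) (z : Zt) :
    Continuous (High_R K k d J M l r h g Y z) := by
  unfold High_R
  refine continuous_finset_sum _ fun b _ => ?_
  refine continuous_of_dominated (bound := fun _ => CK) ?_ ?_ ?_ ?_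
  · intro t
    exact (hK.mul (ee_cont.comp (continuous_id.mul continuous_const))).aestronglyMeasurable
  · intro t
    refine Filter.Eventually.of_forall fun θ => ?_
    rw [norm_mul, ee_norm, mul_one]
    exact hCK θ
  · have : IsFiniteMeasure (volume.restrict (TT r h)) := ⟨by
      rw [Measure.restrict_apply_univ]
      exact TT_finite r h⟩
    exact integrable_const _
  · refine Filter.Eventually.of_forall fun θ => ?_
    refine continuous_const.mul (ee_cont.comp (continuous_const.mul (continuous_const.add ?_)))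
    exact continuous_finset_sum _ fun i _ => (continuous_apply i).mul continuous_const

private theorem High_gw (d : ℕ) : Continuous (gw : (Fin d → ℝ) → ℝ) := by
  unfold gw
  refine Real.continuous_exp.comp (continuous_const.mul ?_)
  exact continuous_finset_sum _ fun i _ => (continuous_apply i).pow 2

private theorem High_CS {q : ℕ} {K : ℝ → ℂ} (hK : Continuous K) (k d n J M r h : ℕ)
    (φ : Fin q → ℕ) (g : ℕ → ℝ) (Y : ℝ) (t : Fin d → ℝ) :
    ∏ l, ‖M2 K k n J M (φ l) r h (ff k d g t) Y‖ ^ 2 ≤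
      ((Zs k n r).card : ℝ) ^ q * ∑ z ∈ Fintype.piFinset (fun _ : Fin q => Zs k n r),
        ∏ l, ‖High_R K k d J M (φ l) r h g Y (z l) t‖ ^ 2 := by
  have h1 : ∀ l : Fin q, ‖M2 K k n J M (φ l) r h (ff k d g t) Y‖ ^ 2 ≤
      ((Zs k n r).card : ℝ) * ∑ z ∈ Zs k n r, ‖High_R K k d J M (φ l) r h g Y z t‖ ^ 2 := by
    intro l
    rw [High_M2 hK]
    have h2 := norm_sum_le (Zs k n r) (fun z => High_R K k d J M (φ l) r h g Y z t)
    have h3 := pow_le_pow_left₀ (norm_nonneg _) h2 2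
    exact h3.trans sq_sum_le_card_mul_sum_sq
  have h2 := Finset.prod_le_prod (s := (Finset.univ : Finset (Fin q)))
    (fun l _ => by positivity) (fun l _ => h1 l)
  refine h2.trans (le_of_eq ?_)
  rw [Finset.prod_mul_distrib, Finset.prod_const, Finset.card_univ, Fintype.card_fin,
    Finset.prod_univ_sum]

private theorem High_mono (a : ℕ) : ∀ᶠ x : ℝ in atTop, x ^ a * Real.exp (-Real.pi * x ^ 2) ≤ 1 := by
  have h1 := Real.tendsto_pow_mul_exp_neg_atTop_nhds_zero a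
  have h2 : ∀ᶠ x : ℝ in atTop, x ^ a * Real.exp (-x) < 1 := h1.eventually (gt_mem_nhds one_pos)
  filter_upwards [h2, eventually_ge_atTop (1 : ℝ)] with x hx hx1
  refine le_trans ?_ hx.le
  refine mul_le_mul_of_nonneg_left ?_ (by positivity)
  refine Real.exp_le_exp.2 ?_
  have := Real.pi_gt_three
  nlinarith

private theorem High_XX : Tendsto XX atTop atTop := tendsto_pow_atTop_atTop_of_one_lt (by norm_num)

/-- The arithmetic at the end. -/
private theorem High_arith {k d : ℕ} (p : Par k d) {C0 c CK : ℝ} (hC0 : 0 < C0) (hc : 0 < c)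
    (hCK : 0 ≤ CK) :
    ∃ C : ℝ, 0 < C ∧ ∀ᶠ r : ℕ in atTop, ∀ B : Fin p.q → ℝ,
      (∀ l, c * QQ k r ^ (p.M * ((k - 1) * p.J - (2 * p.J * (p.J - 1) + 4 * gp k p.M * (p.J - 1)))) ≤ B l) →
      (XX r) ^ (2 * k * p.q) * (CK ^ (2 * p.q) * ((2 * XX r) ^ (2 * p.q) *
        Real.exp (-Real.pi * (XX r) ^ 2) +
        (4 * XX r * (C0 * (XX r / (XX r) ^ p.m1))) ^ p.q / ∏ l, B l)) ≤ C / (XX r) ^ (k + 1) := by
  have hk := p.hk
  refine ⟨CK ^ (2 * p.q) * (2 ^ (2 * p.q) + (4 * C0) ^ p.q / c ^ p.q) + 1, by positivity, ?_⟩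
  filter_upwards [High_XX.eventually (High_mono (2 * k * p.q + 2 * p.q + (k + 1)))] with r hr B hB
  obtain ⟨P, hP⟩ : ∃ P, P = XX r := ⟨_, rfl⟩
  obtain ⟨Q, hQ⟩ : ∃ Q, Q = QQ k r := ⟨_, rfl⟩
  have hQ1 : 1 ≤ Q := hQ ▸ QQ_one_le (by omega) r
  have hPQ : Q ^ (k - 1) = P := by rw [hQ, hP]; exact QQ_pow (by omega) r
  have hP1 : 1 ≤ P := hP ▸ XX_one r
  rw [← hP] at hr ⊢
  rw [← hQ] at hB
  have hP0 : 0 < P := by linarith
  have hQ0 : 0 < Q := by linarith
  obtain ⟨e, he⟩ : ∃ e, e = p.M * ((k - 1) * p.J - (2 * p.J * (p.J - 1) + 4 * gp k p.M * (p.J - 1))) := ⟨_, rfl⟩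
  rw [← he] at hB
  have hBp : c ^ p.q * Q ^ (e * p.q) ≤ ∏ l, B l := by
    have h1 : ∏ l : Fin p.q, (c * Q ^ e) ≤ ∏ l, B l :=
      Finset.prod_le_prod (fun l _ => by positivity) (fun l _ => hB l)
    rw [Finset.prod_const, Finset.card_univ, Fintype.card_fin, mul_pow, ← pow_mul] at h1
    exact h1
  have hB0 : 0 < ∏ l, B l := lt_of_lt_of_le (by positivity) hBp
  -- the exponents
  have hexp : (k - 1) * (2 * k * p.q + 2 * p.q + (k + 1)) ≤ (k - 1) * (p.m1 * p.q) + e * p.q := by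
    have h8 := p.c8
    have h7 := p.c7
    have hJk := p.hJk
    obtain ⟨N, hN⟩ : ∃ N, N = k - 1 := ⟨_, rfl⟩
    rw [← hN] at h8 he ⊢
    obtain ⟨s, hs⟩ : ∃ s, 2 * k + 2 - p.m1 = s := ⟨_, rfl⟩
    have hs2 : s + p.m1 = 2 * k + 2 := by omega
    rw [hs] at h8
    have hsub : (2 * p.J * (p.J - 1) + 4 * gp k p.M * (p.J - 1)) ≤ N * p.J := by
      have h1 : 2 * p.J + 4 * gp k p.M ≤ N := by omega
      calc (2 * p.J * (p.J - 1) + 4 * gp k p.M * (p.J - 1)) = (2 * p.J + 4 * gp k p.M) * (p.J - 1) := by ring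
        _ ≤ N * p.J := Nat.mul_le_mul h1 (Nat.sub_le _ _)
    obtain ⟨f, hf⟩ : ∃ f, N * p.J - (2 * p.J * (p.J - 1) + 4 * gp k p.M * (p.J - 1)) = f := ⟨_, rfl⟩
    have hf2 : f + (2 * p.J * (p.J - 1) + 4 * gp k p.M * (p.J - 1)) = N * p.J := by omega
    rw [hf] at he
    have h9 : p.q * p.M * (N * p.J) = p.q * p.M * f + p.q * p.M * (2 * p.J * (p.J - 1) + 4 * gp k p.M * (p.J - 1)) := by
      rw [← hf2]; ring
    have h10 : N * (p.q * s + k + 1) ≤ p.q * p.M * f := by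
      have e1 : p.q * p.M * (2 * p.J * (p.J - 1) + 4 * gp k p.M * (p.J - 1)) +
          N * (p.q * s + k + 1) ≤ p.q * p.M * (N * p.J) := h8
      rw [h9] at e1
      omega
    have h11 : N * (2 * k * p.q + 2 * p.q + (k + 1)) = N * (p.m1 * p.q) + N * (p.q * s + k + 1) := by
      have e2 : 2 * k * p.q + 2 * p.q = (s + p.m1) * p.q := by rw [hs2]; ring
      rw [e2]; ring
    rw [h11, he]
    have h12 : p.M * f * p.q = p.q * p.M * f := by ring
    rw [h12]
    omega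
  have hpow : P ^ (2 * k * p.q + 2 * p.q + (k + 1)) ≤ P ^ (p.m1 * p.q) * Q ^ (e * p.q) := by
    rw [← hPQ, ← pow_mul, ← pow_mul, ← pow_add]
    exact pow_le_pow_right₀ hQ1 hexp
  -- first term
  have t1 : P ^ (2 * k * p.q) * ((2 * P) ^ (2 * p.q) * Real.exp (-Real.pi * P ^ 2)) ≤
      2 ^ (2 * p.q) / P ^ (k + 1) := by
    rw [le_div_iff₀ (by positivity)]
    have e1 : P ^ (2 * k * p.q) * ((2 * P) ^ (2 * p.q) * Real.exp (-Real.pi * P ^ 2)) * P ^ (k + 1) =
        2 ^ (2 * p.q) * (P ^ (2 * k * p.q + 2 * p.q + (k + 1)) * Real.exp (-Real.pi * P ^ 2)) := by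
      rw [mul_pow, pow_add, pow_add]; ring
    rw [e1]
    calc (2 : ℝ) ^ (2 * p.q) * (P ^ (2 * k * p.q + 2 * p.q + (k + 1)) *
          Real.exp (-Real.pi * P ^ 2)) ≤ 2 ^ (2 * p.q) * 1 :=
        mul_le_mul_of_nonneg_left hr (by positivity)
      _ = 2 ^ (2 * p.q) := mul_one _
  -- second term
  have t2 : P ^ (2 * k * p.q) * ((4 * P * (C0 * (P / P ^ p.m1))) ^ p.q / ∏ l, B l) ≤
      ((4 * C0) ^ p.q / c ^ p.q) / P ^ (k + 1) := by
    have e1 : (4 * P * (C0 * (P / P ^ p.m1))) ^ p.q = (4 * C0) ^ p.q * P ^ (2 * p.q) /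
        P ^ (p.m1 * p.q) := by
      have : 4 * P * (C0 * (P / P ^ p.m1)) = (4 * C0) * P ^ 2 / P ^ p.m1 := by
        field_simp
      rw [this, div_pow, mul_pow, ← pow_mul, ← pow_mul]
    rw [e1]
    have h1 : P ^ (2 * k * p.q) * ((4 * C0) ^ p.q * P ^ (2 * p.q) / P ^ (p.m1 * p.q) / ∏ l, B l) ≤
        P ^ (2 * k * p.q) * ((4 * C0) ^ p.q * P ^ (2 * p.q) / P ^ (p.m1 * p.q) /
          (c ^ p.q * Q ^ (e * p.q))) := by
      refine mul_le_mul_of_nonneg_left ?_ (by positivity)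
      exact div_le_div_of_nonneg_left (by positivity) (by positivity) hBp
    refine h1.trans ?_
    have e2 : P ^ (2 * k * p.q) * ((4 * C0) ^ p.q * P ^ (2 * p.q) / P ^ (p.m1 * p.q) /
          (c ^ p.q * Q ^ (e * p.q))) = ((4 * C0) ^ p.q / c ^ p.q) *
          (P ^ (2 * k * p.q + 2 * p.q) / (P ^ (p.m1 * p.q) * Q ^ (e * p.q))) := by
      rw [pow_add]
      field_simp
    rw [e2, div_eq_mul_inv ((4 * C0) ^ p.q / c ^ p.q) (P ^ (k + 1))]
    refine mul_le_mul_of_nonneg_left ?_ (by positivity)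
    rw [div_le_iff₀ (by positivity), ← div_eq_inv_mul, le_div_iff₀ (by positivity), ← pow_add]
    exact hpow
  have hCK2 : 0 ≤ CK ^ (2 * p.q) := by positivity
  calc P ^ (2 * k * p.q) * (CK ^ (2 * p.q) * ((2 * P) ^ (2 * p.q) * Real.exp (-Real.pi * P ^ 2) +
        (4 * P * (C0 * (P / P ^ p.m1))) ^ p.q / ∏ l, B l)) =
      CK ^ (2 * p.q) * (P ^ (2 * k * p.q) * ((2 * P) ^ (2 * p.q) * Real.exp (-Real.pi * P ^ 2)) +
        P ^ (2 * k * p.q) * ((4 * P * (C0 * (P / P ^ p.m1))) ^ p.q / ∏ l, B l)) := by ring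
    _ ≤ CK ^ (2 * p.q) * (2 ^ (2 * p.q) / P ^ (k + 1) +
        ((4 * C0) ^ p.q / c ^ p.q) / P ^ (k + 1)) :=
      mul_le_mul_of_nonneg_left (add_le_add t1 t2) hCK2
    _ = CK ^ (2 * p.q) * (2 ^ (2 * p.q) + (4 * C0) ^ p.q / c ^ p.q) / P ^ (k + 1) := by ring
    _ ≤ (CK ^ (2 * p.q) * (2 ^ (2 * p.q) + (4 * C0) ^ p.q / c ^ p.q) + 1) / P ^ (k + 1) := by
      refine div_le_div_of_nonneg_right ?_ (by positivity)
      linarith

theorem high {k d : ℕ} (p : Par k d) (g : ℕ → ℝ) (K : ℕ → ℝ → ℂ) (hK : ∀ r, Continuous (K r))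
    {CK : ℝ} (hCK : ∀ r θ, ‖K r θ‖ ≤ CK) :
    ∃ C : ℝ, 0 < C ∧ ∀ᶠ r : ℕ in atTop, ∀ φ : Fin p.q → ℕ, Function.Injective φ →
      (∀ l, φ l < p.L) → ∀ h : ℕ, h ≤ p.u → ∀ Y : ℝ,
      ∫⁻ t : Fin d → ℝ, ENNReal.ofReal (gw t * ∏ l,
        (‖M2 (K r) k p.n p.J p.M (φ l) r h (ff k d g t) Y‖ / sz k p.n p.J p.M (φ l) r) ^ 2) ≤
      ENNReal.ofReal (C / (XX r) ^ (k + 1)) := by
  have hk := p.hk
  have hCK0 : 0 ≤ CK := (norm_nonneg _).trans (hCK 0 0)
  obtain ⟨C0, hC0, hdec⟩ := dec_app p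
  obtain ⟨c, hc, hcard⟩ := card_Bk (k := k) (J := p.J) (M := p.M) (L := p.L) (by omega) p.hJk
  obtain ⟨C, hC, har⟩ := High_arith p hC0 hc hCK0
  have hsz := sz_pos (k := k) (n := p.n) (J := p.J) (M := p.M) (L := p.L) (by omega) p.hJk
  refine ⟨C, hC, ?_⟩
  filter_upwards [hdec, hcard, har, hsz] with r hdec hcard har hsz φ hφ hφL h hh Y
  obtain ⟨P, hP⟩ : ∃ P, P = XX r := ⟨_, rfl⟩
  have hP1 : 1 ≤ P := hP ▸ XX_one r
  have hP0 : 0 < P := by linarith
  obtain ⟨Z, hZ⟩ : ∃ Z : ℝ, Z = ((Zs k p.n r).card : ℝ) := ⟨_, rfl⟩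
  have hZpos : p.q ≠ 0 := by have := p.hq; omega
  have hL0 : 0 < p.L := by
    have h1 := hφL ⟨0, Nat.pos_of_ne_zero hZpos⟩
    omega
  have hZ0 : 0 < Z := by rw [hZ]; exact (hsz 0 hL0).2.1
  obtain ⟨B, hB⟩ : ∃ B : Fin p.q → ℝ, B = fun l => ((Bk k p.J p.M (φ l) r).card : ℝ) := ⟨_, rfl⟩
  have hB0 : ∀ l, 0 < B l := by
    intro l
    rw [hB]
    exact (hsz (φ l) (hφL l)).2.2
  have hBp : 0 < ∏ l, B l := Finset.prod_pos fun l _ => hB0 l
  obtain ⟨bd, hbd⟩ : ∃ bd : ℝ, bd = CK ^ (2 * p.q) * ((∏ l, B l) ^ 2 * (2 * P) ^ (2 * p.q) *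
        Real.exp (-Real.pi * P ^ 2) + (∏ l, B l) * (4 * P * (C0 * (P / P ^ p.m1))) ^ p.q) :=
    ⟨_, rfl⟩
  have hbd0 : 0 ≤ bd := by rw [hbd]; positivity
  -- one chain part
  have hone : ∀ z ∈ Fintype.piFinset (fun _ : Fin p.q => Zs k p.n r),
      ∫⁻ t : Fin d → ℝ, ENNReal.ofReal (gw t *
        ∏ l, ‖High_R (K r) k d p.J p.M (φ l) r h g Y (z l) t‖ ^ 2) ≤ ENNReal.ofReal bd := by
    intro z hz
    have hz' : ∀ l, z l ∈ Zs k p.n r := fun l => Fintype.mem_piFinset.1 hz l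
    have h1 := highM (fun l : Fin p.q => Bk k p.J p.M (φ l) r) (TT r h) (TT_meas r h)
      (R := P) hP0.le (fun θ hθ => by rw [hP]; exact TT_le hθ) (K r) (hK r).measurable
      (fun θ => hCK r θ) (fun l b => High_A k g Y (z l) b) (fun l b => High_V k d (z l) b)
      (E := P) (ν := C0 * (P / P ^ p.m1)) hP0.le (by positivity) (by
        intro b b' hb hb' τ τ' hτ hτ' hi
        rw [hP]
        rw [hP] at hi
        exact hdec φ hφ hφL h hh z hz' b b' hb hb' τ τ' hτ hτ' hi)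
    rw [hbd, hB]
    exact h1
  -- the sum
  obtain ⟨D, hD⟩ : ∃ D : ℝ, D = (∏ l, (sz k p.n p.J p.M (φ l) r) ^ 2)⁻¹ * Z ^ p.q := ⟨_, rfl⟩
  have hsz0 : ∀ l, 0 < sz k p.n p.J p.M (φ l) r := fun l => (hsz (φ l) (hφL l)).1
  have hszp : 0 < ∏ l, (sz k p.n p.J p.M (φ l) r) ^ 2 :=
    Finset.prod_pos fun l _ => by have := hsz0 l; positivity
  have hD0 : 0 ≤ D := by rw [hD]; positivity
  have hpt : ∀ t : Fin d → ℝ, gw t * ∏ l,
      (‖M2 (K r) k p.n p.J p.M (φ l) r h (ff k d g t) Y‖ / sz k p.n p.J p.M (φ l) r) ^ 2 ≤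
      D * ∑ z ∈ Fintype.piFinset (fun _ : Fin p.q => Zs k p.n r),
        gw t * ∏ l, ‖High_R (K r) k d p.J p.M (φ l) r h g Y (z l) t‖ ^ 2 := by
    intro t
    have hg0 : 0 ≤ gw t := (Real.exp_pos _).le
    have h1 := High_CS (hK r) k d p.n p.J p.M r h φ g Y t
    rw [← hZ] at h1
    simp only [div_pow]
    rw [Finset.prod_div_distrib, ← Finset.mul_sum, hD, div_eq_mul_inv]
    calc gw t * ((∏ l, ‖M2 (K r) k p.n p.J p.M (φ l) r h (ff k d g t) Y‖ ^ 2) *
          (∏ l, sz k p.n p.J p.M (φ l) r ^ 2)⁻¹) ≤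
        gw t * ((Z ^ p.q * ∑ z ∈ Fintype.piFinset (fun _ : Fin p.q => Zs k p.n r),
        ∏ l, ‖High_R (K r) k d p.J p.M (φ l) r h g Y (z l) t‖ ^ 2) *
          (∏ l, sz k p.n p.J p.M (φ l) r ^ 2)⁻¹) :=
          mul_le_mul_of_nonneg_left (mul_le_mul_of_nonneg_right h1 (by positivity)) hg0
      _ = _ := by ring
  have hmeas : ∀ z ∈ Fintype.piFinset (fun _ : Fin p.q => Zs k p.n r),
      AEMeasurable (fun t : Fin d → ℝ => ENNReal.ofReal (gw t *
        ∏ l, ‖High_R (K r) k d p.J p.M (φ l) r h g Y (z l) t‖ ^ 2)) volume := by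
    intro z _
    refine (Continuous.measurable ?_).ennreal_ofReal.aemeasurable
    refine (High_gw d).mul (continuous_finset_prod _ fun l _ => ?_)
    exact ((High_Rcont (hK r) (hCK r) k d p.J p.M (φ l) r h g Y (z l)).norm).pow 2
  have hcardZ : ((Fintype.piFinset (fun _ : Fin p.q => Zs k p.n r)).card : ℝ) = Z ^ p.q := by
    rw [Fintype.card_piFinset, Finset.prod_const, Finset.card_univ, Fintype.card_fin, hZ]
    push_cast
    rfl
  calc ∫⁻ t : Fin d → ℝ, ENNReal.ofReal (gw t * ∏ l,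
        (‖M2 (K r) k p.n p.J p.M (φ l) r h (ff k d g t) Y‖ / sz k p.n p.J p.M (φ l) r) ^ 2)
      ≤ ∫⁻ t : Fin d → ℝ, ENNReal.ofReal D *
          ∑ z ∈ Fintype.piFinset (fun _ : Fin p.q => Zs k p.n r),
            ENNReal.ofReal (gw t * ∏ l, ‖High_R (K r) k d p.J p.M (φ l) r h g Y (z l) t‖ ^ 2) := by
        refine lintegral_mono fun t => ?_
        refine (ENNReal.ofReal_le_ofReal (hpt t)).trans (le_of_eq ?_)
        rw [ENNReal.ofReal_mul hD0, ENNReal.ofReal_sum_of_nonneg]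
        intro z _
        have hg0 : 0 ≤ gw t := (Real.exp_pos _).le
        positivity
    _ = ENNReal.ofReal D * ∑ z ∈ Fintype.piFinset (fun _ : Fin p.q => Zs k p.n r),
          ∫⁻ t : Fin d → ℝ, ENNReal.ofReal (gw t *
            ∏ l, ‖High_R (K r) k d p.J p.M (φ l) r h g Y (z l) t‖ ^ 2) := by
        rw [lintegral_const_mul' _ _ ENNReal.ofReal_ne_top, lintegral_finset_sum' _ hmeas]
    _ ≤ ENNReal.ofReal D * ∑ z ∈ Fintype.piFinset (fun _ : Fin p.q => Zs k p.n r),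
          ENNReal.ofReal bd := by
        gcongr with z hz
        exact hone z hz
    _ = ENNReal.ofReal (D * (Z ^ p.q * bd)) := by
        rw [Finset.sum_const, nsmul_eq_mul, ENNReal.ofReal_mul hD0,
          ENNReal.ofReal_mul (by positivity), ← hcardZ, ENNReal.ofReal_natCast]
    _ ≤ ENNReal.ofReal (C / (XX r) ^ (k + 1)) := by
        refine ENNReal.ofReal_le_ofReal ?_
        have h1 := har B (by
          intro l
          rw [hB]
          exact (hcard (φ l) (hφL l)).1)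
        refine le_trans (le_of_eq ?_) h1
        rw [← hP]
        have e1 : ∏ l, (sz k p.n p.J p.M (φ l) r) ^ 2 = (Z ^ p.q * ∏ l, B l) ^ 2 /
            P ^ (2 * k * p.q) := by
          unfold sz
          rw [← hZ, ← hP]
          have e2 : ∀ l : Fin p.q, (Z * ((Bk k p.J p.M (φ l) r).card : ℝ) / P ^ k) ^ 2 =
              (Z * B l) ^ 2 / P ^ (2 * k) := by
            intro l
            rw [hB, div_pow, ← pow_mul, mul_comm k 2]
          simp only [e2]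
          rw [Finset.prod_div_distrib, Finset.prod_pow, Finset.prod_mul_distrib, Finset.prod_const,
            Finset.prod_const, Finset.card_univ, Fintype.card_fin, ← pow_mul]
        rw [hD, hbd, e1]
        field_simp

end KWar
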