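import Pool.Agent.KWar.GaussQ

/-!
# KWar.HighM: Gaussian mean of a product of squares of `q` different sums

PROOF. Fix `t`. `∏_l ∑_{b ∈ 𝓑 l} I_l(b)` with
`I_l(b) = ∫_{θ ∈ T} K θ ee (θ (A l b + ∑ t_i V l b i)) dθ` equals
`∑_{β ∈ piFinset 𝓑} ∏_l I_l(β l)` (`Finset.prod_univ_sum`), and for each `β`
`∏_l I_l(β l) = ∫_{τ ∈ T^q} ∏_l K(τ_l) ee(τ_l (A l (β l) + ∑ t_i V l (β l) i)) dτ`
(`MeasureTheory.integral_fintype_prod_eq_prod` for the measures `volume.restrict T`; equivalently for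
the functions `indicator T ..` and `volume`). So the product is `∫ ψ ω ee (∑ t_i v ω i) dρ` over
`Ω = (Fin q → β) × (Fin q → ℝ)` with `ρ = (count on piFinset 𝓑) × (pi (volume.restrict T))`
(a finite measure: `T` is bounded), `ψ (β, τ) = ∏_l K(τ_l) ee(τ_l A l (β l))`, `‖ψ‖ ≤ CK^q`,
`v (β, τ) i = ∑_l τ_l V l (β l) i`. (For the first factor use e.g. the measure
`∑ β ∈ piFinset 𝓑, Measure.dirac β` on `Fin q → β` with the `⊤` measurable space, or replace it by a
`Fintype`/subtype; or apply `gaussQ_l` to a finite sum differently.)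
`gaussQ_l` (constant `CK^q`) bounds the left side by `CK^(2q) ∑_{β,β'} ∫_{T^q} ∫_{T^q} gw(v - v')`.
For given `β, β'` and `τ, τ' ∈ T^q`: if `|(v - v') i| > E` for some `i`, then
`gw (v - v') ≤ exp(-π E²)`; otherwise, by `hdec`, `β = β'` and `|τ_l - τ'_l| ≤ ν` for all `l`, and
`gw ≤ 1`. So `∫∫ gw(v-v') ≤ exp(-πE²) (2R)^(2q) + [β = β'] ∫_{T^q} vol {τ' : |τ'_l - τ_l| ≤ ν ∀ l} dτ
≤ exp(-πE²) (2R)^(2q) + [β = β'] (2R)^q (2ν)^q`. Sum over `β, β'`; `#piFinset 𝓑 = ∏ #𝓑 l`.
-/

namespace KWar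

open MeasureTheory MWg

private theorem HighM_ee_norm (x : ℝ) : ‖ee x‖ = 1 := by
  have h : (2 * Real.pi * x * Complex.I : ℂ) = ((2 * Real.pi * x : ℝ) : ℂ) * Complex.I := by
    push_cast
    ring
  rw [ee, h, Complex.norm_exp_ofReal_mul_I]

private theorem HighM_ee_add (x y : ℝ) : ee (x + y) = ee x * ee y := by
  rw [ee, ee, ee, ← Complex.exp_add]
  congr 1
  push_cast
  ring

private theorem HighM_ee_sum {ι : Type*} (s : Finset ι) (f : ι → ℝ) :
    ee (∑ i ∈ s, f i) = ∏ i ∈ s, ee (f i) := by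
  classical
  induction s using Finset.induction_on with
  | empty => simp [ee]
  | insert a s ha ih => rw [Finset.sum_insert ha, Finset.prod_insert ha, HighM_ee_add, ih]

private theorem HighM_ee_meas : Measurable ee := by
  unfold ee
  fun_prop

/-- The integral over `count × μ` is the sum of the integrals. -/
private theorem HighM_count {ι X : Type*} [Fintype ι] [MeasurableSpace ι]
    [MeasurableSingletonClass ι] [MeasurableSpace X] (μ : Measure X) [IsFiniteMeasure μ]
    (f : ι × X → ℂ) (hf : Measurable f) {C : ℝ} (hC : ∀ p, ‖f p‖ ≤ C) :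
    ∫ p, f p ∂((Measure.count : Measure ι).prod μ) = ∑ i, ∫ x, f (i, x) ∂μ := by
  have hint : Integrable f ((Measure.count : Measure ι).prod μ) :=
    Integrable.of_bound hf.aestronglyMeasurable C (Filter.Eventually.of_forall hC)
  rw [integral_prod f hint, integral_fintype hint.integral_prod_left]
  apply Finset.sum_congr rfl
  intro i _
  simp [measureReal_def]

private theorem HighM_gw_le_one {d : ℕ} (y : Fin d → ℝ) : gw y ≤ 1 := by
  unfold gw
  rw [Real.exp_le_one_iff]
  have h1 : 0 ≤ ∑ i, y i ^ 2 := Finset.sum_nonneg fun i _ => sq_nonneg _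
  nlinarith [Real.pi_pos]

private theorem HighM_gw_small {d : ℕ} (y : Fin d → ℝ) {E : ℝ} (hE : 0 ≤ E) {i : Fin d}
    (hi : E < |y i|) : gw y ≤ Real.exp (-Real.pi * E ^ 2) := by
  unfold gw
  rw [Real.exp_le_exp]
  have h1 : y i ^ 2 ≤ ∑ i, y i ^ 2 :=
    Finset.single_le_sum (f := fun i => y i ^ 2) (fun i _ => sq_nonneg _) (Finset.mem_univ i)
  have h2 : E ^ 2 ≤ y i ^ 2 := by
    rw [← sq_abs (y i)]
    exact pow_le_pow_left₀ hE hi.le 2
  nlinarith [Real.pi_pos]

private theorem HighM_alg (N e R ν : ℝ) (q : ℕ) :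
    (N * (2 * R) ^ q) * (e * (N * (2 * R) ^ q) + (2 * ν) ^ q) =
      N ^ 2 * (2 * R) ^ (2 * q) * e + N * (4 * R * ν) ^ q := by
  have h1 : (4 * R * ν) ^ q = (2 * R) ^ q * (2 * ν) ^ q := by
    rw [← mul_pow]
    congr 1
    ring
  have h2 : (2 * R) ^ (2 * q) = (2 * R) ^ q * (2 * R) ^ q := by
    rw [← pow_add]
    congr 1
    ring
  rw [h1, h2]
  ring

private theorem HighM_gw_nonneg {d : ℕ} (y : Fin d → ℝ) : 0 ≤ gw y := (Real.exp_pos _).le

private theorem HighM_gw_meas {d : ℕ} : Measurable (gw : (Fin d → ℝ) → ℝ) := by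
  unfold gw
  fun_prop

theorem highM {q d : ℕ} {β : Type} [DecidableEq β] (𝓑 : Fin q → Finset β) (T : Set ℝ)
    (hT : MeasurableSet T) {R : ℝ} (hR : 0 ≤ R) (hTR : ∀ θ ∈ T, |θ| ≤ R) (K : ℝ → ℂ)
    (hK : Measurable K) {CK : ℝ} (hCK : ∀ θ, ‖K θ‖ ≤ CK) (A : Fin q → β → ℝ)
    (V : Fin q → β → Fin d → ℝ) {E ν : ℝ} (hE : 0 ≤ E) (hν : 0 ≤ ν)
    (hdec : ∀ b b' : Fin q → β, (∀ l, b l ∈ 𝓑 l) → (∀ l, b' l ∈ 𝓑 l) → ∀ τ τ' : Fin q → ℝ,
      (∀ l, τ l ∈ T) → (∀ l, τ' l ∈ T) →
      (∀ i, |∑ l, (τ l * V l (b l) i - τ' l * V l (b' l) i)| ≤ E) →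
      b = b' ∧ ∀ l, |τ l - τ' l| ≤ ν) :
    ∫⁻ t : Fin d → ℝ, ENNReal.ofReal (gw t *
        ∏ l, ‖∑ b ∈ 𝓑 l, ∫ θ in T, K θ * ee (θ * (A l b + ∑ i, t i * V l b i))‖ ^ 2) ≤
      ENNReal.ofReal (CK ^ (2 * q) * ((∏ l, ((𝓑 l).card : ℝ)) ^ 2 * (2 * R) ^ (2 * q) *
        Real.exp (-Real.pi * E ^ 2) + (∏ l, ((𝓑 l).card : ℝ)) * (4 * R * ν) ^ q)) := by
  classical
  have hCK0 : 0 ≤ CK := le_trans (norm_nonneg _) (hCK 0)
  let ι : Type := {b : Fin q → β // b ∈ Fintype.piFinset 𝓑}
  let _ : MeasurableSpace ι := ⊤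
  have : DiscreteMeasurableSpace ι := ⟨fun _ => trivial⟩
  have hTsub : T ⊆ Set.Icc (-R) R := fun θ hθ => abs_le.1 (hTR θ hθ)
  have hvT : volume T ≤ ENNReal.ofReal (2 * R) := by
    refine (measure_mono hTsub).trans ?_
    rw [Real.volume_Icc]
    apply le_of_eq
    congr 1
    ring
  have hfin : IsFiniteMeasure (volume.restrict T) :=
    ⟨by rw [Measure.restrict_apply_univ]; exact lt_of_le_of_lt hvT ENNReal.ofReal_lt_top⟩
  let μ : Measure (Fin q → ℝ) := Measure.pi fun _ => volume.restrict T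
  have hμuniv : μ Set.univ ≤ ENNReal.ofReal ((2 * R) ^ q) := by
    have h1 : μ Set.univ = ∏ _i : Fin q, (volume.restrict T) Set.univ := Measure.pi_univ _
    rw [h1, Finset.prod_const, Finset.card_univ, Fintype.card_fin, Measure.restrict_apply_univ,
      ENNReal.ofReal_pow (by positivity)]
    gcongr
  have hμae : ∀ᵐ τ ∂μ, ∀ l, τ l ∈ T := by
    have h1 : μ = (volume : Measure (Fin q → ℝ)).restrict (Set.univ.pi fun _ => T) := by
      rw [volume_pi, Measure.restrict_pi_pi]
    rw [h1]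
    have h2 := ae_restrict_mem (μ := (volume : Measure (Fin q → ℝ)))
      (MeasurableSet.univ_pi fun _ : Fin q => hT)
    filter_upwards [h2] with τ hτ l
    exact hτ l (Set.mem_univ l)
  let ρ : Measure (ι × (Fin q → ℝ)) := (Measure.count : Measure ι).prod μ
  have hcard : Fintype.card ι = ∏ l, (𝓑 l).card := by
    rw [Fintype.card_coe, Fintype.card_piFinset]
  have hcount : (Measure.count : Measure ι) Set.univ = ((∏ l, (𝓑 l).card : ℕ) : ENNReal) := by
    rw [Measure.count_univ, ENat.card_eq_coe_fintype_card, hcard]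
    rfl
  have hρuniv : ρ.real Set.univ ≤ (∏ l, ((𝓑 l).card : ℝ)) * (2 * R) ^ q := by
    have h1 : ρ Set.univ = (Measure.count : Measure ι) Set.univ * μ Set.univ := by
      rw [← Set.univ_prod_univ, Measure.prod_prod]
    rw [measureReal_def, h1, hcount, ENNReal.toReal_mul, ENNReal.toReal_natCast]
    push_cast
    apply mul_le_mul_of_nonneg_left _ (Finset.prod_nonneg fun _ _ => Nat.cast_nonneg _)
    exact ENNReal.toReal_le_of_le_ofReal (by positivity) hμuniv
  have hρae : ∀ᵐ ω ∂ρ, ∀ l, ω.2 l ∈ T :=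
    (Measure.quasiMeasurePreserving_snd (μ := (Measure.count : Measure ι)) (ν := μ)).ae hμae
  let ψ : ι × (Fin q → ℝ) → ℂ := fun ω => ∏ l, (K (ω.2 l) * ee (ω.2 l * A l (ω.1.1 l)))
  let v : ι × (Fin q → ℝ) → Fin d → ℝ := fun ω i => ∑ l, ω.2 l * V l (ω.1.1 l) i
  have hA : ∀ l, Measurable fun ω : ι × (Fin q → ℝ) => A l (ω.1.1 l) := fun l =>
    (measurable_of_countable fun b : ι => A l (b.1 l)).comp measurable_fst
  have hV : ∀ l i, Measurable fun ω : ι × (Fin q → ℝ) => V l (ω.1.1 l) i := fun l i =>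
    (measurable_of_countable fun b : ι => V l (b.1 l) i).comp measurable_fst
  have h2l : ∀ l, Measurable fun ω : ι × (Fin q → ℝ) => ω.2 l := fun l =>
    (measurable_pi_apply l).comp measurable_snd
  have hψ : Measurable ψ := by
    apply Finset.measurable_prod
    intro l _
    exact (hK.comp (h2l l)).mul (HighM_ee_meas.comp ((h2l l).mul (hA l)))
  have hv : Measurable v := by
    rw [measurable_pi_iff]
    intro i
    apply Finset.measurable_sum
    intro l _
    exact (h2l l).mul (hV l i)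
  have hψC : ∀ ω, ‖ψ ω‖ ≤ CK ^ q := by
    intro ω
    change ‖∏ l, (K (ω.2 l) * ee (ω.2 l * A l (ω.1.1 l)))‖ ≤ CK ^ q
    rw [norm_prod]
    calc ∏ l, ‖K (ω.2 l) * ee (ω.2 l * A l (ω.1.1 l))‖ ≤ ∏ _l : Fin q, CK := by
          apply Finset.prod_le_prod (fun l _ => norm_nonneg _)
          intro l _
          rw [norm_mul, HighM_ee_norm, mul_one]
          exact hCK _
      _ = CK ^ q := by simp
  -- the product of the sums is one integral
  have hz : ∀ t : Fin d → ℝ,
      ∏ l, ∑ b ∈ 𝓑 l, ∫ θ in T, K θ * ee (θ * (A l b + ∑ i, t i * V l b i)) =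
        ∫ ω, ψ ω * ee (∑ i, t i * v ω i) ∂ρ := by
    intro t
    have hm : Measurable fun ω : ι × (Fin q → ℝ) => ψ ω * ee (∑ i, t i * v ω i) := by
      refine hψ.mul (HighM_ee_meas.comp ?_)
      apply Finset.measurable_sum
      intro i _
      exact ((measurable_pi_apply i).comp hv).const_mul _
    rw [HighM_count μ _ hm (C := CK ^ q)
      (fun ω => by rw [norm_mul, HighM_ee_norm, mul_one]; exact hψC ω), Finset.prod_univ_sum]
    rw [← Finset.sum_coe_sort (Fintype.piFinset 𝓑)]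
    apply Finset.sum_congr rfl
    intro b _
    have h1 := integral_fintype_prod_eq_prod (𝕜 := ℂ) (E := fun _ : Fin q => ℝ)
      (fun (l : Fin q) (θ : ℝ) =>
        K θ * ee (θ * (A l (b.1 l) + ∑ i, t i * V l (b.1 l) i)))
      (μ := fun _ => volume.restrict T)
    rw [← h1]
    apply integral_congr_ae
    refine Filter.Eventually.of_forall fun τ => ?_
    change ∏ l, (K (τ l) * ee (τ l * (A l (b.1 l) + ∑ i, t i * V l (b.1 l) i))) =
      (∏ l, (K (τ l) * ee (τ l * A l (b.1 l)))) * ee (∑ i, t i * ∑ l, τ l * V l (b.1 l) i)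
    have h2 : ∑ i, t i * ∑ l, τ l * V l (b.1 l) i =
        ∑ l, τ l * ∑ i, t i * V l (b.1 l) i := by
      simp only [Finset.mul_sum]
      rw [Finset.sum_comm]
      apply Finset.sum_congr rfl
      intro l _
      apply Finset.sum_congr rfl
      intro i _
      ring
    rw [h2, HighM_ee_sum, ← Finset.prod_mul_distrib]
    apply Finset.prod_congr rfl
    intro l _
    rw [mul_add, HighM_ee_add]
    ring
  have hmain := gaussQ_l ρ ψ hψ hψC v hv
  have hlhs : (∫⁻ t : Fin d → ℝ, ENNReal.ofReal (gw t *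
        ∏ l, ‖∑ b ∈ 𝓑 l, ∫ θ in T, K θ * ee (θ * (A l b + ∑ i, t i * V l b i))‖ ^ 2)) =
      ∫⁻ t : Fin d → ℝ, ENNReal.ofReal (gw t * ‖∫ ω, ψ ω * ee (∑ i, t i * v ω i) ∂ρ‖ ^ 2) := by
    apply lintegral_congr
    intro t
    rw [← hz t, norm_prod, ← Finset.prod_pow]
  rw [hlhs]
  refine hmain.trans (ENNReal.ofReal_le_ofReal ?_)
  set N : ℝ := ∏ l, ((𝓑 l).card : ℝ) with hN
  have hN0 : 0 ≤ N := Finset.prod_nonneg fun _ _ => Nat.cast_nonneg _
  set e : ℝ := Real.exp (-Real.pi * E ^ 2) with he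
  have he0 : 0 ≤ e := (Real.exp_pos _).le
  -- the inner integral
  have hinner : ∀ ω : ι × (Fin q → ℝ), (∀ l, ω.2 l ∈ T) →
      ∫ ω', gw (v ω - v ω') ∂ρ ≤ e * (N * (2 * R) ^ q) + (2 * ν) ^ q := by
    intro ω hω
    let S : Set (Fin q → ℝ) := Set.univ.pi fun l => Set.Icc (ω.2 l - ν) (ω.2 l + ν)
    have hS : MeasurableSet S := MeasurableSet.univ_pi fun _ => measurableSet_Icc
    let U : Set (ι × (Fin q → ℝ)) := {ω.1} ×ˢ S
    have hU : MeasurableSet U := (measurableSet_singleton _).prod hS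
    have hbd : ∀ᵐ ω' ∂ρ, gw (v ω - v ω') ≤ e + U.indicator (fun _ => (1 : ℝ)) ω' := by
      filter_upwards [hρae] with ω' hω'
      by_cases h : ∀ i, |(v ω - v ω') i| ≤ E
      · have h1 := hdec ω.1.1 ω'.1.1 (fun l => Fintype.mem_piFinset.1 ω.1.2 l)
          (fun l => Fintype.mem_piFinset.1 ω'.1.2 l) ω.2 ω'.2 hω hω' (fun i => by
            have h2 := h i
            have h3 : (v ω - v ω') i =
                ∑ l, (ω.2 l * V l (ω.1.1 l) i - ω'.2 l * V l (ω'.1.1 l) i) := by
              rw [Finset.sum_sub_distrib]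
              rfl
            rw [h3] at h2
            exact h2)
        have h4 : ω' ∈ U := by
          refine ⟨?_, ?_⟩
          · exact (Subtype.ext h1.1).symm
          · intro l _
            have := abs_le.1 (h1.2 l)
            constructor <;> linarith
        rw [Set.indicator_of_mem h4]
        linarith [HighM_gw_le_one (v ω - v ω')]
      · push Not at h
        obtain ⟨i, hi⟩ := h
        have h1 := HighM_gw_small (v ω - v ω') hE hi
        have h2 : 0 ≤ U.indicator (fun _ => (1 : ℝ)) ω' :=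
          Set.indicator_nonneg (fun _ _ => zero_le_one) _
        linarith
    have hUint : Integrable (U.indicator (fun _ => (1 : ℝ))) ρ :=
      (integrable_const (1 : ℝ)).indicator hU
    calc ∫ ω', gw (v ω - v ω') ∂ρ ≤ ∫ ω', (e + U.indicator (fun _ => (1 : ℝ)) ω') ∂ρ := by
          apply integral_mono_of_nonneg (Filter.Eventually.of_forall fun _ => HighM_gw_nonneg _)
            ((integrable_const e).add hUint) hbd
      _ = e * ρ.real Set.univ + ρ.real U := by
          rw [integral_add (integrable_const e) hUint, integral_const, smul_eq_mul, mul_comm,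
            integral_indicator_const (1 : ℝ) hU, smul_eq_mul, mul_one]
      _ ≤ e * (N * (2 * R) ^ q) + (2 * ν) ^ q := by
          apply add_le_add (mul_le_mul_of_nonneg_left hρuniv he0)
          have h1 : ρ U = (Measure.count : Measure ι) {ω.1} * μ S := Measure.prod_prod _ _
          rw [measureReal_def, h1, Measure.count_singleton, one_mul]
          apply ENNReal.toReal_le_of_le_ofReal (by positivity)
          have h2 : μ S = ∏ l, (volume.restrict T) (Set.Icc (ω.2 l - ν) (ω.2 l + ν)) :=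
            Measure.pi_pi _ _
          rw [h2, ENNReal.ofReal_pow (by positivity)]
          calc ∏ l, (volume.restrict T) (Set.Icc (ω.2 l - ν) (ω.2 l + ν)) ≤
              ∏ _l : Fin q, ENNReal.ofReal (2 * ν) := by
                apply Finset.prod_le_prod'
                intro l _
                refine (Measure.restrict_apply_le _ _).trans ?_
                rw [Real.volume_Icc]
                apply le_of_eq
                congr 1
                ring
            _ = ENNReal.ofReal (2 * ν) ^ q := by simp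
  have houter : ∫ ω, ∫ ω', gw (v ω - v ω') ∂ρ ∂ρ ≤
      N ^ 2 * (2 * R) ^ (2 * q) * e + N * (4 * R * ν) ^ q := by
    calc ∫ ω, ∫ ω', gw (v ω - v ω') ∂ρ ∂ρ ≤
        ∫ _ω, (e * (N * (2 * R) ^ q) + (2 * ν) ^ q) ∂ρ := by
          apply integral_mono_of_nonneg
            (Filter.Eventually.of_forall fun _ => integral_nonneg fun _ => HighM_gw_nonneg _)
            (integrable_const _)
          filter_upwards [hρae] with ω hω
          exact hinner ω hω
      _ = ρ.real Set.univ * (e * (N * (2 * R) ^ q) + (2 * ν) ^ q) := by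
          rw [integral_const, smul_eq_mul]
      _ ≤ (N * (2 * R) ^ q) * (e * (N * (2 * R) ^ q) + (2 * ν) ^ q) := by
          exact mul_le_mul_of_nonneg_right hρuniv (add_nonneg (mul_nonneg he0
            (mul_nonneg hN0 (pow_nonneg (mul_nonneg zero_le_two hR) q)))
            (pow_nonneg (mul_nonneg zero_le_two hν) q))
      _ = N ^ 2 * (2 * R) ^ (2 * q) * e + N * (4 * R * ν) ^ q := by
          exact HighM_alg N e R ν q
  calc (CK ^ q) ^ 2 * ∫ ω, ∫ ω', gw (v ω - v ω') ∂ρ ∂ρ ≤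
      (CK ^ q) ^ 2 * (N ^ 2 * (2 * R) ^ (2 * q) * e + N * (4 * R * ν) ^ q) :=
        mul_le_mul_of_nonneg_left houter (sq_nonneg _)
    _ = CK ^ (2 * q) * (N ^ 2 * (2 * R) ^ (2 * q) * e + N * (4 * R * ν) ^ q) := by
        rw [← pow_mul, mul_comm q 2]

end KWar
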