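import Pool.Agent.KWar.BkSize
import Pool.Agent.MWg.LemML
import Pool.Agent.MWg.PData

/-!
# KWar.MainCt: many tuples are moderately close to the target

PROOF. `P = XX r`, `H = P^u/2`, `val f 0 w = ∑ f` over the letters of the chain `w` (`chain_val`).
Bulk letters are `1 ≤ x ≤ P/128` (`mem_blk`, `be_bounds`: `2 be ≤ 1/128`, `Q^(N-4j) ≤ Q^N = P`,
`QQ_pow`, `QQ_one_le`). There is `C1` with `|f x| ≤ C1 + 2 x^k` for all `x ≥ 0` (`good_lim`), so
`|bsum f b| ≤ J M (C1 + 2 (P/128)^k) ≤ P^k/4` for large `P`: `16 J M ≤ 128^k` because `M ≤ k`,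
`4 J < k`. `|f v| ≤ P^k/4` for `v ∈ J1 P` (`side_J1`). By `smallHead` (`J0`, `side_J0`, `1 ≤ n`) at
least `c1 tot` chains `w'` have `|val w'| ≤ (2^k + 1) P^k`. For such `w'`, every `v` and `b` the number
`y' = Y - val w' - f v - bsum f b` satisfies
`3^k P^k ≤ y' ≤ 12^k P^k`: `3^k + 2^k + 2 ≤ 4^k` and `8^k + 2^k + 2 ≤ 12^k` for `k ≥ 5` and
`P^k/2 + 1 ≤ P^k`. So by `lemML` (`C0 ((nxt k)^[n] P)^k ≤ P^u/2 ≤ P^k` for large `P`, by `hn` and
`nxt_iter_pow_le`, `eventually_rpow_le`) at least `c tot H/P^k` chains `w` have `|val w - y'| ≤ H`.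
Sum over `w'`, `v`, `b`: the count is `≥ c1 tot #J1 #Bk · c tot P^u/(2 P^k) = (c1 c/2) sz P^u`
(`#Zs = tot² #J1`).
-/

namespace KWar

open Filter Topology MWg

private theorem MainCt_pow1 {k : ℕ} (hk : 5 ≤ k) : (3 : ℝ) ^ k + 2 ^ k + 2 ≤ 4 ^ k := by
  induction k, hk using Nat.le_induction with
  | base => norm_num
  | succ k hk ih =>
      have h3 : (0 : ℝ) < 3 ^ k := by positivity
      have h2 : (0 : ℝ) < 2 ^ k := by positivity
      rw [pow_succ, pow_succ, pow_succ]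
      linarith

private theorem MainCt_pow2 {k : ℕ} (hk : 5 ≤ k) : (8 : ℝ) ^ k + 2 ^ k + 2 ≤ 12 ^ k := by
  induction k, hk using Nat.le_induction with
  | base => norm_num
  | succ k hk ih =>
      have h3 : (0 : ℝ) < 8 ^ k := by positivity
      have h2 : (0 : ℝ) < 2 ^ k := by positivity
      rw [pow_succ, pow_succ, pow_succ]
      linarith

private theorem MainCt_pow3 {k J M : ℕ} (hJk : 4 * J < k) (hM : M ≤ k) :
    16 * ((J : ℝ) * M) ≤ 128 ^ k := by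
  have h1 : 16 * (J * M) ≤ 4 * (k * k) := by
    have h2 : (4 * J) * M ≤ k * k := Nat.mul_le_mul hJk.le hM
    nlinarith
  have h3 : ∀ m : ℕ, 4 * (m * m) ≤ 128 ^ m := by
    intro m
    induction m with
    | zero => norm_num
    | succ m ih =>
        rw [pow_succ]
        have h4 : 1 ≤ 128 ^ m := Nat.one_le_pow _ _ (by norm_num)
        nlinarith
  have h5 : 16 * (J * M) ≤ 128 ^ k := h1.trans (h3 k)
  exact_mod_cast h5

private theorem MainCt_abs {k : ℕ} (hk : 1 ≤ k) {f : ℕ → ℝ} (hf : Good k f) :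
    ∃ C1 : ℝ, 0 ≤ C1 ∧ ∀ x : ℕ, |f x| ≤ C1 + 2 * (x : ℝ) ^ k := by
  obtain ⟨x0, hx0⟩ := (Metric.tendsto_atTop.1 (good_lim hk hf)) 1 one_pos
  refine ⟨∑ i ∈ Finset.range (x0 + 1), |f i|, Finset.sum_nonneg fun i _ => abs_nonneg _, ?_⟩
  intro x
  have hs0 : 0 ≤ ∑ i ∈ Finset.range (x0 + 1), |f i| := Finset.sum_nonneg fun i _ => abs_nonneg _
  rcases lt_or_ge x (x0 + 1) with h | h
  · have h1 : |f x| ≤ ∑ i ∈ Finset.range (x0 + 1), |f i| :=
      Finset.single_le_sum (f := fun i => |f i|) (fun i _ => abs_nonneg _) (Finset.mem_range.2 h)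
    have h2 : 0 ≤ 2 * (x : ℝ) ^ k := by positivity
    linarith
  · have hx : 0 < (x : ℝ) := by
      have : 0 < x := by omega
      exact_mod_cast this
    have h1 := hx0 x (by omega)
    rw [Real.dist_eq] at h1
    have hun : 0 < (x : ℝ) ^ k := by positivity
    have h2 : |f x / (x : ℝ) ^ k| ≤ 2 := by
      calc |f x / (x : ℝ) ^ k| = |(f x / (x : ℝ) ^ k - 1) + 1| := by ring_nf
        _ ≤ |f x / (x : ℝ) ^ k - 1| + |(1 : ℝ)| := abs_add_le _ _
        _ ≤ 2 := by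
            rw [abs_one]
            linarith
    rw [abs_div, abs_of_pos hun, div_le_iff₀ hun] at h2
    linarith

private theorem MainCt_letter {k J M L l r : ℕ} (hk : 5 ≤ k) (hl : l < L)
    {b : Fin J × Fin M → ℕ} (hb : b ∈ Bk k J M l r) (p : Fin J × Fin M) :
    ((b p : ℕ) : ℝ) ≤ XX r / 128 := by
  unfold Bk at hb
  rw [Fintype.mem_piFinset] at hb
  have h1 := (mem_blk (hb p)).2
  have h2 := be_bounds (M := M) (L := L) hl p.2.2
  have hQ := QQ_one_le (k := k) (by omega) r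
  have h3 : QQ k r ^ (k - 1 - lv k M (p.1 : ℕ)) ≤ XX r := by
    rw [← QQ_pow (k := k) (by omega) r]
    exact pow_le_pow_right₀ hQ (by omega)
  have h4 : 0 ≤ QQ k r ^ (k - 1 - lv k M (p.1 : ℕ)) := by positivity
  have h5 : 0 ≤ be M l (p.2 : ℕ) := h2.2.1.le.trans h2.1
  calc ((b p : ℕ) : ℝ) ≤ 2 * (be M l (p.2 : ℕ) * QQ k r ^ (k - 1 - lv k M (p.1 : ℕ))) := h1
    _ ≤ 2 * ((1 / 256) * XX r) := by
        apply mul_le_mul_of_nonneg_left _ (by norm_num)
        exact mul_le_mul h2.2.2 h3 h4 (by norm_num)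
    _ = XX r / 128 := by ring

private theorem MainCt_bulk {k J M L l r : ℕ} (hk : 5 ≤ k) (hJk : 4 * J < k) (hM : M ≤ k)
    (hl : l < L) {f : ℕ → ℝ} {C1 : ℝ} (hC1 : ∀ x : ℕ, |f x| ≤ C1 + 2 * (x : ℝ) ^ k)
    (hr : 8 * (((J : ℝ) * M) * C1) ≤ (XX r) ^ k)
    {b : Fin J × Fin M → ℕ} (hb : b ∈ Bk k J M l r) : |bsum f b| ≤ (XX r) ^ k / 4 := by
  have hX : 0 < XX r := XX_pos r
  have h1 : |bsum f b| ≤ ∑ p : Fin J × Fin M, (C1 + 2 * (XX r / 128) ^ k) := by
    unfold bsum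
    refine (Finset.abs_sum_le_sum_abs _ _).trans (Finset.sum_le_sum fun p _ => ?_)
    have h2 := MainCt_letter hk hl hb p
    have h3 : ((b p : ℕ) : ℝ) ^ k ≤ (XX r / 128) ^ k :=
      pow_le_pow_left₀ (Nat.cast_nonneg _) h2 k
    have h4 := hC1 (b p)
    linarith
  rw [Finset.sum_const, Finset.card_univ, Fintype.card_prod, Fintype.card_fin, Fintype.card_fin,
    nsmul_eq_mul] at h1
  push_cast at h1
  have h5 := MainCt_pow3 hJk hM
  have h6 : (XX r / 128) ^ k = XX r ^ k / 128 ^ k := div_pow _ _ _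
  have h7 : (0 : ℝ) < 128 ^ k := by positivity
  have h8 : 0 < XX r ^ k := by positivity
  have h9 : 16 * ((J : ℝ) * M) * (XX r ^ k / 128 ^ k) ≤ XX r ^ k := by
    rw [mul_div_assoc', div_le_iff₀ h7, mul_comm]
    exact mul_le_mul_of_nonneg_left h5 h8.le
  rw [h6] at h1
  have h10 : ((J : ℝ) * M) * (C1 + 2 * (XX r ^ k / 128 ^ k)) =
      ((J : ℝ) * M) * C1 + (16 * ((J : ℝ) * M) * (XX r ^ k / 128 ^ k)) / 8 := by ring
  rw [h10] at h1
  linarith

private theorem MainCt_count {k n J M l r : ℕ} {f : ℕ → ℝ} {Y H K G0 : ℝ} (hK : 0 ≤ K)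
    {G : List (ℕ × ℕ) → Prop} (hG : G0 ≤ cnt k J0 n (XX r) G)
    (h : ∀ b ∈ Bk k J M l r, ∀ v ∈ J1 (XX r), ∀ w' ∈ chain k J0 n (XX r), G w' →
      K ≤ cnt k J0 n (XX r) (fun w => |val f (fun _ => 0) w -
        (Y - val f (fun _ => 0) w' - f v - bsum f b)| ≤ H)) :
    ((Bk k J M l r).card : ℝ) * (((J1 (XX r)).card : ℝ) * (G0 * K)) ≤
      ((open Classical in ((Zs k n r ×ˢ Bk k J M l r).filter fun x =>
          |zsum f x.1 + bsum f x.2 - Y| ≤ H).card : ℕ) : ℝ) := by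
  classical
  unfold Zs
  have hcf : ((((((chain k J0 n (XX r) ×ˢ chain k J0 n (XX r)) ×ˢ J1 (XX r)) ×ˢ
      Bk k J M l r).filter fun x => |zsum f x.1 + bsum f x.2 - Y| ≤ H).card : ℕ) : ℝ) =
      ∑ b ∈ Bk k J M l r, ∑ v ∈ J1 (XX r), ∑ w' ∈ chain k J0 n (XX r),
        ∑ w ∈ chain k J0 n (XX r),
          (if |zsum f ((w, w'), v) + bsum f b - Y| ≤ H then (1 : ℝ) else 0) := by
    rw [Finset.card_filter, Finset.sum_product_right]
    push_cast
    refine Finset.sum_congr rfl fun b _ => ?_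
    rw [Finset.sum_product_right]
    refine Finset.sum_congr rfl fun v _ => ?_
    rw [Finset.sum_product_right]
  have hgoal : ((Bk k J M l r).card : ℝ) * (((J1 (XX r)).card : ℝ) * (G0 * K)) ≤
      ∑ b ∈ Bk k J M l r, ∑ v ∈ J1 (XX r), ∑ w' ∈ chain k J0 n (XX r),
        ∑ w ∈ chain k J0 n (XX r),
          (if |zsum f ((w, w'), v) + bsum f b - Y| ≤ H then (1 : ℝ) else 0) := by
    have e : ((Bk k J M l r).card : ℝ) * (((J1 (XX r)).card : ℝ) * (G0 * K)) =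
        ∑ _b ∈ Bk k J M l r, ∑ _v ∈ J1 (XX r), G0 * K := by
      rw [Finset.sum_const, Finset.sum_const, nsmul_eq_mul, nsmul_eq_mul]
    rw [e]
    refine Finset.sum_le_sum fun b hb => Finset.sum_le_sum fun v hv => ?_
    have h1 : G0 * K ≤ ∑ w' ∈ (chain k J0 n (XX r)).filter G, K := by
      rw [Finset.sum_const, nsmul_eq_mul]
      refine mul_le_mul_of_nonneg_right ?_ hK
      refine hG.trans (le_of_eq ?_)
      unfold cnt
      congr!
    refine h1.trans ?_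
    have h2 : ∑ w' ∈ (chain k J0 n (XX r)).filter G, K ≤
        ∑ w' ∈ (chain k J0 n (XX r)).filter G, ∑ w ∈ chain k J0 n (XX r),
          (if |zsum f ((w, w'), v) + bsum f b - Y| ≤ H then (1 : ℝ) else 0) := by
      refine Finset.sum_le_sum fun w' hw' => ?_
      rw [Finset.mem_filter] at hw'
      refine (h b hb v hv w' hw'.1 hw'.2).trans (le_of_eq ?_)
      unfold cnt
      rw [Finset.card_filter]
      push_cast
      refine Finset.sum_congr rfl fun w _ => ?_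
      have e2 : zsum f ((w, w'), v) + bsum f b - Y = val f (fun _ => 0) w -
          (Y - val f (fun _ => 0) w' - f v - bsum f b) := by
        rw [chain_val (k := k) (n := n) (P := XX r) f, chain_val (k := k) (n := n) (P := XX r) f]
        unfold zsum
        ring
      rw [e2]
    refine h2.trans ?_
    refine Finset.sum_le_sum_of_subset_of_nonneg (Finset.filter_subset _ _) ?_
    intro w' _ _
    refine Finset.sum_nonneg fun w _ => ?_
    split_ifs <;> norm_num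
  refine hgoal.trans (le_of_eq ?_)
  rw [← hcf]

theorem main_ct {k n J M L u : ℕ} (hk : 5 ≤ k) (hn1 : 1 ≤ n)
    (hn : (k : ℝ) * (1 - 1 / (k : ℝ)) ^ n < u) (hu : u + 1 ≤ k) (hJk : 4 * J < k) (hM : M ≤ k)
    {f : ℕ → ℝ} (hf : Good k f) :
    ∃ c : ℝ, 0 < c ∧ ∀ᶠ r : ℕ in atTop, ∀ l : ℕ, l < L → ∀ Y : ℝ, 4 ^ k * (XX r) ^ k - 1 ≤ Y →
      Y ≤ 8 ^ k * (XX r) ^ k + 1 →
      c * sz k n J M l r * (XX r) ^ u ≤
        ((open Classical in ((Zs k n r ×ˢ Bk k J M l r).filter fun x =>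
          |zsum f x.1 + bsum f x.2 - Y| ≤ (XX r) ^ u / 2).card : ℕ) : ℝ) := by
  classical
  have hk2 : 2 ≤ k := by omega
  have hk1 : 1 ≤ k := by omega
  obtain ⟨c1, C0, P1, hc1, hC0, hP1, hML⟩ := lemML hk2 hf (side_J0 k) n
  obtain ⟨c2, P2, hc2, hP2, hSH⟩ := smallHead hk2 hf (side_J0 k) hn1
  obtain ⟨Ps, hside⟩ := side_J1 hk2 hf
  obtain ⟨Ca, hCa, hth⟩ := nxt_iter_pow_le hk1 n
  obtain ⟨C1, hC1, habs⟩ := MainCt_abs hk1 hf
  refine ⟨c1 * c2 / 2, by positivity, ?_⟩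
  have hXk : Tendsto (fun r : ℕ => (XX r) ^ k) atTop atTop :=
    (tendsto_pow_atTop (by omega)).comp XX_tendsto
  filter_upwards [XX_tendsto.eventually_ge_atTop P1, XX_tendsto.eventually_ge_atTop P2,
    XX_tendsto.eventually_ge_atTop Ps, hXk.eventually_ge_atTop (8 * (((J : ℝ) * M) * C1)),
    hXk.eventually_ge_atTop 2,
    eventually_rpow_le (C := 2 * (C0 * Ca)) (A := (k : ℝ) * (1 - 1 / (k : ℝ)) ^ n)
      (B := (u : ℝ)) hn] with r hr1 hr2 hr3 hr4 hr5 hr6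
  intro l hl Y hY1 hY2
  have hX1 := XX_ge_one r
  have hX0 := XX_pos r
  have hXk0 : 0 < XX r ^ k := by positivity
  have hXu0 : 0 < XX r ^ u := by positivity
  have hT : 0 ≤ tot k J0 n (XX r) := tot_nonneg _ _ _ _
  have hHk : XX r ^ u / 2 ≤ XX r ^ k := by
    have h1 : XX r ^ u ≤ XX r ^ k := pow_le_pow_right₀ hX1 (by omega)
    linarith
  have hHθ : C0 * ((nxt k)^[n] (XX r)) ^ k ≤ XX r ^ u / 2 := by
    have h1 : C0 * ((nxt k)^[n] (XX r)) ^ k ≤
        C0 * (Ca * XX r ^ ((k : ℝ) * (1 - 1 / (k : ℝ)) ^ n)) :=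
      mul_le_mul_of_nonneg_left (hth _ hX1) (by linarith)
    rw [Real.rpow_natCast] at hr6
    have h2 : 2 * (C0 * Ca) * XX r ^ ((k : ℝ) * (1 - 1 / (k : ℝ)) ^ n) =
        2 * (C0 * (Ca * XX r ^ ((k : ℝ) * (1 - 1 / (k : ℝ)) ^ n))) := by ring
    rw [h2] at hr6
    linarith
  have hp1 := mul_le_mul_of_nonneg_right (MainCt_pow1 hk) hXk0.le
  have hp2 := mul_le_mul_of_nonneg_right (MainCt_pow2 hk) hXk0.le
  have hlow := MainCt_count (k := k) (n := n) (J := J) (M := M) (l := l) (r := r) (f := f)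
    (Y := Y) (H := XX r ^ u / 2)
    (K := c1 * tot k J0 n (XX r) * (XX r ^ u / 2) / XX r ^ k)
    (G0 := c2 * tot k J0 n (XX r))
    (G := fun w => |val f (fun _ => 0) w| ≤ (2 ^ k + 1) * XX r ^ k) (by positivity)
    (hSH (XX r) hr2) (by
      intro b hb v hv w' _ hw'
      have hb1 := abs_le.1 (MainCt_bulk hk hJk hM hl habs hr4 hb)
      have hv1 := abs_le.1 ((hside (XX r) hr3).2 v hv)
      have hw1 := abs_le.1 hw'
      refine hML (XX r) hr1 (Y - val f (fun _ => 0) w' - f v - bsum f b) ?_ ?_ _ hHθ hHk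
      · nlinarith [hb1.2, hv1.2, hw1.2]
      · nlinarith [hb1.1, hv1.1, hw1.1])
  refine le_trans (le_of_eq ?_) hlow
  unfold sz Zs
  rw [Finset.card_product, Finset.card_product]
  push_cast
  unfold tot
  ring

end KWar
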