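import Pool.Agent.KWar.Kernel
import Pool.Agent.KWar.LowFreq
import Pool.Agent.KWar.MainCt
import Pool.Agent.KWar.BkSize

/-!
# KWar.LowAsm: if the target is not approximated, the middle frequencies are large

PROOF. Let `C`, `K'` be given by `kernel (k+2)`, `K r = K' (P^u)`, `P = XX r` (`P^u ≥ 1`). Given `g`, let
`f x = x^k + g.eval x`, a `Good k` function. `main_ct` (`M ≤ k` by `c7`: `q M ≤ k`) gives `c`; use
`low_freq` and `tail_freq` with `η = c/4`. For `l < L` and `Y` as in the statement, `kernel` for the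
set `Zs ×ˢ Bk` (type `Zt × (Fin J × Fin M → ℕ)`), `S x = zsum f x.1 + bsum f x.2`, `H = P^u`, and
`main_ct` give
`c sz ≤ ‖∫ K ee(-θY) ∑_x ee (θ S x)‖`, and `∑_x ee (θ S x) = FZ FB` (`ee_add`, `Finset.sum_mul_sum`,
`Finset.sum_product`). The real line is the disjoint union of `{|θ| ≤ (P^u)⁻¹}`, `TT r h` (`h ≤ u`) and
`{P < |θ|}`; the integrand is integrable (bounded by `C #Zs #Bk` and by `C |θ|^(-(k+2)) #Zs #Bk`). So
`c sz ≤ (c/4) sz + ∑_h ‖M2_h‖ + (c/4) sz`; divide by `sz > 0` (`sz_pos`): the claim holds with `c/2`.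
(The integral over a set and its complement: `MeasureTheory.integral_add_compl`; e.g. remove the
sets `{|θ| > P}`, `TT r 0`, `TT r 1`, ... one after the other, by induction on `h` with
`{|θ| ≤ P/P^h} = TT r h ∪ {|θ| ≤ P/P^(h+1)}`.)
-/

namespace KWar

open Filter Topology MeasureTheory MWg

private theorem LowAsm_good {k : ℕ} (hk : 2 ≤ k) {g : Polynomial ℝ} (hg : g.natDegree < k) :
    Good k (fun x : ℕ => (x : ℝ) ^ k + g.eval (x : ℝ)) := by
  have h : ∀ m : ℕ, m ≤ k → Good k (fun x : ℕ => (x : ℝ) ^ k +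
      ∑ i ∈ Finset.range m, g.coeff i * (x : ℝ) ^ i) := by
    intro m
    induction m with
    | zero =>
      intro _
      simpa using good_pow (by omega : 1 ≤ k)
    | succ m ih =>
      intro hm
      have h1 := good_add_pow (by omega : m < k) (ih (by omega)) (g.coeff m)
      have h2 : (fun x : ℕ => (x : ℝ) ^ k + ∑ i ∈ Finset.range (m + 1), g.coeff i * (x : ℝ) ^ i) =
          (fun x : ℕ => (x : ℝ) ^ k + ∑ i ∈ Finset.range m, g.coeff i * (x : ℝ) ^ i +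
            g.coeff m * (x : ℝ) ^ m) := by
        funext x
        rw [Finset.sum_range_succ]
        ring
      rw [h2]
      exact h1
  have h3 : (fun x : ℕ => (x : ℝ) ^ k + g.eval (x : ℝ)) = (fun x : ℕ => (x : ℝ) ^ k +
      ∑ i ∈ Finset.range k, g.coeff i * (x : ℝ) ^ i) := by
    funext x
    rw [Polynomial.eval_eq_sum_range' hg]
  rw [h3]
  exact h k le_rfl


private theorem LowAsm_sum (k n J M l r : ℕ) (f : ℕ → ℝ) (θ : ℝ) :
    ∑ x ∈ Zs k n r ×ˢ Bk k J M l r, ee (θ * (zsum f x.1 + bsum f x.2)) =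
      FZ k n r f θ * FB k J M l r f θ := by
  unfold FZ FB
  rw [Finset.sum_product, Finset.sum_mul_sum]
  refine Finset.sum_congr rfl fun z _ => Finset.sum_congr rfl fun b _ => ?_
  rw [mul_add, ee_add]

private theorem LowAsm_int {k n J M l r : ℕ} {f : ℕ → ℝ} {Y C : ℝ} {K : ℝ → ℂ}
    (hK : Continuous K) (hK1 : ∀ θ, ‖K θ‖ ≤ C) (hK3 : ∀ θ, |θ| ^ (k + 2) * ‖K θ‖ ≤ C) :
    Integrable fun θ : ℝ => K θ * ee (-(θ * Y)) * FZ k n r f θ * FB k J M l r f θ := by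
  have hC0 : 0 ≤ C := (norm_nonneg _).trans (hK1 0)
  have hcont : Continuous fun θ : ℝ => K θ * ee (-(θ * Y)) * FZ k n r f θ * FB k J M l r f θ :=
    ((hK.mul (ee_cont.comp (continuous_id.mul continuous_const).neg)).mul
      (FZ_cont k n r f)).mul (FB_cont k J M l r f)
  refine (integrable_inv_one_add_sq.const_mul
    (2 * C * (((Zs k n r).card : ℝ) * ((Bk k J M l r).card : ℝ)))).mono'
    hcont.aestronglyMeasurable (Eventually.of_forall fun θ => ?_)
  rw [norm_mul, norm_mul, norm_mul, ee_norm, mul_one]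
  have h2 : ‖FZ k n r f θ‖ * ‖FB k J M l r f θ‖ ≤
      ((Zs k n r).card : ℝ) * ((Bk k J M l r).card : ℝ) :=
    mul_le_mul (FZ_norm k n r f θ) (FB_norm k J M l r f θ) (norm_nonneg _) (Nat.cast_nonneg _)
  have h3 : θ ^ 2 * ‖K θ‖ ≤ C := by
    rcases le_total |θ| 1 with h | h
    · have : θ ^ 2 ≤ 1 := by
        rw [← sq_abs]
        exact pow_le_one₀ (abs_nonneg _) h
      calc θ ^ 2 * ‖K θ‖ ≤ 1 * ‖K θ‖ := mul_le_mul_of_nonneg_right this (norm_nonneg _)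
        _ ≤ C := by rw [one_mul]; exact hK1 θ
    · have : θ ^ 2 ≤ |θ| ^ (k + 2) := by
        rw [← sq_abs]
        exact pow_le_pow_right₀ h (by omega)
      exact (mul_le_mul_of_nonneg_right this (norm_nonneg _)).trans (hK3 θ)
  have h4 : ‖K θ‖ ≤ 2 * C * (1 + θ ^ 2)⁻¹ := by
    rw [← div_eq_mul_inv, le_div_iff₀ (by positivity)]
    have := hK1 θ
    nlinarith
  calc ‖K θ‖ * ‖FZ k n r f θ‖ * ‖FB k J M l r f θ‖
      = ‖K θ‖ * (‖FZ k n r f θ‖ * ‖FB k J M l r f θ‖) := by ring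
    _ ≤ (2 * C * (1 + θ ^ 2)⁻¹) * (((Zs k n r).card : ℝ) * ((Bk k J M l r).card : ℝ)) :=
        mul_le_mul h4 h2 (by positivity) (by positivity)
    _ = _ := by ring

private theorem LowAsm_meas (a : ℝ) : MeasurableSet {θ : ℝ | |θ| ≤ a} :=
  measurableSet_le continuous_abs.measurable measurable_const

private theorem LowAsm_split {F : ℝ → ℂ} (hF : Integrable F) (r m : ℕ) :
    ∫ θ in {θ : ℝ | |θ| ≤ XX r}, F θ =
      (∑ h ∈ Finset.range m, ∫ θ in TT r h, F θ) +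
        (∫ θ in {θ : ℝ | |θ| ≤ XX r / (XX r) ^ m}, F θ) := by
  have hP : 0 < XX r := zero_lt_one.trans_le (XX_one r)
  induction m with
  | zero => simp
  | succ m ih =>
    rw [ih, Finset.sum_range_succ]
    have e1 : XX r / (XX r) ^ (m + 1) = ((XX r) ^ m)⁻¹ := by
      rw [pow_succ]
      field_simp
    have e2 : {θ : ℝ | |θ| ≤ XX r / (XX r) ^ m} = TT r m ∪ {θ : ℝ | |θ| ≤ ((XX r) ^ m)⁻¹} := by
      ext θ
      simp only [TT, Set.mem_ofPred_eq, Set.mem_union]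
      constructor
      · intro h
        rcases lt_or_ge ((XX r) ^ m)⁻¹ |θ| with h' | h'
        · exact Or.inl ⟨h', h⟩
        · exact Or.inr h'
      · rintro (h | h)
        · exact h.2
        · refine h.trans ?_
          rw [div_eq_mul_inv]
          exact le_mul_of_one_le_left (by positivity) (XX_one r)
    have e3 : Disjoint (TT r m) {θ : ℝ | |θ| ≤ ((XX r) ^ m)⁻¹} := by
      rw [Set.disjoint_left]
      intro θ h h'
      exact absurd h.1 (not_lt.2 h')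
    rw [e1, e2, setIntegral_union e3 (LowAsm_meas _) hF.integrableOn hF.integrableOn]
    ring

private theorem LowAsm_total {F : ℝ → ℂ} (hF : Integrable F) (r u : ℕ) :
    ∫ θ, F θ = ((∑ h ∈ Finset.range (u + 1), ∫ θ in TT r h, F θ) +
      (∫ θ in {θ : ℝ | |θ| ≤ ((XX r) ^ u)⁻¹}, F θ)) + (∫ θ in {θ : ℝ | XX r < |θ|}, F θ) := by
  have hP : 0 < XX r := zero_lt_one.trans_le (XX_one r)
  have e1 : XX r / (XX r) ^ (u + 1) = ((XX r) ^ u)⁻¹ := by
    rw [pow_succ]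
    field_simp
  have e2 : {θ : ℝ | XX r < |θ|} = {θ : ℝ | |θ| ≤ XX r}ᶜ := by
    ext θ
    simp
  rw [← integral_add_compl (LowAsm_meas (XX r)) hF, LowAsm_split hF r (u + 1), e1, e2]

theorem low_asm {k d : ℕ} (p : Par k d) {ε : ℝ} (hε : 0 < ε) (hε1 : ε ≤ 1) :
    ∃ (C : ℝ) (K : ℕ → ℝ → ℂ), 0 < C ∧ (∀ r, Continuous (K r)) ∧ (∀ r θ, ‖K r θ‖ ≤ C) ∧
      ∀ g : Polynomial ℝ, g.natDegree < k → FWar.Dioph (g.coeff (k - 1)) →
      ∃ c : ℝ, 0 < c ∧ ∀ᶠ r : ℕ in atTop, ∀ l : ℕ, l < p.L → ∀ Y : ℝ,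
        4 ^ k * (XX r) ^ k - 1 ≤ Y → Y ≤ 8 ^ k * (XX r) ^ k + 1 →
        (∀ z ∈ Zs k p.n r, ∀ b ∈ Bk k p.J p.M l r,
          ε ≤ |zsum (fun x => (x : ℝ) ^ k + g.eval (x : ℝ)) z +
            bsum (fun x => (x : ℝ) ^ k + g.eval (x : ℝ)) b - Y|) →
        c ≤ ∑ h ∈ Finset.range (p.u + 1), ‖M2 (K r) k p.n p.J p.M l r h
          (fun x => (x : ℝ) ^ k + g.eval (x : ℝ)) Y‖ / sz k p.n p.J p.M l r := by
  obtain ⟨C, K', hC, hKc, hKb, hker⟩ := kernel (k + 2) hε hε1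
  have hH : ∀ r : ℕ, 1 ≤ (XX r) ^ p.u := fun r => one_le_pow₀ (XX_one r)
  refine ⟨C, fun r => K' ((XX r) ^ p.u), hC, fun r => hKc _, fun r θ => (hKb _ θ (hH r)).1, ?_⟩
  intro g hg hD
  have hk2 : 2 ≤ k := by have := p.hk; omega
  have hM : p.M ≤ k := by
    have h1 := p.c7
    have h2 : 1 * p.M ≤ p.q * p.M := Nat.mul_le_mul_right _ p.hq
    omega
  obtain ⟨c, hc, hmain⟩ := main_ct (L := p.L) (by have := p.hk; omega) p.hn1 p.hn p.hu
    (show 4 * p.J < k by have := p.hJk; omega) hM (LowAsm_good hk2 hg)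
  have hlow := low_freq hk2 p.hn p.hu p.J p.M hg hD (C := C) (fun r => K' ((XX r) ^ p.u))
    (fun r => hKc _) (fun r θ => (hKb _ θ (hH r)).1) (fun r θ => (hKb _ θ (hH r)).2.1)
    (η := c / 4) (by positivity)
  have htail := tail_freq k p.n p.J p.M (C := C) (fun r => K' ((XX r) ^ p.u))
    (fun r => hKc _) (fun r θ => (hKb _ θ (hH r)).2.2) (η := c / 4) (by positivity)
  refine ⟨c / 2, by positivity, ?_⟩
  filter_upwards [hmain, hlow, htail,
    sz_pos (k := k) (n := p.n) (J := p.J) (M := p.M) (L := p.L) hk2 p.hJk] with r h1 h2 h3 h4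
  intro l hl Y hY1 hY2 happ
  set f : ℕ → ℝ := fun x => (x : ℝ) ^ k + g.eval (x : ℝ) with hf
  have hsz := (h4 l hl).1
  have m1 := h1 l hl Y hY1 hY2
  have m2 := h2 l Y
  have m3 := h3 f l Y
  have m4 := hker (Zt × (Fin p.J × Fin p.M → ℕ)) (Zs k p.n r ×ˢ Bk k p.J p.M l r)
    (fun x => zsum f x.1 + bsum f x.2) Y ((XX r) ^ p.u) (hH r) (fun x hx => by
      rw [Finset.mem_product] at hx
      exact happ x.1 hx.1 x.2 hx.2)
  have hXu : 0 < (XX r) ^ p.u := zero_lt_one.trans_le (hH r)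
  have m5 : c * sz k p.n p.J p.M l r ≤ ‖∫ θ : ℝ, K' ((XX r) ^ p.u) θ * ee (-(θ * Y)) *
      FZ k p.n r f θ * FB k p.J p.M l r f θ‖ := by
    have e : (fun θ : ℝ => K' ((XX r) ^ p.u) θ * ee (-(θ * Y)) *
        FZ k p.n r f θ * FB k p.J p.M l r f θ) = fun θ : ℝ => K' ((XX r) ^ p.u) θ *
          ee (-(θ * Y)) * ∑ x ∈ Zs k p.n r ×ˢ Bk k p.J p.M l r,
            ee (θ * (zsum f x.1 + bsum f x.2)) := by
      funext θ
      rw [LowAsm_sum]
      ring
    rw [e]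
    refine le_trans ?_ m4
    rw [le_div_iff₀ hXu]
    exact m1
  have hint : Integrable fun θ : ℝ => K' ((XX r) ^ p.u) θ * ee (-(θ * Y)) *
      FZ k p.n r f θ * FB k p.J p.M l r f θ :=
    LowAsm_int (hKc _) (fun θ => (hKb _ θ (hH r)).1) (fun θ => (hKb _ θ (hH r)).2.2)
  rw [LowAsm_total hint r p.u] at m5
  have m6 : c * sz k p.n p.J p.M l r ≤
      ∑ h ∈ Finset.range (p.u + 1), ‖M2 (K' ((XX r) ^ p.u)) k p.n p.J p.M l r h f Y‖ +
        c / 4 * sz k p.n p.J p.M l r + c / 4 * sz k p.n p.J p.M l r := by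
    refine m5.trans ((norm_add_le _ _).trans (add_le_add ((norm_add_le _ _).trans
      (add_le_add ((norm_sum_le _ _).trans (le_of_eq rfl)) m2)) m3))
  rw [← Finset.sum_div, le_div_iff₀ hsz]
  linarith

end KWar
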