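import Pool.Agent.KWar.Defs

/-!
# KWar.ParG: existence of parameters

`par_g`: `q = a`, `M = 8 a`, `J = ⌊k (2a+5)/(16 a²)⌋ + 1`, `gp = ⌊k/(16 a)⌋`, `m1 = k - 8a² - 3a`,
`m0 = k - 24a² - 17a`, `u = k - v`, `v = 4 (J + gp) + 24a² + 17a + 3`, `n = (3v+1)/2`: with
`30 a²` random coefficients `k + 7 k / a` summands suffice, if `a ≥ 3` and `k ≥ 100 a³`.
`par_h`: `q = 1`, `M = 30`: with 144 random coefficients `4 k` summands suffice, if `k ≥ 10^4`.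
-/

namespace KWar

theorem par_hn {k v U : ℕ} (hv : 1 ≤ v) (hvk : 2 * v ≤ k) (hU : k = U + v) :
    (k : ℝ) * (1 - 1 / (k : ℝ)) ^ ((3 * v + 1) / 2) < U := by
  have hk0 : (0 : ℝ) < k := by exact_mod_cast (by omega : 0 < k)
  have hk1 : (1 : ℝ) ≤ k := by exact_mod_cast (by omega : 1 ≤ k)
  have hUR : (U : ℝ) = k - v := by
    have : (k : ℝ) = U + v := by exact_mod_cast hU
    linarith
  set n : ℕ := (3 * v + 1) / 2 with hn
  have hnR : 3 * (v : ℝ) ≤ 2 * n := by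
    have : 3 * v ≤ 2 * n := by omega
    exact_mod_cast this
  obtain ⟨x, hx⟩ : ∃ x : ℝ, x = (v : ℝ) / k := ⟨_, rfl⟩
  have hx0 : 0 < x := by
    rw [hx]
    exact div_pos (by exact_mod_cast hv) hk0
  have hx2 : x ≤ 1 / 2 := by
    rw [hx, div_le_iff₀ hk0]
    have : 2 * (v : ℝ) ≤ k := by exact_mod_cast hvk
    linarith
  have hvx : (v : ℝ) = x * k := by
    rw [hx]
    field_simp
  have h1 : (1 - 1 / (k : ℝ)) ^ n ≤ Real.exp (-(3 / 2 * x)) := by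
    have e1 : 1 - 1 / (k : ℝ) ≤ Real.exp (-(1 / (k : ℝ))) := Real.one_sub_le_exp_neg _
    have e2 : 0 ≤ 1 - 1 / (k : ℝ) := by
      rw [sub_nonneg, div_le_one hk0]
      exact hk1
    calc (1 - 1 / (k : ℝ)) ^ n ≤ (Real.exp (-(1 / (k : ℝ)))) ^ n := pow_le_pow_left₀ e2 e1 n
      _ = Real.exp ((n : ℝ) * (-(1 / (k : ℝ)))) := (Real.exp_nat_mul _ _).symm
      _ ≤ Real.exp (-(3 / 2 * x)) := by
        apply Real.exp_le_exp.2
        rw [hx]
        have e3 : 3 / 2 * ((v : ℝ) / k) ≤ n * (1 / (k : ℝ)) := by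
          rw [mul_div_assoc', mul_one_div]
          apply div_le_div_of_nonneg_right _ hk0.le
          linarith
        linarith
  have h2 := Real.quadratic_le_exp_of_nonneg (show 0 ≤ 3 / 2 * x by linarith)
  obtain ⟨E, hE⟩ : ∃ E, E = Real.exp (3 / 2 * x) := ⟨_, rfl⟩
  rw [← hE] at h2
  have hE0 : 0 < E := by rw [hE]; exact Real.exp_pos _
  rw [Real.exp_neg, ← hE] at h1
  have h3 : 1 < (1 - x) * E := by
    have e1 : (1 - x) * (1 + 3 / 2 * x + (3 / 2 * x) ^ 2 / 2) ≤ (1 - x) * E :=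
      mul_le_mul_of_nonneg_left h2 (by linarith)
    have e2 : 1 < (1 - x) * (1 + 3 / 2 * x + (3 / 2 * x) ^ 2 / 2) := by
      have e3 : (1 - x) * (1 + 3 / 2 * x + (3 / 2 * x) ^ 2 / 2) =
          1 + x * (1 / 2 - 3 / 8 * x - 9 / 8 * x ^ 2) := by ring
      have e4 : 0 < 1 / 2 - 3 / 8 * x - 9 / 8 * x ^ 2 := by nlinarith
      rw [e3]
      have := mul_pos hx0 e4
      linarith
    linarith
  have h4 : (1 - 1 / (k : ℝ)) ^ n < 1 - x := by
    refine lt_of_le_of_lt h1 ?_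
    rw [inv_lt_iff_one_lt_mul₀ hE0, mul_comm]
    rw [mul_comm] at h3
    linarith
  calc (k : ℝ) * (1 - 1 / (k : ℝ)) ^ n < k * (1 - x) := mul_lt_mul_of_pos_left h4 hk0
    _ = U := by rw [hUR, hvx]; ring

theorem par_g {a k d : ℕ} (ha : 3 ≤ a) (hk : 100 * a ^ 3 ≤ k) (hd : d ≤ k)
    (hda : 30 * a ^ 2 ≤ d) :
    ∃ p : Par k d, a * p.s ≤ a * k + 7 * k ∧ 3 * ((p.u + 1) * (p.q - 1)) < p.L := by
  have ha0 : 0 < a := by omega
  obtain ⟨J', hJ'⟩ : ∃ J', J' = k * (2 * a + 5) / (16 * a ^ 2) := ⟨_, rfl⟩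
  have h16 : 0 < 16 * a ^ 2 := by positivity
  have j1 : 16 * a ^ 2 * J' ≤ k * (2 * a + 5) := by
    rw [hJ']; exact Nat.mul_div_le _ _
  have j2 : k * (2 * a + 5) + 1 ≤ 16 * a ^ 2 * (J' + 1) := by
    rw [hJ']; exact Nat.lt_mul_div_succ _ h16
  obtain ⟨G, hG⟩ : ∃ G, G = gp k (8 * a) := ⟨_, rfl⟩
  have h16a : 0 < 2 * (8 * a) := by omega
  have g1 : 16 * a * G ≤ k := by
    have : 2 * (8 * a) * G ≤ k := by
      rw [hG]; unfold gp; exact Nat.mul_div_le _ _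
    calc 16 * a * G = 2 * (8 * a) * G := by ring
      _ ≤ k := this
  have g2 : k + 1 ≤ 16 * a * (G + 1) := by
    have : k + 1 ≤ 2 * (8 * a) * (G + 1) := by
      rw [hG]; unfold gp; exact Nat.lt_mul_div_succ _ h16a
    calc k + 1 ≤ 2 * (8 * a) * (G + 1) := this
      _ = 16 * a * (G + 1) := by ring
  obtain ⟨v, hv⟩ : ∃ v, v = 4 * (J' + 1 + G) + (24 * a ^ 2 + 17 * a) + 3 := ⟨_, rfl⟩
  -- integer versions
  have haZ : (3 : ℤ) ≤ a := by exact_mod_cast ha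
  have hkZ : 100 * (a : ℤ) ^ 3 ≤ k := by exact_mod_cast hk
  have j1Z : 16 * (a : ℤ) ^ 2 * J' ≤ k * (2 * a + 5) := by exact_mod_cast j1
  have j2Z : (k : ℤ) * (2 * a + 5) + 1 ≤ 16 * (a : ℤ) ^ 2 * (J' + 1) := by exact_mod_cast j2
  have g1Z : 16 * (a : ℤ) * G ≤ k := by exact_mod_cast g1
  have g2Z : (k : ℤ) + 1 ≤ 16 * (a : ℤ) * (G + 1) := by exact_mod_cast g2
  have hvZ : (v : ℤ) = 4 * (J' + 1 + G) + (24 * (a : ℤ) ^ 2 + 17 * a) + 3 := by exact_mod_cast hv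
  have hJZ : (0 : ℤ) ≤ J' := Int.natCast_nonneg _
  have hGZ : (0 : ℤ) ≤ G := Int.natCast_nonneg _
  obtain ⟨x, hx⟩ : ∃ x : ℤ, (a : ℤ) = 3 + x := ⟨a - 3, by ring⟩
  have hx0 : 0 ≤ x := by linarith
  have hA2 : 3 * (a : ℤ) ≤ (a : ℤ) ^ 2 := by
    rw [pow_two]
    exact mul_le_mul_of_nonneg_right haZ (by linarith)
  have hA3 : 3 * (a : ℤ) ^ 2 ≤ (a : ℤ) ^ 3 := by
    have h : (a : ℤ) ^ 3 = a * (a : ℤ) ^ 2 := by ring
    rw [h]
    exact mul_le_mul_of_nonneg_right haZ (by positivity)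
  have ha2pos : (0 : ℤ) < (a : ℤ) ^ 2 := by positivity
  -- `4 a² v ≤ k (3a+5) + 4a² (24a² + 17a + 7)`
  have v1 : 4 * (a : ℤ) ^ 2 * v ≤ k * (3 * a + 5) + 4 * (a : ℤ) ^ 2 * (24 * (a : ℤ) ^ 2 + 17 * a + 7) := by
    rw [hvZ]
    have e1 : (a : ℤ) * (16 * (a : ℤ) * G) ≤ a * k := mul_le_mul_of_nonneg_left g1Z (by linarith)
    linarith
  -- `2 v ≤ k`
  have v2 : 2 * (v : ℤ) ≤ k := by
    have e1 : 4 * (a : ℤ) ^ 2 * (24 * (a : ℤ) ^ 2 + 17 * a + 7) ≤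
        k * (2 * (a : ℤ) ^ 2 - 3 * a - 5) := by
      have e2 : 0 ≤ 2 * (a : ℤ) ^ 2 - 3 * a - 5 := by linarith
      have e3 : 100 * (a : ℤ) ^ 3 * (2 * (a : ℤ) ^ 2 - 3 * a - 5) ≤
          k * (2 * (a : ℤ) ^ 2 - 3 * a - 5) := mul_le_mul_of_nonneg_right hkZ e2
      refine le_trans ?_ e3
      rw [hx, ← sub_nonneg]
      ring_nf
      positivity
    have e4 : 4 * (a : ℤ) ^ 2 * v ≤ 2 * (a : ℤ) ^ 2 * k := by linarith
    have e5 : 2 * (a : ℤ) ^ 2 * (2 * v) ≤ 2 * (a : ℤ) ^ 2 * k := by linarith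
    exact le_of_mul_le_mul_left e5 (by positivity)
  have v2' : 2 * v ≤ k := by exact_mod_cast v2
  have hv1 : 1 ≤ v := by omega
  obtain ⟨U, hU⟩ : ∃ U, k = U + v := ⟨k - v, by omega⟩
  have hD0 : 8 * (24 * a ^ 2 + 17 * a) ≤ k := by
    zify
    have : 8 * (24 * (a : ℤ) ^ 2 + 17 * a) ≤ 100 * (a : ℤ) ^ 3 := by
      rw [hx, ← sub_nonneg]
      ring_nf
      positivity
    linarith
  obtain ⟨m0, hm0⟩ : ∃ m0, k = m0 + (24 * a ^ 2 + 17 * a) := ⟨k - (24 * a ^ 2 + 17 * a), by omega⟩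
  obtain ⟨m1, hm1⟩ : ∃ m1, k = m1 + (8 * a ^ 2 + 3 * a) := ⟨k - (8 * a ^ 2 + 3 * a), by omega⟩
  have hUZ : (k : ℤ) = U + v := by exact_mod_cast hU
  have hm0Z : (k : ℤ) = m0 + (24 * (a : ℤ) ^ 2 + 17 * a) := by exact_mod_cast hm0
  have hm1Z : (k : ℤ) = m1 + (8 * (a : ℤ) ^ 2 + 3 * a) := by exact_mod_cast hm1
  have h30 : 24 * a ^ 2 + 17 * a ≤ 30 * a ^ 2 := by
    zify
    linarith
  have hk35 : 35 ≤ k := by
    have : 3 ^ 3 ≤ a ^ 3 := Nat.pow_le_pow_left ha 3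
    omega
  have hN1 : ((k - 1 : ℕ) : ℤ) = (k : ℤ) - 1 := by
    rw [Nat.cast_sub (by omega)]
    simp
  refine ⟨{ q := a, M := 8 * a, J := J' + 1, L := 3 * ((U + 1) * (a - 1)) + 1,
            n := (3 * v + 1) / 2, u := U, m0 := m0, m1 := m1,
            hk := hk35
            hd := hd
            hq := ha0
            hM := by omega
            hJ := by omega
            hn1 := by omega
            hJk := by rw [← hG]; omega
            hL := by omega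
            hn := par_hn hv1 v2' hU
            hu := by omega
            c1 := by omega
            c1' := by omega
            c2 := ?_
            c3 := ?_
            c4 := by omega
            c5 := ?_
            c6 := ?_
            c7 := ?_
            c8 := ?_ }, ?_, ?_⟩
  · zify
    linarith
  · -- c3
    rw [← hG]
    have e1 : k - 1 - 4 * (J' + 1 + G) = (k - 1) - 4 * (J' + 1 + G) := rfl
    have e2 : 4 * (J' + 1 + G) ≤ k - 1 := by omega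
    have e3 : 1 ≤ m0 := by omega
    zify [e2, e3]
    rw [hN1]
    have e4 : (U : ℤ) = k - v := by linarith
    have e5 : (m0 : ℤ) = k - (24 * (a : ℤ) ^ 2 + 17 * a) := by linarith
    rw [e4, e5, hvZ]
    have e6 : 0 ≤ (4 * ((J' : ℤ) + 1 + G)) * (24 * (a : ℤ) ^ 2 + 17 * a) := by positivity
    have e7 : (35 : ℤ) ≤ k := by exact_mod_cast hk35
    linarith
  · -- c5
    rw [← hG]
    zify
    have e5 : (m0 : ℤ) = k - (24 * (a : ℤ) ^ 2 + 17 * a) := by linarith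
    have e6 : (m1 : ℤ) = k - (8 * (a : ℤ) ^ 2 + 3 * a) := by linarith
    rw [e5, e6]
    linarith
  · -- c6
    rw [← hG]
    zify
    rw [hN1]
    have e4 : (U : ℤ) = k - v := by linarith
    have e5 : (m0 : ℤ) = k - (24 * (a : ℤ) ^ 2 + 17 * a) := by linarith
    have e6 : (m1 : ℤ) = k - (8 * (a : ℤ) ^ 2 + 3 * a) := by linarith
    rw [e4, e5, e6, hvZ]
    obtain ⟨w, hw⟩ : ∃ w : ℤ, w = 4 * ((J' : ℤ) + 1 + G) := ⟨_, rfl⟩
    rw [← hw]
    have hw0 : 0 ≤ w := by rw [hw]; positivity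
    have e7 : (35 : ℤ) ≤ k := by exact_mod_cast hk35
    have e8 : 0 ≤ w * (8 * (a : ℤ) ^ 2 + 17 * a - 1) := by
      apply mul_nonneg hw0
      linarith
    have e9 : 0 ≤ ((k : ℤ) - 2) * (16 * (a : ℤ) ^ 2 + 14 * a + 1) := by
      apply mul_nonneg (by linarith)
      positivity
    linarith
  · zify
    linarith
  · -- c8
    rw [← hG]
    have e0 : 2 * k + 2 - m1 = k + 2 + (8 * a ^ 2 + 3 * a) := by omega
    rw [e0, Nat.add_sub_cancel]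
    zify
    rw [hN1]
    obtain ⟨j, hj⟩ : ∃ j : ℤ, (J' : ℤ) + 1 = j := ⟨_, rfl⟩
    have hJj : (J' : ℤ) = j - 1 := by linarith
    rw [hJj, sub_add_cancel]
    rw [hJj] at j1Z j2Z hJZ
    rw [sub_add_cancel] at j2Z
    obtain ⟨T, hT⟩ : ∃ T : ℤ, T = (k : ℤ) - 1 - 2 * j - 4 * G := ⟨_, rfl⟩
    have hj0 : 0 ≤ j := by linarith
    have e7 : (35 : ℤ) ≤ k := by exact_mod_cast hk35
    have hT0 : 0 ≤ T := by
      have := hvZ
      rw [hJj] at this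
      linarith
    have T8 : (k : ℤ) * (8 * (a : ℤ) ^ 2 - 4 * a - 5) - 24 * (a : ℤ) ^ 2 ≤ 8 * (a : ℤ) ^ 2 * T := by
      have e1 : 2 * (a : ℤ) * (16 * (a : ℤ) * G) ≤ 2 * a * k :=
        mul_le_mul_of_nonneg_left g1Z (by linarith)
      rw [hT]
      linarith
    have key1 : (k : ℤ) * (2 * a + 5) * T ≤ 16 * (a : ℤ) ^ 2 * j * T :=
      mul_le_mul_of_nonneg_right (by linarith) hT0
    have hka : 0 ≤ (k : ℤ) * (2 * a + 5) := by positivity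
    have key2 := mul_le_mul_of_nonneg_left T8 hka
    have key3 : 16 * (a : ℤ) ^ 2 * (a * (k + 2 + (8 * (a : ℤ) ^ 2 + 3 * a)) + k + 1) ≤
        (2 * a + 5) * (k * (8 * (a : ℤ) ^ 2 - 4 * a - 5) - 24 * (a : ℤ) ^ 2) := by
      have e1 : (0 : ℤ) ≤ 16 * (a : ℤ) ^ 2 - 30 * a - 25 := by linarith
      have e2 := mul_le_mul_of_nonneg_right hkZ e1
      have e3 : 24 * (a : ℤ) ^ 2 * (2 * a + 5) +
          16 * (a : ℤ) ^ 2 * (8 * (a : ℤ) ^ 3 + 3 * (a : ℤ) ^ 2 + 2 * a + 1) ≤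
          100 * (a : ℤ) ^ 3 * (16 * (a : ℤ) ^ 2 - 30 * a - 25) := by
        rw [hx, ← sub_nonneg]
        ring_nf
        positivity
      linarith
    have key4 := mul_le_mul_of_nonneg_left key3 (show (0 : ℤ) ≤ k by linarith)
    have key5 : 16 * (a : ℤ) ^ 2 * ((k : ℤ) * (a * (k + 2 + (8 * (a : ℤ) ^ 2 + 3 * a)) + k + 1)) ≤
        16 * (a : ℤ) ^ 2 * (8 * (a : ℤ) ^ 2 * (j * T)) := by
      have e1 := mul_le_mul_of_nonneg_left key1 (show (0 : ℤ) ≤ 8 * (a : ℤ) ^ 2 by positivity)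
      linarith
    have key6 := le_of_mul_le_mul_left key5 (by positivity)
    have e8 : (0 : ℤ) ≤ a * (k + 2 + (8 * (a : ℤ) ^ 2 + 3 * a)) + k + 1 := by positivity
    have e9 : (0 : ℤ) ≤ (a : ℤ) ^ 2 * (2 * j + 4 * G) := by positivity
    have e10 : (a : ℤ) * (8 * a) * (((k : ℤ) - 1) * j) -
        ((a : ℤ) * (8 * a) * (2 * j * (j - 1) + 4 * G * (j - 1))) =
        8 * (a : ℤ) ^ 2 * (j * T) + 8 * ((a : ℤ) ^ 2 * (2 * j + 4 * G)) := by
      rw [hT]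
      ring
    linarith
  · show a * (2 * ((3 * v + 1) / 2) + 1 + (J' + 1) * (8 * a)) ≤ a * k + 7 * k
    have e1 : 2 * ((3 * v + 1) / 2) ≤ 3 * v + 1 := by omega
    have e2 : a * (2 * ((3 * v + 1) / 2) + 1 + (J' + 1) * (8 * a)) ≤
        a * (3 * v + 1 + 1 + (J' + 1) * (8 * a)) := by
      apply Nat.mul_le_mul_left
      omega
    refine e2.trans ?_
    zify
    have e3 : (0 : ℤ) ≤ 18 * a - 30 := by linarith
    have e4 := mul_le_mul_of_nonneg_right hkZ e3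
    have e5 : 24 * (a : ℤ) ^ 2 * (24 * (a : ℤ) ^ 2 + 17 * a + 7) + 16 * (a : ℤ) ^ 2 +
        64 * (a : ℤ) ^ 3 ≤ 100 * (a : ℤ) ^ 3 * (18 * a - 30) := by
      rw [hx, ← sub_nonneg]
      ring_nf
      positivity
    have e6 : 4 * (a : ℤ) * (6 * a * v + 4 * a + 16 * (a : ℤ) ^ 2) ≤ 4 * a * (9 * k) := by
      linarith
    have e7 : 6 * (a : ℤ) * v + 4 * a + 16 * (a : ℤ) ^ 2 ≤ 9 * k :=
      le_of_mul_le_mul_left e6 (by positivity)
    linarith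
  · exact Nat.lt_succ_self _

end KWar
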