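import Pool.Agent.KWar.ParG

/-!
# KWar.ParH: existence of parameters with `4 k` summands and 144 random coefficients

`q = 1`, `M = 30`, `J = ⌊89 k/1000⌋ + 1`, `gp = ⌊k/60⌋`, `m1 = k - 33`, `m0 = k - 144`,
`v = 4 (J + gp) + 147`, `u = k - v`, `n = (3v+1)/2`.
-/

namespace KWar

theorem par_h {k d : ℕ} (hk : 10 ^ 4 ≤ k) (hd : d ≤ k) (hda : 144 ≤ d) :
    ∃ p : Par k d, p.s ≤ 4 * k ∧ 3 * ((p.u + 1) * (p.q - 1)) < p.L := by
  norm_num at hk
  obtain ⟨J', hJ'⟩ : ∃ J', J' = 89 * k / 1000 := ⟨_, rfl⟩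
  have j1 : 1000 * J' ≤ 89 * k := by omega
  have j2 : 89 * k + 1 ≤ 1000 * (J' + 1) := by omega
  obtain ⟨G, hG⟩ : ∃ G, G = gp k 30 := ⟨_, rfl⟩
  have hG' : G = k / 60 := by rw [hG]; rfl
  have g1 : 60 * G ≤ k := by omega
  have g2 : k + 1 ≤ 60 * (G + 1) := by omega
  obtain ⟨v, hv⟩ : ∃ v, v = 4 * (J' + 1 + G) + 144 + 3 := ⟨_, rfl⟩
  have v2 : 2 * v ≤ k := by omega
  obtain ⟨U, hU⟩ : ∃ U, k = U + v := ⟨k - v, by omega⟩
  obtain ⟨m0, hm0⟩ : ∃ m0, k = m0 + 144 := ⟨k - 144, by omega⟩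
  obtain ⟨m1, hm1⟩ : ∃ m1, k = m1 + 33 := ⟨k - 33, by omega⟩
  obtain ⟨N, hN⟩ : ∃ N, k = N + 1 := ⟨k - 1, by omega⟩
  have hN1 : k - 1 = N := by omega
  refine ⟨{ q := 1, M := 30, J := J' + 1, L := 3 * ((U + 1) * (1 - 1)) + 1,
            n := (3 * v + 1) / 2, u := U, m0 := m0, m1 := m1,
            hk := by omega
            hd := hd
            hq := le_refl _
            hM := by omega
            hJ := by omega
            hn1 := by omega
            hJk := by rw [← hG]; omega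
            hL := by omega
            hn := par_hn (by omega) v2 hU
            hu := by omega
            c1 := by omega
            c1' := by omega
            c2 := by omega
            c3 := ?_
            c4 := by omega
            c5 := ?_
            c6 := ?_
            c7 := by omega
            c8 := ?_ }, ?_, ?_⟩
  · -- c3
    rw [← hG, hN1]
    obtain ⟨w, hw⟩ : ∃ w, w = 4 * (J' + 1 + G) := ⟨_, rfl⟩
    rw [← hw]
    obtain ⟨R, hR⟩ : ∃ R, N = w + R := ⟨N - w, by omega⟩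
    have e1 : N - w = R := by omega
    have e2 : m0 - 1 = U + 2 + w := by omega
    rw [e1, e2]
    have e3 : R = U + w + 147 - w - 1 := by omega
    have e4 : N = U + w + 146 := by omega
    have e5 : R = U + 146 := by omega
    rw [e4, e5]
    nlinarith
  · -- c5
    rw [← hG]
    have e1 : m1 + 2 = (m0 + 2 * 1 * 30) + 53 := by omega
    rw [e1, Nat.mul_add (8 * (1 + G)) (m0 + 2 * 1 * 30) 53]
    have e2 : 7 * k ≤ 8 * (1 + G) * 53 := by omega
    omega
  · -- c6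
    rw [← hG, hN1]
    obtain ⟨w, hw⟩ : ∃ w, w = 4 * (J' + 1 + G) := ⟨_, rfl⟩
    rw [← hw]
    have e1 : m1 = U + w + 114 := by omega
    have e2 : m0 + 2 * 1 * 30 = U + w + 63 := by omega
    have e4 : N = U + w + 146 := by omega
    rw [e1, e2, e4]
    nlinarith
  · -- c8
    rw [← hG, hN1]
    have e0 : 2 * k + 2 - m1 = N + 36 := by omega
    rw [e0, Nat.add_sub_cancel]
    zify
    have hNZ : (k : ℤ) = N + 1 := by exact_mod_cast hN
    have j1Z : 1000 * (J' : ℤ) ≤ 89 * k := by exact_mod_cast j1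
    have j2Z : 89 * (k : ℤ) + 1 ≤ 1000 * (J' + 1) := by exact_mod_cast j2
    have g1Z : 60 * (G : ℤ) ≤ k := by exact_mod_cast g1
    have hkZ : (10000 : ℤ) ≤ k := by exact_mod_cast hk
    have hJ0 : (0 : ℤ) ≤ J' := Int.natCast_nonneg _
    obtain ⟨T, hT⟩ : ∃ T : ℤ, T = (N : ℤ) - 2 * J' - 4 * G := ⟨_, rfl⟩
    have hT1 : 1132 * (k : ℤ) ≤ 1500 * T + 1500 := by
      rw [hT]
      linarith
    have hT0 : 0 ≤ T := by linarith
    have h1 : (89 * (k : ℤ)) * T ≤ 1000 * (J' + 1) * T := mul_le_mul_of_nonneg_right (by linarith) hT0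
    have h2 : (89 * (k : ℤ)) * (1132 * k) ≤ 89 * k * (1500 * T + 1500) :=
      mul_le_mul_of_nonneg_left hT1 (by linarith)
    have h3 : (k : ℤ) * 10000 ≤ k * k := mul_le_mul_of_nonneg_left hkZ (by linarith)
    have hN' : (N : ℤ) = k - 1 := by linarith
    rw [hN'] at hT ⊢
    have h4 : (1 : ℤ) * 30 * (((k : ℤ) - 1) * (J' + 1)) -
        (1 * 30 * (2 * (J' + 1) * J' + 4 * G * J')) = 30 * ((J' + 1) * T) + 120 * G := by
      rw [hT]
      ring
    have hG0 : (0 : ℤ) ≤ G := Int.natCast_nonneg _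
    nlinarith
  · show 2 * ((3 * v + 1) / 2) + 1 + (J' + 1) * 30 ≤ 4 * k
    omega
  · exact Nat.lt_succ_self _

end KWar
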